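import Pool.Agent.TDV.Step

set_option autoImplicit false

/-!
# Admissible pairs for the creation inequality in the weighted seminorm, weight `1 / (2 - s / T)`
-/

namespace Pool.Agent.TDV

theorem cre_a_0_p_0 (x : ℝ) (h1 : 0 ≤ x) (h2 : x ≤ 1 / 2) :
    ((0) + (0) * x +
      (31123 / 125000) * x ^ 2 + (1289 / 31250) * x ^ 3) ^ 2 * (2 - x) ≤
      (101 / 100 - x ^ 2) *
      (x - ((0) + (0) * x +
      (31123 / 125000) * x ^ 2 + (1289 / 31250) * x ^ 3) -
      ((0) + 2 * (31123 / 125000) * x +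
      3 * (1289 / 31250) * x ^ 2) * (2 - x)) := by
  obtain ⟨s, hs⟩ : ∃ s, s = x - 0 := ⟨_, rfl⟩
  obtain ⟨t, ht⟩ : ∃ t, t = 1 / 2 - x := ⟨_, rfl⟩
  have hs0 : 0 ≤ s := by linarith
  have ht0 : 0 ≤ t := by linarith
  have h : 0 ≤
      102616 / 390625 * s * t ^ 6 + 634583 / 390625 * s ^ 2 * t ^ 5 +
      2129031 / 390625 * s ^ 3 * t ^ 4 + 9576206371 / 976562500 * s ^ 4 * t ^ 3 +
      34276276829 / 3906250000 * s ^ 5 * t ^ 2 + 6680506529 / 1953125000 * s ^ 6 * t +
      1425567797 / 3906250000 * s ^ 7 := by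
    positivity
  have e :
      102616 / 390625 * s * t ^ 6 + 634583 / 390625 * s ^ 2 * t ^ 5 +
      2129031 / 390625 * s ^ 3 * t ^ 4 + 9576206371 / 976562500 * s ^ 4 * t ^ 3 +
      34276276829 / 3906250000 * s ^ 5 * t ^ 2 + 6680506529 / 1953125000 * s ^ 6 * t +
      1425567797 / 3906250000 * s ^ 7 =
      (101 / 100 - x ^ 2) *
      (x - ((0) + (0) * x +
      (31123 / 125000) * x ^ 2 + (1289 / 31250) * x ^ 3) -
      ((0) + 2 * (31123 / 125000) * x +
      3 * (1289 / 31250) * x ^ 2) * (2 - x)) -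
      ((0) + (0) * x +
      (31123 / 125000) * x ^ 2 + (1289 / 31250) * x ^ 3) ^ 2 * (2 - x) := by
    rw [hs, ht]
    ring
  rw [e] at h
  linarith

theorem cre_a_0_q_0 (x : ℝ) (h1 : 0 ≤ x) (h2 : x ≤ 1 / 2) :
    0 ≤
      (x - ((0) + (0) * x +
      (31123 / 125000) * x ^ 2 + (1289 / 31250) * x ^ 3) -
      ((0) + 2 * (31123 / 125000) * x +
      3 * (1289 / 31250) * x ^ 2) * (2 - x)) := by
  obtain ⟨s, hs⟩ : ∃ s, s = x - 0 := ⟨_, rfl⟩
  obtain ⟨t, ht⟩ : ∃ t, t = 1 / 2 - x := ⟨_, rfl⟩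
  have hs0 : 0 ≤ s := by linarith
  have ht0 : 0 ≤ t := by linarith
  have h : 0 ≤
      254 / 15625 * s * t ^ 2 + 2219 / 62500 * s ^ 2 * t + 6359 / 62500 * s ^ 3 := by
    positivity
  have e :
      254 / 15625 * s * t ^ 2 + 2219 / 62500 * s ^ 2 * t + 6359 / 62500 * s ^ 3 =
      (x - ((0) + (0) * x +
      (31123 / 125000) * x ^ 2 + (1289 / 31250) * x ^ 3) -
      ((0) + 2 * (31123 / 125000) * x +
      3 * (1289 / 31250) * x ^ 2) * (2 - x)) -
      0 := by
    rw [hs, ht]
    ring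
  rw [e] at h
  linarith

theorem cre_a_1_p_0 (x : ℝ) (h1 : 1 / 2 ≤ x) (h2 : x ≤ 3 / 4) :
    ((2653 / 100000) + (-(9439 / 62500)) * x +
      (1671 / 3125) * x ^ 2 + (-(2162 / 15625)) * x ^ 3) ^ 2 * (2 - x) ≤
      (101 / 100 - x ^ 2) *
      (x - ((2653 / 100000) + (-(9439 / 62500)) * x +
      (1671 / 3125) * x ^ 2 + (-(2162 / 15625)) * x ^ 3) -
      ((-(9439 / 62500)) + 2 * (1671 / 3125) * x +
      3 * (-(2162 / 15625)) * x ^ 2) * (2 - x)) := by
  obtain ⟨s, hs⟩ : ∃ s, s = x - 1 / 2 := ⟨_, rfl⟩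
  obtain ⟨t, ht⟩ : ∃ t, t = 3 / 4 - x := ⟨_, rfl⟩
  have hs0 : 0 ≤ s := by linarith
  have ht0 : 0 ≤ t := by linarith
  have h : 0 ≤
      11404542376 / 244140625 * t ^ 7 + 29112282716 / 244140625 * s * t ^ 6 +
      71352914768 / 244140625 * s ^ 2 * t ^ 5 + 47561058772 / 48828125 * s ^ 3 * t ^ 4 +
      412138991648 / 244140625 * s ^ 4 * t ^ 3 + 327652538716 / 244140625 * s ^ 5 * t ^ 2 +
      108070141136 / 244140625 * s ^ 6 * t + 1680229776 / 48828125 * s ^ 7 := by
    positivity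
  have e :
      11404542376 / 244140625 * t ^ 7 + 29112282716 / 244140625 * s * t ^ 6 +
      71352914768 / 244140625 * s ^ 2 * t ^ 5 + 47561058772 / 48828125 * s ^ 3 * t ^ 4 +
      412138991648 / 244140625 * s ^ 4 * t ^ 3 + 327652538716 / 244140625 * s ^ 5 * t ^ 2 +
      108070141136 / 244140625 * s ^ 6 * t + 1680229776 / 48828125 * s ^ 7 =
      (101 / 100 - x ^ 2) *
      (x - ((2653 / 100000) + (-(9439 / 62500)) * x +
      (1671 / 3125) * x ^ 2 + (-(2162 / 15625)) * x ^ 3) -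
      ((-(9439 / 62500)) + 2 * (1671 / 3125) * x +
      3 * (-(2162 / 15625)) * x ^ 2) * (2 - x)) -
      ((2653 / 100000) + (-(9439 / 62500)) * x +
      (1671 / 3125) * x ^ 2 + (-(2162 / 15625)) * x ^ 3) ^ 2 * (2 - x) := by
    rw [hs, ht]
    ring
  rw [e] at h
  linarith

theorem cre_a_1_q_0 (x : ℝ) (h1 : 1 / 2 ≤ x) (h2 : x ≤ 3 / 4) :
    0 ≤
      (x - ((2653 / 100000) + (-(9439 / 62500)) * x +
      (1671 / 3125) * x ^ 2 + (-(2162 / 15625)) * x ^ 3) -
      ((-(9439 / 62500)) + 2 * (1671 / 3125) * x +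
      3 * (-(2162 / 15625)) * x ^ 2) * (2 - x)) := by
  obtain ⟨s, hs⟩ : ∃ s, s = x - 1 / 2 := ⟨_, rfl⟩
  obtain ⟨t, ht⟩ : ∃ t, t = 3 / 4 - x := ⟨_, rfl⟩
  have hs0 : 0 ≤ s := by linarith
  have ht0 : 0 ≤ t := by linarith
  have h : 0 ≤
      12718 / 15625 * t ^ 3 + 42778 / 15625 * s * t ^ 2 + 106766 / 15625 * s ^ 2 * t +
      72382 / 15625 * s ^ 3 := by
    positivity
  have e :
      12718 / 15625 * t ^ 3 + 42778 / 15625 * s * t ^ 2 + 106766 / 15625 * s ^ 2 * t +
      72382 / 15625 * s ^ 3 =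
      (x - ((2653 / 100000) + (-(9439 / 62500)) * x +
      (1671 / 3125) * x ^ 2 + (-(2162 / 15625)) * x ^ 3) -
      ((-(9439 / 62500)) + 2 * (1671 / 3125) * x +
      3 * (-(2162 / 15625)) * x ^ 2) * (2 - x)) -
      0 := by
    rw [hs, ht]
    ring
  rw [e] at h
  linarith

theorem cre_a_2_p_0 (x : ℝ) (h1 : 3 / 4 ≤ x) (h2 : x ≤ 7 / 8) :
    ((331379 / 500000) + (-(333113 / 125000)) * x +
      (60081 / 15625) * x ^ 2 + (-(24864 / 15625)) * x ^ 3) ^ 2 * (2 - x) ≤
      (101 / 100 - x ^ 2) *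
      (x - ((331379 / 500000) + (-(333113 / 125000)) * x +
      (60081 / 15625) * x ^ 2 + (-(24864 / 15625)) * x ^ 3) -
      ((-(333113 / 125000)) + 2 * (60081 / 15625) * x +
      3 * (-(24864 / 15625)) * x ^ 2) * (2 - x)) := by
  obtain ⟨s, hs⟩ : ∃ s, s = x - 3 / 4 := ⟨_, rfl⟩
  obtain ⟨t, ht⟩ : ∃ t, t = 7 / 8 - x := ⟨_, rfl⟩
  have hs0 : 0 ≤ s := by linarith
  have ht0 : 0 ≤ t := by linarith
  have h : 0 ≤
      215069411328 / 48828125 * t ^ 7 + 1412133462016 / 244140625 * s * t ^ 6 +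
      2037644867456 / 244140625 * s ^ 2 * t ^ 5 +
      16132568982208 / 244140625 * s ^ 3 * t ^ 4 + 6947894192384 / 48828125 * s ^ 4 * t ^ 3 +
      29246250826688 / 244140625 * s ^ 5 * t ^ 2 + 9553683751936 / 244140625 * s ^ 6 * t +
      615811585536 / 244140625 * s ^ 7 := by
    positivity
  have e :
      215069411328 / 48828125 * t ^ 7 + 1412133462016 / 244140625 * s * t ^ 6 +
      2037644867456 / 244140625 * s ^ 2 * t ^ 5 +
      16132568982208 / 244140625 * s ^ 3 * t ^ 4 + 6947894192384 / 48828125 * s ^ 4 * t ^ 3 +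
      29246250826688 / 244140625 * s ^ 5 * t ^ 2 + 9553683751936 / 244140625 * s ^ 6 * t +
      615811585536 / 244140625 * s ^ 7 =
      (101 / 100 - x ^ 2) *
      (x - ((331379 / 500000) + (-(333113 / 125000)) * x +
      (60081 / 15625) * x ^ 2 + (-(24864 / 15625)) * x ^ 3) -
      ((-(333113 / 125000)) + 2 * (60081 / 15625) * x +
      3 * (-(24864 / 15625)) * x ^ 2) * (2 - x)) -
      ((331379 / 500000) + (-(333113 / 125000)) * x +
      (60081 / 15625) * x ^ 2 + (-(24864 / 15625)) * x ^ 3) ^ 2 * (2 - x) := by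
    rw [hs, ht]
    ring
  rw [e] at h
  linarith

theorem cre_a_2_q_0 (x : ℝ) (h1 : 3 / 4 ≤ x) (h2 : x ≤ 7 / 8) :
    0 ≤
      (x - ((331379 / 500000) + (-(333113 / 125000)) * x +
      (60081 / 15625) * x ^ 2 + (-(24864 / 15625)) * x ^ 3) -
      ((-(333113 / 125000)) + 2 * (60081 / 15625) * x +
      3 * (-(24864 / 15625)) * x ^ 2) * (2 - x)) := by
  obtain ⟨s, hs⟩ : ∃ s, s = x - 3 / 4 := ⟨_, rfl⟩
  obtain ⟨t, ht⟩ : ∃ t, t = 7 / 8 - x := ⟨_, rfl⟩
  have hs0 : 0 ≤ s := by linarith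
  have ht0 : 0 ≤ t := by linarith
  have h : 0 ≤
      579056 / 15625 * t ^ 3 + 2075248 / 15625 * s * t ^ 2 + 3192344 / 15625 * s ^ 2 * t +
      1646424 / 15625 * s ^ 3 := by
    positivity
  have e :
      579056 / 15625 * t ^ 3 + 2075248 / 15625 * s * t ^ 2 + 3192344 / 15625 * s ^ 2 * t +
      1646424 / 15625 * s ^ 3 =
      (x - ((331379 / 500000) + (-(333113 / 125000)) * x +
      (60081 / 15625) * x ^ 2 + (-(24864 / 15625)) * x ^ 3) -
      ((-(333113 / 125000)) + 2 * (60081 / 15625) * x +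
      3 * (-(24864 / 15625)) * x ^ 2) * (2 - x)) -
      0 := by
    rw [hs, ht]
    ring
  rw [e] at h
  linarith

theorem cre_a_3_p_0 (x : ℝ) (h1 : 7 / 8 ≤ x) (h2 : x ≤ 29 / 32) :
    ((3532059 / 500000) + (-(122543 / 5000)) * x +
      (448293 / 15625) * x ^ 2 + (-(172048 / 15625)) * x ^ 3) ^ 2 * (2 - x) ≤
      (101 / 100 - x ^ 2) *
      (x - ((3532059 / 500000) + (-(122543 / 5000)) * x +
      (448293 / 15625) * x ^ 2 + (-(172048 / 15625)) * x ^ 3) -
      ((-(122543 / 5000)) + 2 * (448293 / 15625) * x +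
      3 * (-(172048 / 15625)) * x ^ 2) * (2 - x)) := by
  obtain ⟨s, hs⟩ : ∃ s, s = x - 7 / 8 := ⟨_, rfl⟩
  obtain ⟨t, ht⟩ : ∃ t, t = 29 / 32 - x := ⟨_, rfl⟩
  have hs0 : 0 ≤ s := by linarith
  have ht0 : 0 ≤ t := by linarith
  have h : 0 ≤
      10089457017421824 / 244140625 * t ^ 7 + 32047993249071104 / 244140625 * s * t ^ 6 +
      32154677360918528 / 244140625 * s ^ 2 * t ^ 5 +
      16269921170210816 / 244140625 * s ^ 3 * t ^ 4 +
      31416985259741184 / 244140625 * s ^ 4 * t ^ 3 +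
      9867768813364224 / 48828125 * s ^ 5 * t ^ 2 + 1215750467381248 / 9765625 * s ^ 6 * t +
      51185219496192 / 1953125 * s ^ 7 := by
    positivity
  have e :
      10089457017421824 / 244140625 * t ^ 7 + 32047993249071104 / 244140625 * s * t ^ 6 +
      32154677360918528 / 244140625 * s ^ 2 * t ^ 5 +
      16269921170210816 / 244140625 * s ^ 3 * t ^ 4 +
      31416985259741184 / 244140625 * s ^ 4 * t ^ 3 +
      9867768813364224 / 48828125 * s ^ 5 * t ^ 2 + 1215750467381248 / 9765625 * s ^ 6 * t +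
      51185219496192 / 1953125 * s ^ 7 =
      (101 / 100 - x ^ 2) *
      (x - ((3532059 / 500000) + (-(122543 / 5000)) * x +
      (448293 / 15625) * x ^ 2 + (-(172048 / 15625)) * x ^ 3) -
      ((-(122543 / 5000)) + 2 * (448293 / 15625) * x +
      3 * (-(172048 / 15625)) * x ^ 2) * (2 - x)) -
      ((3532059 / 500000) + (-(122543 / 5000)) * x +
      (448293 / 15625) * x ^ 2 + (-(172048 / 15625)) * x ^ 3) ^ 2 * (2 - x) := by
    rw [hs, ht]
    ring
  rw [e] at h
  linarith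

theorem cre_a_3_p_1 (x : ℝ) (h1 : 29 / 32 ≤ x) (h2 : x ≤ 15 / 16) :
    ((3532059 / 500000) + (-(122543 / 5000)) * x +
      (448293 / 15625) * x ^ 2 + (-(172048 / 15625)) * x ^ 3) ^ 2 * (2 - x) ≤
      (101 / 100 - x ^ 2) *
      (x - ((3532059 / 500000) + (-(122543 / 5000)) * x +
      (448293 / 15625) * x ^ 2 + (-(172048 / 15625)) * x ^ 3) -
      ((-(122543 / 5000)) + 2 * (448293 / 15625) * x +
      3 * (-(172048 / 15625)) * x ^ 2) * (2 - x)) := by
  obtain ⟨s, hs⟩ : ∃ s, s = x - 29 / 32 := ⟨_, rfl⟩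
  obtain ⟨t, ht⟩ : ∃ t, t = 15 / 16 - x := ⟨_, rfl⟩
  have hs0 : 0 ≤ s := by linarith
  have ht0 : 0 ≤ t := by linarith
  have h : 0 ≤
      51185219496192 / 1953125 * t ^ 7 + 2367214897352192 / 9765625 * s * t ^ 6 +
      44411701712492544 / 48828125 * s ^ 2 * t ^ 5 +
      429828436703318016 / 244140625 * s ^ 3 * t ^ 4 +
      458451296973574144 / 244140625 * s ^ 4 * t ^ 3 +
      263620362164887552 / 244140625 * s ^ 5 * t ^ 2 +
      71202383238660096 / 244140625 * s ^ 6 * t + 5481199510224896 / 244140625 * s ^ 7 := by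
    positivity
  have e :
      51185219496192 / 1953125 * t ^ 7 + 2367214897352192 / 9765625 * s * t ^ 6 +
      44411701712492544 / 48828125 * s ^ 2 * t ^ 5 +
      429828436703318016 / 244140625 * s ^ 3 * t ^ 4 +
      458451296973574144 / 244140625 * s ^ 4 * t ^ 3 +
      263620362164887552 / 244140625 * s ^ 5 * t ^ 2 +
      71202383238660096 / 244140625 * s ^ 6 * t + 5481199510224896 / 244140625 * s ^ 7 =
      (101 / 100 - x ^ 2) *
      (x - ((3532059 / 500000) + (-(122543 / 5000)) * x +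
      (448293 / 15625) * x ^ 2 + (-(172048 / 15625)) * x ^ 3) -
      ((-(122543 / 5000)) + 2 * (448293 / 15625) * x +
      3 * (-(172048 / 15625)) * x ^ 2) * (2 - x)) -
      ((3532059 / 500000) + (-(122543 / 5000)) * x +
      (448293 / 15625) * x ^ 2 + (-(172048 / 15625)) * x ^ 3) ^ 2 * (2 - x) := by
    rw [hs, ht]
    ring
  rw [e] at h
  linarith

theorem cre_a_3_q_0 (x : ℝ) (h1 : 7 / 8 ≤ x) (h2 : x ≤ 15 / 16) :
    0 ≤
      (x - ((3532059 / 500000) + (-(122543 / 5000)) * x +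
      (448293 / 15625) * x ^ 2 + (-(172048 / 15625)) * x ^ 3) -
      ((-(122543 / 5000)) + 2 * (448293 / 15625) * x +
      3 * (-(172048 / 15625)) * x ^ 2) * (2 - x)) := by
  obtain ⟨s, hs⟩ : ∃ s, s = x - 7 / 8 := ⟨_, rfl⟩
  obtain ⟨t, ht⟩ : ∃ t, t = 15 / 16 - x := ⟨_, rfl⟩
  have hs0 : 0 ≤ s := by linarith
  have ht0 : 0 ≤ t := by linarith
  have h : 0 ≤
      13171392 / 15625 * t ^ 3 + 45433984 / 15625 * s * t ^ 2 +
      60591056 / 15625 * s ^ 2 * t + 27984368 / 15625 * s ^ 3 := by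
    positivity
  have e :
      13171392 / 15625 * t ^ 3 + 45433984 / 15625 * s * t ^ 2 +
      60591056 / 15625 * s ^ 2 * t + 27984368 / 15625 * s ^ 3 =
      (x - ((3532059 / 500000) + (-(122543 / 5000)) * x +
      (448293 / 15625) * x ^ 2 + (-(172048 / 15625)) * x ^ 3) -
      ((-(122543 / 5000)) + 2 * (448293 / 15625) * x +
      3 * (-(172048 / 15625)) * x ^ 2) * (2 - x)) -
      0 := by
    rw [hs, ht]
    ring
  rw [e] at h
  linarith

theorem cre_a_4_p_0 (x : ℝ) (h1 : 15 / 16 ≤ x) (h2 : x ≤ 61 / 64) :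
    ((127064997 / 4000000) + (-(5192279 / 50000)) * x +
      (1775412 / 15625) * x ^ 2 + (-(645632 / 15625)) * x ^ 3) ^ 2 * (2 - x) ≤
      (101 / 100 - x ^ 2) *
      (x - ((127064997 / 4000000) + (-(5192279 / 50000)) * x +
      (1775412 / 15625) * x ^ 2 + (-(645632 / 15625)) * x ^ 3) -
      ((-(5192279 / 50000)) + 2 * (1775412 / 15625) * x +
      3 * (-(645632 / 15625)) * x ^ 2) * (2 - x)) := by
  obtain ⟨s, hs⟩ : ∃ s, s = x - 15 / 16 := ⟨_, rfl⟩
  obtain ⟨t, ht⟩ : ∃ t, t = 61 / 64 - x := ⟨_, rfl⟩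
  have hs0 : 0 ≤ s := by linarith
  have ht0 : 0 ≤ t := by linarith
  have h : 0 ≤
      701593537308786688 / 244140625 * t ^ 7 + 851261681949474816 / 48828125 * s * t ^ 6 +
      12278740599283908608 / 244140625 * s ^ 2 * t ^ 5 +
      21126341301592981504 / 244140625 * s ^ 3 * t ^ 4 +
      22289670434269560832 / 244140625 * s ^ 4 * t ^ 3 +
      2757409764855578624 / 48828125 * s ^ 5 * t ^ 2 +
      888683849772433408 / 48828125 * s ^ 6 * t + 543725700946853888 / 244140625 * s ^ 7 := by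
    positivity
  have e :
      701593537308786688 / 244140625 * t ^ 7 + 851261681949474816 / 48828125 * s * t ^ 6 +
      12278740599283908608 / 244140625 * s ^ 2 * t ^ 5 +
      21126341301592981504 / 244140625 * s ^ 3 * t ^ 4 +
      22289670434269560832 / 244140625 * s ^ 4 * t ^ 3 +
      2757409764855578624 / 48828125 * s ^ 5 * t ^ 2 +
      888683849772433408 / 48828125 * s ^ 6 * t + 543725700946853888 / 244140625 * s ^ 7 =
      (101 / 100 - x ^ 2) *
      (x - ((127064997 / 4000000) + (-(5192279 / 50000)) * x +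
      (1775412 / 15625) * x ^ 2 + (-(645632 / 15625)) * x ^ 3) -
      ((-(5192279 / 50000)) + 2 * (1775412 / 15625) * x +
      3 * (-(645632 / 15625)) * x ^ 2) * (2 - x)) -
      ((127064997 / 4000000) + (-(5192279 / 50000)) * x +
      (1775412 / 15625) * x ^ 2 + (-(645632 / 15625)) * x ^ 3) ^ 2 * (2 - x) := by
    rw [hs, ht]
    ring
  rw [e] at h
  linarith

theorem cre_a_4_q_0 (x : ℝ) (h1 : 15 / 16 ≤ x) (h2 : x ≤ 61 / 64) :
    0 ≤
      (x - ((127064997 / 4000000) + (-(5192279 / 50000)) * x +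
      (1775412 / 15625) * x ^ 2 + (-(645632 / 15625)) * x ^ 3) -
      ((-(5192279 / 50000)) + 2 * (1775412 / 15625) * x +
      3 * (-(645632 / 15625)) * x ^ 2) * (2 - x)) := by
  obtain ⟨s, hs⟩ : ∃ s, s = x - 15 / 16 := ⟨_, rfl⟩
  obtain ⟨t, ht⟩ : ∃ t, t = 61 / 64 - x := ⟨_, rfl⟩
  have hs0 : 0 ≤ s := by linarith
  have ht0 : 0 ≤ t := by linarith
  have h : 0 ≤
      1790999552 / 15625 * t ^ 3 + 5788883968 / 15625 * s * t ^ 2 +
      6333890816 / 15625 * s ^ 2 * t + 2334715136 / 15625 * s ^ 3 := by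
    positivity
  have e :
      1790999552 / 15625 * t ^ 3 + 5788883968 / 15625 * s * t ^ 2 +
      6333890816 / 15625 * s ^ 2 * t + 2334715136 / 15625 * s ^ 3 =
      (x - ((127064997 / 4000000) + (-(5192279 / 50000)) * x +
      (1775412 / 15625) * x ^ 2 + (-(645632 / 15625)) * x ^ 3) -
      ((-(5192279 / 50000)) + 2 * (1775412 / 15625) * x +
      3 * (-(645632 / 15625)) * x ^ 2) * (2 - x)) -
      0 := by
    rw [hs, ht]
    ring
  rw [e] at h
  linarith

theorem cre_a_5_p_0 (x : ℝ) (h1 : 61 / 64 ≤ x) (h2 : x ≤ 31 / 32) :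
    ((81477879 / 1000000) + (-(32514819 / 125000)) * x +
      (4334044 / 15625) * x ^ 2 + (-(1539328 / 15625)) * x ^ 3) ^ 2 * (2 - x) ≤
      (101 / 100 - x ^ 2) *
      (x - ((81477879 / 1000000) + (-(32514819 / 125000)) * x +
      (4334044 / 15625) * x ^ 2 + (-(1539328 / 15625)) * x ^ 3) -
      ((-(32514819 / 125000)) + 2 * (4334044 / 15625) * x +
      3 * (-(1539328 / 15625)) * x ^ 2) * (2 - x)) := by
  obtain ⟨s, hs⟩ : ∃ s, s = x - 61 / 64 := ⟨_, rfl⟩
  obtain ⟨t, ht⟩ : ∃ t, t = 31 / 32 - x := ⟨_, rfl⟩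
  have hs0 : 0 ≤ s := by linarith
  have ht0 : 0 ≤ t := by linarith
  have h : 0 ≤
      543725700946853888 / 244140625 * t ^ 7 + 2433596952796987392 / 244140625 * s * t ^ 6 +
      6704822681374359552 / 244140625 * s ^ 2 * t ^ 5 +
      13740225501834379264 / 244140625 * s ^ 3 * t ^ 4 +
      17556326144276168704 / 244140625 * s ^ 4 * t ^ 3 +
      12189434582025109504 / 244140625 * s ^ 5 * t ^ 2 +
      3942035677562011648 / 244140625 * s ^ 6 * t + 383655537033609216 / 244140625 * s ^ 7 := by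
    positivity
  have e :
      543725700946853888 / 244140625 * t ^ 7 + 2433596952796987392 / 244140625 * s * t ^ 6 +
      6704822681374359552 / 244140625 * s ^ 2 * t ^ 5 +
      13740225501834379264 / 244140625 * s ^ 3 * t ^ 4 +
      17556326144276168704 / 244140625 * s ^ 4 * t ^ 3 +
      12189434582025109504 / 244140625 * s ^ 5 * t ^ 2 +
      3942035677562011648 / 244140625 * s ^ 6 * t + 383655537033609216 / 244140625 * s ^ 7 =
      (101 / 100 - x ^ 2) *
      (x - ((81477879 / 1000000) + (-(32514819 / 125000)) * x +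
      (4334044 / 15625) * x ^ 2 + (-(1539328 / 15625)) * x ^ 3) -
      ((-(32514819 / 125000)) + 2 * (4334044 / 15625) * x +
      3 * (-(1539328 / 15625)) * x ^ 2) * (2 - x)) -
      ((81477879 / 1000000) + (-(32514819 / 125000)) * x +
      (4334044 / 15625) * x ^ 2 + (-(1539328 / 15625)) * x ^ 3) ^ 2 * (2 - x) := by
    rw [hs, ht]
    ring
  rw [e] at h
  linarith

theorem cre_a_5_q_0 (x : ℝ) (h1 : 61 / 64 ≤ x) (h2 : x ≤ 31 / 32) :
    0 ≤
      (x - ((81477879 / 1000000) + (-(32514819 / 125000)) * x +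
      (4334044 / 15625) * x ^ 2 + (-(1539328 / 15625)) * x ^ 3) -
      ((-(32514819 / 125000)) + 2 * (4334044 / 15625) * x +
      3 * (-(1539328 / 15625)) * x ^ 2) * (2 - x)) := by
  obtain ⟨s, hs⟩ : ∃ s, s = x - 61 / 64 := ⟨_, rfl⟩
  obtain ⟨t, ht⟩ : ∃ t, t = 31 / 32 - x := ⟨_, rfl⟩
  have hs0 : 0 ≤ s := by linarith
  have ht0 : 0 ≤ t := by linarith
  have h : 0 ≤
      2334715136 / 15625 * t ^ 3 + 1529357056 / 3125 * s * t ^ 2 +
      8594511872 / 15625 * s ^ 2 * t + 3279363072 / 15625 * s ^ 3 := by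
    positivity
  have e :
      2334715136 / 15625 * t ^ 3 + 1529357056 / 3125 * s * t ^ 2 +
      8594511872 / 15625 * s ^ 2 * t + 3279363072 / 15625 * s ^ 3 =
      (x - ((81477879 / 1000000) + (-(32514819 / 125000)) * x +
      (4334044 / 15625) * x ^ 2 + (-(1539328 / 15625)) * x ^ 3) -
      ((-(32514819 / 125000)) + 2 * (4334044 / 15625) * x +
      3 * (-(1539328 / 15625)) * x ^ 2) * (2 - x)) -
      0 := by
    rw [hs, ht]
    ring
  rw [e] at h
  linarith

theorem cre_a_6_p_0 (x : ℝ) (h1 : 31 / 32 ≤ x) (h2 : x ≤ 125 / 128) :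
    ((801401823 / 4000000) + (-(15710063 / 25000)) * x +
      (10276728 / 15625) * x ^ 2 + (-(3585024 / 15625)) * x ^ 3) ^ 2 * (2 - x) ≤
      (101 / 100 - x ^ 2) *
      (x - ((801401823 / 4000000) + (-(15710063 / 25000)) * x +
      (10276728 / 15625) * x ^ 2 + (-(3585024 / 15625)) * x ^ 3) -
      ((-(15710063 / 25000)) + 2 * (10276728 / 15625) * x +
      3 * (-(3585024 / 15625)) * x ^ 2) * (2 - x)) := by
  obtain ⟨s, hs⟩ : ∃ s, s = x - 31 / 32 := ⟨_, rfl⟩
  obtain ⟨t, ht⟩ : ∃ t, t = 125 / 128 - x := ⟨_, rfl⟩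
  have hs0 : 0 ≤ s := by linarith
  have ht0 : 0 ≤ t := by linarith
  have h : 0 ≤
      49107908740301979648 / 244140625 * t ^ 7 +
      289902477135243640832 / 244140625 * s * t ^ 6 +
      837137760815318827008 / 244140625 * s ^ 2 * t ^ 5 +
      1470430925617304174592 / 244140625 * s ^ 3 * t ^ 4 +
      1589601229813898543104 / 244140625 * s ^ 4 * t ^ 3 +
      40012388947178029056 / 9765625 * s ^ 5 * t ^ 2 +
      323508591973160189952 / 244140625 * s ^ 6 * t + 38712377763078078464 / 244140625 * s ^ 7 := by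
    positivity
  have e :
      49107908740301979648 / 244140625 * t ^ 7 +
      289902477135243640832 / 244140625 * s * t ^ 6 +
      837137760815318827008 / 244140625 * s ^ 2 * t ^ 5 +
      1470430925617304174592 / 244140625 * s ^ 3 * t ^ 4 +
      1589601229813898543104 / 244140625 * s ^ 4 * t ^ 3 +
      40012388947178029056 / 9765625 * s ^ 5 * t ^ 2 +
      323508591973160189952 / 244140625 * s ^ 6 * t + 38712377763078078464 / 244140625 * s ^ 7 =
      (101 / 100 - x ^ 2) *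
      (x - ((801401823 / 4000000) + (-(15710063 / 25000)) * x +
      (10276728 / 15625) * x ^ 2 + (-(3585024 / 15625)) * x ^ 3) -
      ((-(15710063 / 25000)) + 2 * (10276728 / 15625) * x +
      3 * (-(3585024 / 15625)) * x ^ 2) * (2 - x)) -
      ((801401823 / 4000000) + (-(15710063 / 25000)) * x +
      (10276728 / 15625) * x ^ 2 + (-(3585024 / 15625)) * x ^ 3) ^ 2 * (2 - x) := by
    rw [hs, ht]
    ring
  rw [e] at h
  linarith

theorem cre_a_6_q_0 (x : ℝ) (h1 : 31 / 32 ≤ x) (h2 : x ≤ 125 / 128) :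
    0 ≤
      (x - ((801401823 / 4000000) + (-(15710063 / 25000)) * x +
      (10276728 / 15625) * x ^ 2 + (-(3585024 / 15625)) * x ^ 3) -
      ((-(15710063 / 25000)) + 2 * (10276728 / 15625) * x +
      3 * (-(3585024 / 15625)) * x ^ 2) * (2 - x)) := by
  obtain ⟨s, hs⟩ : ∃ s, s = x - 31 / 32 := ⟨_, rfl⟩
  obtain ⟨t, ht⟩ : ∃ t, t = 125 / 128 - x := ⟨_, rfl⟩
  have hs0 : 0 ≤ s := by linarith
  have ht0 : 0 ≤ t := by linarith
  have h : 0 ≤
      26234904576 / 15625 * t ^ 3 + 83767558144 / 15625 * s * t ^ 2 +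
      18046372864 / 3125 * s ^ 2 * t + 32692040704 / 15625 * s ^ 3 := by
    positivity
  have e :
      26234904576 / 15625 * t ^ 3 + 83767558144 / 15625 * s * t ^ 2 +
      18046372864 / 3125 * s ^ 2 * t + 32692040704 / 15625 * s ^ 3 =
      (x - ((801401823 / 4000000) + (-(15710063 / 25000)) * x +
      (10276728 / 15625) * x ^ 2 + (-(3585024 / 15625)) * x ^ 3) -
      ((-(15710063 / 25000)) + 2 * (10276728 / 15625) * x +
      3 * (-(3585024 / 15625)) * x ^ 2) * (2 - x)) -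
      0 := by
    rw [hs, ht]
    ring
  rw [e] at h
  linarith

theorem cre_a_7_p_0 (x : ℝ) (h1 : 125 / 128 ≤ x) (h2 : x ≤ 63 / 64) :
    ((14577636459 / 32000000) + (-(141195977 / 100000)) * x +
      (22806936 / 15625) * x ^ 2 + (-(7859712 / 15625)) * x ^ 3) ^ 2 * (2 - x) ≤
      (101 / 100 - x ^ 2) *
      (x - ((14577636459 / 32000000) + (-(141195977 / 100000)) * x +
      (22806936 / 15625) * x ^ 2 + (-(7859712 / 15625)) * x ^ 3) -
      ((-(141195977 / 100000)) + 2 * (22806936 / 15625) * x +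
      3 * (-(7859712 / 15625)) * x ^ 2) * (2 - x)) := by
  obtain ⟨s, hs⟩ : ∃ s, s = x - 125 / 128 := ⟨_, rfl⟩
  obtain ⟨t, ht⟩ : ∃ t, t = 63 / 64 - x := ⟨_, rfl⟩
  have hs0 : 0 ≤ s := by linarith
  have ht0 : 0 ≤ t := by linarith
  have h : 0 ≤
      38712377763078078464 / 244140625 * t ^ 7 +
      165318683550017388544 / 244140625 * s * t ^ 6 +
      460931319943627014144 / 244140625 * s ^ 2 * t ^ 5 +
      198626530982657785856 / 48828125 * s ^ 3 * t ^ 4 +
      1314528799300290609152 / 244140625 * s ^ 4 * t ^ 3 +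
      927231290345346564096 / 244140625 * s ^ 5 * t ^ 2 +
      299668008930583248896 / 244140625 * s ^ 6 * t + 5631587780799758336 / 48828125 * s ^ 7 := by
    positivity
  have e :
      38712377763078078464 / 244140625 * t ^ 7 +
      165318683550017388544 / 244140625 * s * t ^ 6 +
      460931319943627014144 / 244140625 * s ^ 2 * t ^ 5 +
      198626530982657785856 / 48828125 * s ^ 3 * t ^ 4 +
      1314528799300290609152 / 244140625 * s ^ 4 * t ^ 3 +
      927231290345346564096 / 244140625 * s ^ 5 * t ^ 2 +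
      299668008930583248896 / 244140625 * s ^ 6 * t + 5631587780799758336 / 48828125 * s ^ 7 =
      (101 / 100 - x ^ 2) *
      (x - ((14577636459 / 32000000) + (-(141195977 / 100000)) * x +
      (22806936 / 15625) * x ^ 2 + (-(7859712 / 15625)) * x ^ 3) -
      ((-(141195977 / 100000)) + 2 * (22806936 / 15625) * x +
      3 * (-(7859712 / 15625)) * x ^ 2) * (2 - x)) -
      ((14577636459 / 32000000) + (-(141195977 / 100000)) * x +
      (22806936 / 15625) * x ^ 2 + (-(7859712 / 15625)) * x ^ 3) ^ 2 * (2 - x) := by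
    rw [hs, ht]
    ring
  rw [e] at h
  linarith

theorem cre_a_7_q_0 (x : ℝ) (h1 : 125 / 128 ≤ x) (h2 : x ≤ 63 / 64) :
    0 ≤
      (x - ((14577636459 / 32000000) + (-(141195977 / 100000)) * x +
      (22806936 / 15625) * x ^ 2 + (-(7859712 / 15625)) * x ^ 3) -
      ((-(141195977 / 100000)) + 2 * (22806936 / 15625) * x +
      3 * (-(7859712 / 15625)) * x ^ 2) * (2 - x)) := by
  obtain ⟨s, hs⟩ : ∃ s, s = x - 125 / 128 := ⟨_, rfl⟩
  obtain ⟨t, ht⟩ : ∃ t, t = 63 / 64 - x := ⟨_, rfl⟩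
  have hs0 : 0 ≤ s := by linarith
  have ht0 : 0 ≤ t := by linarith
  have h : 0 ≤
      32692040704 / 15625 * t ^ 3 + 105695420416 / 15625 * s * t ^ 2 +
      116375481344 / 15625 * s ^ 2 * t + 43356382208 / 15625 * s ^ 3 := by
    positivity
  have e :
      32692040704 / 15625 * t ^ 3 + 105695420416 / 15625 * s * t ^ 2 +
      116375481344 / 15625 * s ^ 2 * t + 43356382208 / 15625 * s ^ 3 =
      (x - ((14577636459 / 32000000) + (-(141195977 / 100000)) * x +
      (22806936 / 15625) * x ^ 2 + (-(7859712 / 15625)) * x ^ 3) -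
      ((-(141195977 / 100000)) + 2 * (22806936 / 15625) * x +
      3 * (-(7859712 / 15625)) * x ^ 2) * (2 - x)) -
      0 := by
    rw [hs, ht]
    ring
  rw [e] at h
  linarith

theorem cre_a_8_p_0 (x : ℝ) (h1 : 63 / 64 ≤ x) (h2 : x ≤ 253 / 256) :
    ((32097183483 / 32000000) + (-(308089277 / 100000)) * x +
      (9860872 / 3125) * x ^ 2 + (-(3366912 / 3125)) * x ^ 3) ^ 2 * (2 - x) ≤
      (101 / 100 - x ^ 2) *
      (x - ((32097183483 / 32000000) + (-(308089277 / 100000)) * x +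
      (9860872 / 3125) * x ^ 2 + (-(3366912 / 3125)) * x ^ 3) -
      ((-(308089277 / 100000)) + 2 * (9860872 / 3125) * x +
      3 * (-(3366912 / 3125)) * x ^ 2) * (2 - x)) := by
  obtain ⟨s, hs⟩ : ∃ s, s = x - 63 / 64 := ⟨_, rfl⟩
  obtain ⟨t, ht⟩ : ∃ t, t = 253 / 256 - x := ⟨_, rfl⟩
  have hs0 : 0 ≤ s := by linarith
  have ht0 : 0 ≤ t := by linarith
  have h : 0 ≤
      720843235942369067008 / 48828125 * t ^ 7 +
      21018802965026571288576 / 244140625 * s * t ^ 6 +
      60351447009392167223296 / 244140625 * s ^ 2 * t ^ 5 +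
      21247234904279564156928 / 48828125 * s ^ 3 * t ^ 4 +
      4626118008005466259456 / 9765625 * s ^ 4 * t ^ 3 +
      14692382887002970783744 / 48828125 * s ^ 5 * t ^ 2 +
      24035675691434687594496 / 244140625 * s ^ 6 * t +
      2927397442638521040896 / 244140625 * s ^ 7 := by
    positivity
  have e :
      720843235942369067008 / 48828125 * t ^ 7 +
      21018802965026571288576 / 244140625 * s * t ^ 6 +
      60351447009392167223296 / 244140625 * s ^ 2 * t ^ 5 +
      21247234904279564156928 / 48828125 * s ^ 3 * t ^ 4 +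
      4626118008005466259456 / 9765625 * s ^ 4 * t ^ 3 +
      14692382887002970783744 / 48828125 * s ^ 5 * t ^ 2 +
      24035675691434687594496 / 244140625 * s ^ 6 * t +
      2927397442638521040896 / 244140625 * s ^ 7 =
      (101 / 100 - x ^ 2) *
      (x - ((32097183483 / 32000000) + (-(308089277 / 100000)) * x +
      (9860872 / 3125) * x ^ 2 + (-(3366912 / 3125)) * x ^ 3) -
      ((-(308089277 / 100000)) + 2 * (9860872 / 3125) * x +
      3 * (-(3366912 / 3125)) * x ^ 2) * (2 - x)) -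
      ((32097183483 / 32000000) + (-(308089277 / 100000)) * x +
      (9860872 / 3125) * x ^ 2 + (-(3366912 / 3125)) * x ^ 3) ^ 2 * (2 - x) := by
    rw [hs, ht]
    ring
  rw [e] at h
  linarith

theorem cre_a_8_q_0 (x : ℝ) (h1 : 63 / 64 ≤ x) (h2 : x ≤ 253 / 256) :
    0 ≤
      (x - ((32097183483 / 32000000) + (-(308089277 / 100000)) * x +
      (9860872 / 3125) * x ^ 2 + (-(3366912 / 3125)) * x ^ 3) -
      ((-(308089277 / 100000)) + 2 * (9860872 / 3125) * x +
      3 * (-(3366912 / 3125)) * x ^ 2) * (2 - x)) := by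
  obtain ⟨s, hs⟩ : ∃ s, s = x - 63 / 64 := ⟨_, rfl⟩
  obtain ⟨t, ht⟩ : ∃ t, t = 253 / 256 - x := ⟨_, rfl⟩
  have hs0 : 0 ≤ s := by linarith
  have ht0 : 0 ≤ t := by linarith
  have h : 0 ≤
      346851057664 / 15625 * t ^ 3 + 1096182996992 / 15625 * s * t ^ 2 +
      1164838766592 / 15625 * s ^ 2 * t + 415473158144 / 15625 * s ^ 3 := by
    positivity
  have e :
      346851057664 / 15625 * t ^ 3 + 1096182996992 / 15625 * s * t ^ 2 +
      1164838766592 / 15625 * s ^ 2 * t + 415473158144 / 15625 * s ^ 3 =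
      (x - ((32097183483 / 32000000) + (-(308089277 / 100000)) * x +
      (9860872 / 3125) * x ^ 2 + (-(3366912 / 3125)) * x ^ 3) -
      ((-(308089277 / 100000)) + 2 * (9860872 / 3125) * x +
      3 * (-(3366912 / 3125)) * x ^ 2) * (2 - x)) -
      0 := by
    rw [hs, ht]
    ring
  rw [e] at h
  linarith

theorem cre_a_9_p_0 (x : ℝ) (h1 : 253 / 256 ≤ x) (h2 : x ≤ 127 / 128) :
    ((125939688681 / 64000000) + (-(600881117 / 100000)) * x +
      (19116856 / 3125) * x ^ 2 + (-(6488064 / 3125)) * x ^ 3) ^ 2 * (2 - x) ≤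
      (101 / 100 - x ^ 2) *
      (x - ((125939688681 / 64000000) + (-(600881117 / 100000)) * x +
      (19116856 / 3125) * x ^ 2 + (-(6488064 / 3125)) * x ^ 3) -
      ((-(600881117 / 100000)) + 2 * (19116856 / 3125) * x +
      3 * (-(6488064 / 3125)) * x ^ 2) * (2 - x)) := by
  obtain ⟨s, hs⟩ : ∃ s, s = x - 253 / 256 := ⟨_, rfl⟩
  obtain ⟨t, ht⟩ : ∃ t, t = 127 / 128 - x := ⟨_, rfl⟩
  have hs0 : 0 ≤ s := by linarith
  have ht0 : 0 ≤ t := by linarith
  have h : 0 ≤
      2927397442638521040896 / 244140625 * t ^ 7 +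
      13605128677796293378048 / 244140625 * s * t ^ 6 +
      38668407571166309384192 / 244140625 * s ^ 2 * t ^ 5 +
      15887337987032840404992 / 48828125 * s ^ 3 * t ^ 4 +
      20138125354761847832576 / 48828125 * s ^ 4 * t ^ 3 +
      69531811676944645226496 / 244140625 * s ^ 5 * t ^ 2 +
      22535192223185683611648 / 244140625 * s ^ 6 * t +
      2247994773268974272512 / 244140625 * s ^ 7 := by
    positivity
  have e :
      2927397442638521040896 / 244140625 * t ^ 7 +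
      13605128677796293378048 / 244140625 * s * t ^ 6 +
      38668407571166309384192 / 244140625 * s ^ 2 * t ^ 5 +
      15887337987032840404992 / 48828125 * s ^ 3 * t ^ 4 +
      20138125354761847832576 / 48828125 * s ^ 4 * t ^ 3 +
      69531811676944645226496 / 244140625 * s ^ 5 * t ^ 2 +
      22535192223185683611648 / 244140625 * s ^ 6 * t +
      2247994773268974272512 / 244140625 * s ^ 7 =
      (101 / 100 - x ^ 2) *
      (x - ((125939688681 / 64000000) + (-(600881117 / 100000)) * x +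
      (19116856 / 3125) * x ^ 2 + (-(6488064 / 3125)) * x ^ 3) -
      ((-(600881117 / 100000)) + 2 * (19116856 / 3125) * x +
      3 * (-(6488064 / 3125)) * x ^ 2) * (2 - x)) -
      ((125939688681 / 64000000) + (-(600881117 / 100000)) * x +
      (19116856 / 3125) * x ^ 2 + (-(6488064 / 3125)) * x ^ 3) ^ 2 * (2 - x) := by
    rw [hs, ht]
    ring
  rw [e] at h
  linarith

theorem cre_a_9_q_0 (x : ℝ) (h1 : 253 / 256 ≤ x) (h2 : x ≤ 127 / 128) :
    0 ≤
      (x - ((125939688681 / 64000000) + (-(600881117 / 100000)) * x +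
      (19116856 / 3125) * x ^ 2 + (-(6488064 / 3125)) * x ^ 3) -
      ((-(600881117 / 100000)) + 2 * (19116856 / 3125) * x +
      3 * (-(6488064 / 3125)) * x ^ 2) * (2 - x)) := by
  obtain ⟨s, hs⟩ : ∃ s, s = x - 253 / 256 := ⟨_, rfl⟩
  obtain ⟨t, ht⟩ : ∃ t, t = 127 / 128 - x := ⟨_, rfl⟩
  have hs0 : 0 ≤ s := by linarith
  have ht0 : 0 ≤ t := by linarith
  have h : 0 ≤
      415473158144 / 15625 * t ^ 3 + 1326504364032 / 15625 * s * t ^ 2 +
      1431642755072 / 15625 * s ^ 2 * t + 520546668544 / 15625 * s ^ 3 := by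
    positivity
  have e :
      415473158144 / 15625 * t ^ 3 + 1326504364032 / 15625 * s * t ^ 2 +
      1431642755072 / 15625 * s ^ 2 * t + 520546668544 / 15625 * s ^ 3 =
      (x - ((125939688681 / 64000000) + (-(600881117 / 100000)) * x +
      (19116856 / 3125) * x ^ 2 + (-(6488064 / 3125)) * x ^ 3) -
      ((-(600881117 / 100000)) + 2 * (19116856 / 3125) * x +
      3 * (-(6488064 / 3125)) * x ^ 2) * (2 - x)) -
      0 := by
    rw [hs, ht]
    ring
  rw [e] at h
  linarith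

theorem cre_a_10_p_0 (x : ℝ) (h1 : 127 / 128 ≤ x) (h2 : x ≤ 509 / 512) :
    ((311021705613 / 64000000) + (-(1475016021 / 100000)) * x +
      (233201064 / 15625) * x ^ 2 + (-(78659584 / 15625)) * x ^ 3) ^ 2 * (2 - x) ≤
      (101 / 100 - x ^ 2) *
      (x - ((311021705613 / 64000000) + (-(1475016021 / 100000)) * x +
      (233201064 / 15625) * x ^ 2 + (-(78659584 / 15625)) * x ^ 3) -
      ((-(1475016021 / 100000)) + 2 * (233201064 / 15625) * x +
      3 * (-(78659584 / 15625)) * x ^ 2) * (2 - x)) := by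
  obtain ⟨s, hs⟩ : ∃ s, s = x - 127 / 128 := ⟨_, rfl⟩
  obtain ⟨t, ht⟩ : ∃ t, t = 509 / 512 - x := ⟨_, rfl⟩
  have hs0 : 0 ≤ s := by linarith
  have ht0 : 0 ≤ t := by linarith
  have h : 0 ≤
      287743330978428706881536 / 244140625 * t ^ 7 +
      966185833295905246150656 / 244140625 * s * t ^ 6 +
      1210345361677386103390208 / 244140625 * s ^ 2 * t ^ 5 +
      1154151219988757926117376 / 244140625 * s ^ 3 * t ^ 4 +
      1765420256250487799545856 / 244140625 * s ^ 4 * t ^ 3 +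
      2024592344720241420402688 / 244140625 * s ^ 5 * t ^ 2 +
      1100710557760852773044224 / 244140625 * s ^ 6 * t +
      43858022969916189048832 / 48828125 * s ^ 7 := by
    positivity
  have e :
      287743330978428706881536 / 244140625 * t ^ 7 +
      966185833295905246150656 / 244140625 * s * t ^ 6 +
      1210345361677386103390208 / 244140625 * s ^ 2 * t ^ 5 +
      1154151219988757926117376 / 244140625 * s ^ 3 * t ^ 4 +
      1765420256250487799545856 / 244140625 * s ^ 4 * t ^ 3 +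
      2024592344720241420402688 / 244140625 * s ^ 5 * t ^ 2 +
      1100710557760852773044224 / 244140625 * s ^ 6 * t +
      43858022969916189048832 / 48828125 * s ^ 7 =
      (101 / 100 - x ^ 2) *
      (x - ((311021705613 / 64000000) + (-(1475016021 / 100000)) * x +
      (233201064 / 15625) * x ^ 2 + (-(78659584 / 15625)) * x ^ 3) -
      ((-(1475016021 / 100000)) + 2 * (233201064 / 15625) * x +
      3 * (-(78659584 / 15625)) * x ^ 2) * (2 - x)) -
      ((311021705613 / 64000000) + (-(1475016021 / 100000)) * x +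
      (233201064 / 15625) * x ^ 2 + (-(78659584 / 15625)) * x ^ 3) ^ 2 * (2 - x) := by
    rw [hs, ht]
    ring
  rw [e] at h
  linarith

theorem cre_a_10_p_1 (x : ℝ) (h1 : 509 / 512 ≤ x) (h2 : x ≤ 255 / 256) :
    ((311021705613 / 64000000) + (-(1475016021 / 100000)) * x +
      (233201064 / 15625) * x ^ 2 + (-(78659584 / 15625)) * x ^ 3) ^ 2 * (2 - x) ≤
      (101 / 100 - x ^ 2) *
      (x - ((311021705613 / 64000000) + (-(1475016021 / 100000)) * x +
      (233201064 / 15625) * x ^ 2 + (-(78659584 / 15625)) * x ^ 3) -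
      ((-(1475016021 / 100000)) + 2 * (233201064 / 15625) * x +
      3 * (-(78659584 / 15625)) * x ^ 2) * (2 - x)) := by
  obtain ⟨s, hs⟩ : ∃ s, s = x - 509 / 512 := ⟨_, rfl⟩
  obtain ⟨t, ht⟩ : ∃ t, t = 255 / 256 - x := ⟨_, rfl⟩
  have hs0 : 0 ≤ s := by linarith
  have ht0 : 0 ≤ t := by linarith
  have h : 0 ≤
      43858022969916189048832 / 48828125 * t ^ 7 +
      1969351050133280460374016 / 244140625 * s * t ^ 6 +
      1447287059790961508876288 / 48828125 * s ^ 2 * t ^ 5 +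
      13839101883183424690192384 / 244140625 * s ^ 3 * t ^ 4 +
      14703258032823397995511808 / 244140625 * s ^ 4 * t ^ 3 +
      8504286702176497569890304 / 244140625 * s ^ 5 * t ^ 2 +
      2354102766583691037638656 / 244140625 * s ^ 6 * t +
      200346583905604957372416 / 244140625 * s ^ 7 := by
    positivity
  have e :
      43858022969916189048832 / 48828125 * t ^ 7 +
      1969351050133280460374016 / 244140625 * s * t ^ 6 +
      1447287059790961508876288 / 48828125 * s ^ 2 * t ^ 5 +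
      13839101883183424690192384 / 244140625 * s ^ 3 * t ^ 4 +
      14703258032823397995511808 / 244140625 * s ^ 4 * t ^ 3 +
      8504286702176497569890304 / 244140625 * s ^ 5 * t ^ 2 +
      2354102766583691037638656 / 244140625 * s ^ 6 * t +
      200346583905604957372416 / 244140625 * s ^ 7 =
      (101 / 100 - x ^ 2) *
      (x - ((311021705613 / 64000000) + (-(1475016021 / 100000)) * x +
      (233201064 / 15625) * x ^ 2 + (-(78659584 / 15625)) * x ^ 3) -
      ((-(1475016021 / 100000)) + 2 * (233201064 / 15625) * x +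
      3 * (-(78659584 / 15625)) * x ^ 2) * (2 - x)) -
      ((311021705613 / 64000000) + (-(1475016021 / 100000)) * x +
      (233201064 / 15625) * x ^ 2 + (-(78659584 / 15625)) * x ^ 3) ^ 2 * (2 - x) := by
    rw [hs, ht]
    ring
  rw [e] at h
  linarith

theorem cre_a_10_q_0 (x : ℝ) (h1 : 127 / 128 ≤ x) (h2 : x ≤ 255 / 256) :
    0 ≤
      (x - ((311021705613 / 64000000) + (-(1475016021 / 100000)) * x +
      (233201064 / 15625) * x ^ 2 + (-(78659584 / 15625)) * x ^ 3) -
      ((-(1475016021 / 100000)) + 2 * (233201064 / 15625) * x +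
      3 * (-(78659584 / 15625)) * x ^ 2) * (2 - x)) := by
  obtain ⟨s, hs⟩ : ∃ s, s = x - 127 / 128 := ⟨_, rfl⟩
  obtain ⟨t, ht⟩ : ∃ t, t = 255 / 256 - x := ⟨_, rfl⟩
  have hs0 : 0 ≤ s := by linarith
  have ht0 : 0 ≤ t := by linarith
  have h : 0 ≤
      520546668544 / 15625 * t ^ 3 + 1686055407616 / 15625 * s * t ^ 2 +
      1871114196992 / 15625 * s ^ 2 * t + 705448138752 / 15625 * s ^ 3 := by
    positivity
  have e :
      520546668544 / 15625 * t ^ 3 + 1686055407616 / 15625 * s * t ^ 2 +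
      1871114196992 / 15625 * s ^ 2 * t + 705448138752 / 15625 * s ^ 3 =
      (x - ((311021705613 / 64000000) + (-(1475016021 / 100000)) * x +
      (233201064 / 15625) * x ^ 2 + (-(78659584 / 15625)) * x ^ 3) -
      ((-(1475016021 / 100000)) + 2 * (233201064 / 15625) * x +
      3 * (-(78659584 / 15625)) * x ^ 2) * (2 - x)) -
      0 := by
    rw [hs, ht]
    ring
  rw [e] at h
  linarith

theorem cre_a_11_p_0 (x : ℝ) (h1 : 255 / 256 ≤ x) (h2 : x ≤ 511 / 512) :
    ((1511838683601 / 128000000) + (-(3568829691 / 100000)) * x +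
      (561670304 / 15625) * x ^ 2 + (-(188588032 / 15625)) * x ^ 3) ^ 2 * (2 - x) ≤
      (101 / 100 - x ^ 2) *
      (x - ((1511838683601 / 128000000) + (-(3568829691 / 100000)) * x +
      (561670304 / 15625) * x ^ 2 + (-(188588032 / 15625)) * x ^ 3) -
      ((-(3568829691 / 100000)) + 2 * (561670304 / 15625) * x +
      3 * (-(188588032 / 15625)) * x ^ 2) * (2 - x)) := by
  obtain ⟨s, hs⟩ : ∃ s, s = x - 255 / 256 := ⟨_, rfl⟩
  obtain ⟨t, ht⟩ : ∃ t, t = 511 / 512 - x := ⟨_, rfl⟩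
  have hs0 : 0 ≤ s := by linarith
  have ht0 : 0 ≤ t := by linarith
  have h : 0 ≤
      200346583905604957372416 / 244140625 * t ^ 7 +
      731169031400728368775168 / 244140625 * s * t ^ 6 +
      1951088203413662776426496 / 244140625 * s ^ 2 * t ^ 5 +
      4657988721543032149639168 / 244140625 * s ^ 3 * t ^ 4 +
      1346112530176073996959744 / 48828125 * s ^ 4 * t ^ 3 +
      998839776607283575783424 / 48828125 * s ^ 5 * t ^ 2 +
      13262350933962551984128 / 1953125 * s ^ 6 * t + 6257388181208965316608 / 9765625 * s ^ 7 := by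
    positivity
  have e :
      200346583905604957372416 / 244140625 * t ^ 7 +
      731169031400728368775168 / 244140625 * s * t ^ 6 +
      1951088203413662776426496 / 244140625 * s ^ 2 * t ^ 5 +
      4657988721543032149639168 / 244140625 * s ^ 3 * t ^ 4 +
      1346112530176073996959744 / 48828125 * s ^ 4 * t ^ 3 +
      998839776607283575783424 / 48828125 * s ^ 5 * t ^ 2 +
      13262350933962551984128 / 1953125 * s ^ 6 * t + 6257388181208965316608 / 9765625 * s ^ 7 =
      (101 / 100 - x ^ 2) *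
      (x - ((1511838683601 / 128000000) + (-(3568829691 / 100000)) * x +
      (561670304 / 15625) * x ^ 2 + (-(188588032 / 15625)) * x ^ 3) -
      ((-(3568829691 / 100000)) + 2 * (561670304 / 15625) * x +
      3 * (-(188588032 / 15625)) * x ^ 2) * (2 - x)) -
      ((1511838683601 / 128000000) + (-(3568829691 / 100000)) * x +
      (561670304 / 15625) * x ^ 2 + (-(188588032 / 15625)) * x ^ 3) ^ 2 * (2 - x) := by
    rw [hs, ht]
    ring
  rw [e] at h
  linarith

theorem cre_a_11_q_0 (x : ℝ) (h1 : 255 / 256 ≤ x) (h2 : x ≤ 511 / 512) :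
    0 ≤
      (x - ((1511838683601 / 128000000) + (-(3568829691 / 100000)) * x +
      (561670304 / 15625) * x ^ 2 + (-(188588032 / 15625)) * x ^ 3) -
      ((-(3568829691 / 100000)) + 2 * (561670304 / 15625) * x +
      3 * (-(188588032 / 15625)) * x ^ 2) * (2 - x)) := by
  obtain ⟨s, hs⟩ : ∃ s, s = x - 255 / 256 := ⟨_, rfl⟩
  obtain ⟨t, ht⟩ : ∃ t, t = 511 / 512 - x := ⟨_, rfl⟩
  have hs0 : 0 ≤ s := by linarith
  have ht0 : 0 ≤ t := by linarith
  have h : 0 ≤
      5643585110016 / 15625 * t ^ 3 + 17926350454784 / 15625 * s * t ^ 2 +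
      19211783831552 / 15625 * s ^ 2 * t + 1385728262144 / 3125 * s ^ 3 := by
    positivity
  have e :
      5643585110016 / 15625 * t ^ 3 + 17926350454784 / 15625 * s * t ^ 2 +
      19211783831552 / 15625 * s ^ 2 * t + 1385728262144 / 3125 * s ^ 3 =
      (x - ((1511838683601 / 128000000) + (-(3568829691 / 100000)) * x +
      (561670304 / 15625) * x ^ 2 + (-(188588032 / 15625)) * x ^ 3) -
      ((-(3568829691 / 100000)) + 2 * (561670304 / 15625) * x +
      3 * (-(188588032 / 15625)) * x ^ 2) * (2 - x)) -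
      0 := by
    rw [hs, ht]
    ring
  rw [e] at h
  linarith

theorem cre_a_12_p_0 (x : ℝ) (h1 : 511 / 512 ≤ x) (h2 : x ≤ 2045 / 2048) :
    ((2667799861 / 100000) + (-(40184560521 / 500000)) * x +
      (1261068992 / 15625) * x ^ 2 + (-(422141952 / 15625)) * x ^ 3) ^ 2 * (2 - x) ≤
      (101 / 100 - x ^ 2) *
      (x - ((2667799861 / 100000) + (-(40184560521 / 500000)) * x +
      (1261068992 / 15625) * x ^ 2 + (-(422141952 / 15625)) * x ^ 3) -
      ((-(40184560521 / 500000)) + 2 * (1261068992 / 15625) * x +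
      3 * (-(422141952 / 15625)) * x ^ 2) * (2 - x)) := by
  obtain ⟨s, hs⟩ : ∃ s, s = x - 511 / 512 := ⟨_, rfl⟩
  obtain ⟨t, ht⟩ : ∃ t, t = 2045 / 2048 - x := ⟨_, rfl⟩
  have hs0 : 0 ≤ s := by linarith
  have ht0 : 0 ≤ t := by linarith
  have h : 0 ≤
      102521047960927687747305472 / 9765625 * t ^ 7 +
      98004073464764347415789568 / 1953125 * s * t ^ 6 +
      4735828902233567671472881664 / 48828125 * s ^ 2 * t ^ 5 +
      4737996937277161223420379136 / 48828125 * s ^ 3 * t ^ 4 +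
      13272437218342680814401093632 / 244140625 * s ^ 4 * t ^ 3 +
      4534751080289182913518370816 / 244140625 * s ^ 5 * t ^ 2 +
      235655607995328694182739968 / 48828125 * s ^ 6 * t +
      8705640756721048256249856 / 9765625 * s ^ 7 := by
    positivity
  have e :
      102521047960927687747305472 / 9765625 * t ^ 7 +
      98004073464764347415789568 / 1953125 * s * t ^ 6 +
      4735828902233567671472881664 / 48828125 * s ^ 2 * t ^ 5 +
      4737996937277161223420379136 / 48828125 * s ^ 3 * t ^ 4 +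
      13272437218342680814401093632 / 244140625 * s ^ 4 * t ^ 3 +
      4534751080289182913518370816 / 244140625 * s ^ 5 * t ^ 2 +
      235655607995328694182739968 / 48828125 * s ^ 6 * t +
      8705640756721048256249856 / 9765625 * s ^ 7 =
      (101 / 100 - x ^ 2) *
      (x - ((2667799861 / 100000) + (-(40184560521 / 500000)) * x +
      (1261068992 / 15625) * x ^ 2 + (-(422141952 / 15625)) * x ^ 3) -
      ((-(40184560521 / 500000)) + 2 * (1261068992 / 15625) * x +
      3 * (-(422141952 / 15625)) * x ^ 2) * (2 - x)) -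
      ((2667799861 / 100000) + (-(40184560521 / 500000)) * x +
      (1261068992 / 15625) * x ^ 2 + (-(422141952 / 15625)) * x ^ 3) ^ 2 * (2 - x) := by
    rw [hs, ht]
    ring
  rw [e] at h
  linarith

theorem cre_a_12_p_1 (x : ℝ) (h1 : 2045 / 2048 ≤ x) (h2 : x ≤ 1023 / 1024) :
    ((2667799861 / 100000) + (-(40184560521 / 500000)) * x +
      (1261068992 / 15625) * x ^ 2 + (-(422141952 / 15625)) * x ^ 3) ^ 2 * (2 - x) ≤
      (101 / 100 - x ^ 2) *
      (x - ((2667799861 / 100000) + (-(40184560521 / 500000)) * x +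
      (1261068992 / 15625) * x ^ 2 + (-(422141952 / 15625)) * x ^ 3) -
      ((-(40184560521 / 500000)) + 2 * (1261068992 / 15625) * x +
      3 * (-(422141952 / 15625)) * x ^ 2) * (2 - x)) := by
  obtain ⟨s, hs⟩ : ∃ s, s = x - 2045 / 2048 := ⟨_, rfl⟩
  obtain ⟨t, ht⟩ : ∃ t, t = 1023 / 1024 - x := ⟨_, rfl⟩
  have hs0 : 0 ≤ s := by linarith
  have ht0 : 0 ≤ t := by linarith
  have h : 0 ≤
      8705640756721048256249856 / 9765625 * t ^ 7 +
      373739244975144683754749952 / 48828125 * s * t ^ 6 +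
      8677260189683662600678670336 / 244140625 * s ^ 2 * t ^ 5 +
      22317876482997877859709616128 / 244140625 * s ^ 3 * t ^ 4 +
      32255014349043396383933988864 / 244140625 * s ^ 4 * t ^ 3 +
      26170391908576469566800003072 / 244140625 * s ^ 5 * t ^ 2 +
      11149635610982904477941497856 / 244140625 * s ^ 6 * t +
      77703462094244906052616192 / 9765625 * s ^ 7 := by
    positivity
  have e :
      8705640756721048256249856 / 9765625 * t ^ 7 +
      373739244975144683754749952 / 48828125 * s * t ^ 6 +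
      8677260189683662600678670336 / 244140625 * s ^ 2 * t ^ 5 +
      22317876482997877859709616128 / 244140625 * s ^ 3 * t ^ 4 +
      32255014349043396383933988864 / 244140625 * s ^ 4 * t ^ 3 +
      26170391908576469566800003072 / 244140625 * s ^ 5 * t ^ 2 +
      11149635610982904477941497856 / 244140625 * s ^ 6 * t +
      77703462094244906052616192 / 9765625 * s ^ 7 =
      (101 / 100 - x ^ 2) *
      (x - ((2667799861 / 100000) + (-(40184560521 / 500000)) * x +
      (1261068992 / 15625) * x ^ 2 + (-(422141952 / 15625)) * x ^ 3) -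
      ((-(40184560521 / 500000)) + 2 * (1261068992 / 15625) * x +
      3 * (-(422141952 / 15625)) * x ^ 2) * (2 - x)) -
      ((2667799861 / 100000) + (-(40184560521 / 500000)) * x +
      (1261068992 / 15625) * x ^ 2 + (-(422141952 / 15625)) * x ^ 3) ^ 2 * (2 - x) := by
    rw [hs, ht]
    ring
  rw [e] at h
  linarith

theorem cre_a_12_p_2 (x : ℝ) (h1 : 1023 / 1024 ≤ x) (h2 : x ≤ 1) :
    ((2667799861 / 100000) + (-(40184560521 / 500000)) * x +
      (1261068992 / 15625) * x ^ 2 + (-(422141952 / 15625)) * x ^ 3) ^ 2 * (2 - x) ≤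
      (101 / 100 - x ^ 2) *
      (x - ((2667799861 / 100000) + (-(40184560521 / 500000)) * x +
      (1261068992 / 15625) * x ^ 2 + (-(422141952 / 15625)) * x ^ 3) -
      ((-(40184560521 / 500000)) + 2 * (1261068992 / 15625) * x +
      3 * (-(422141952 / 15625)) * x ^ 2) * (2 - x)) := by
  obtain ⟨s, hs⟩ : ∃ s, s = x - 1023 / 1024 := ⟨_, rfl⟩
  obtain ⟨t, ht⟩ : ∃ t, t = 1 - x := ⟨_, rfl⟩
  have hs0 : 0 ≤ s := by linarith
  have ht0 : 0 ≤ t := by linarith
  have h : 0 ≤
      607058297611288328536064 / 9765625 * t ^ 7 +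
      144492549824318490013597696 / 244140625 * s * t ^ 6 +
      550340187767410141874356224 / 244140625 * s ^ 2 * t ^ 5 +
      1074422474479630463948292096 / 244140625 * s ^ 3 * t ^ 4 +
      1152907416995311853500366848 / 244140625 * s ^ 4 * t ^ 3 +
      666903062050727430669205504 / 244140625 * s ^ 5 * t ^ 2 +
      181792749964038823030554624 / 244140625 * s ^ 6 * t +
      14398725990570469625954304 / 244140625 * s ^ 7 := by
    positivity
  have e :
      607058297611288328536064 / 9765625 * t ^ 7 +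
      144492549824318490013597696 / 244140625 * s * t ^ 6 +
      550340187767410141874356224 / 244140625 * s ^ 2 * t ^ 5 +
      1074422474479630463948292096 / 244140625 * s ^ 3 * t ^ 4 +
      1152907416995311853500366848 / 244140625 * s ^ 4 * t ^ 3 +
      666903062050727430669205504 / 244140625 * s ^ 5 * t ^ 2 +
      181792749964038823030554624 / 244140625 * s ^ 6 * t +
      14398725990570469625954304 / 244140625 * s ^ 7 =
      (101 / 100 - x ^ 2) *
      (x - ((2667799861 / 100000) + (-(40184560521 / 500000)) * x +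
      (1261068992 / 15625) * x ^ 2 + (-(422141952 / 15625)) * x ^ 3) -
      ((-(40184560521 / 500000)) + 2 * (1261068992 / 15625) * x +
      3 * (-(422141952 / 15625)) * x ^ 2) * (2 - x)) -
      ((2667799861 / 100000) + (-(40184560521 / 500000)) * x +
      (1261068992 / 15625) * x ^ 2 + (-(422141952 / 15625)) * x ^ 3) ^ 2 * (2 - x) := by
    rw [hs, ht]
    ring
  rw [e] at h
  linarith

theorem cre_a_12_q_0 (x : ℝ) (h1 : 511 / 512 ≤ x) (h2 : x ≤ 1) :
    0 ≤
      (x - ((2667799861 / 100000) + (-(40184560521 / 500000)) * x +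
      (1261068992 / 15625) * x ^ 2 + (-(422141952 / 15625)) * x ^ 3) -
      ((-(40184560521 / 500000)) + 2 * (1261068992 / 15625) * x +
      3 * (-(422141952 / 15625)) * x ^ 2) * (2 - x)) := by
  obtain ⟨s, hs⟩ : ∃ s, s = x - 511 / 512 := ⟨_, rfl⟩
  obtain ⟨t, ht⟩ : ∃ t, t = 1 - x := ⟨_, rfl⟩
  have hs0 : 0 ≤ s := by linarith
  have ht0 : 0 ≤ t := by linarith
  have h : 0 ≤
      1385728262144 / 3125 * t ^ 3 + 22304691945472 / 15625 * s * t ^ 2 +
      978866405376 / 625 * s ^ 2 * t + 9094765215744 / 15625 * s ^ 3 := by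
    positivity
  have e :
      1385728262144 / 3125 * t ^ 3 + 22304691945472 / 15625 * s * t ^ 2 +
      978866405376 / 625 * s ^ 2 * t + 9094765215744 / 15625 * s ^ 3 =
      (x - ((2667799861 / 100000) + (-(40184560521 / 500000)) * x +
      (1261068992 / 15625) * x ^ 2 + (-(422141952 / 15625)) * x ^ 3) -
      ((-(40184560521 / 500000)) + 2 * (1261068992 / 15625) * x +
      3 * (-(422141952 / 15625)) * x ^ 2) * (2 - x)) -
      0 := by
    rw [hs, ht]
    ring
  rw [e] at h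
  linarith

/-- the pair `(101 / 100, 119 / 100)` -/
theorem cre_a : Cre (101 / 100) (119 / 100) := by
  have h0 := Up.zero (101 / 100)
  have h1 : Up (101 / 100) (1 / 2) (33701 / 500000) := by
    have h := h0.step (β := 1 / 2) (a := (0))
      (b := (0)) (c := (31123 / 125000))
      (d := (1289 / 31250)) (by norm_num) (by norm_num) (by norm_num) (by norm_num)
      (fun x i0 i1 => by
      exact cre_a_0_p_0 x (by linarith) (by linarith))
      (fun x i0 i1 => by
      exact cre_a_0_q_0 x (by linarith) (by linarith))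
    norm_num at h ⊢
    exact h
  have h2 : Up (101 / 100) (3 / 4) (38917 / 250000) := by
    have h := h1.step (β := 3 / 4) (a := (2653 / 100000))
      (b := (-(9439 / 62500))) (c := (1671 / 3125))
      (d := (-(2162 / 15625))) (by norm_num) (by norm_num) (by norm_num) (by norm_num)
      (fun x i0 i1 => by
      exact cre_a_1_p_0 x (by linarith) (by linarith))
      (fun x i0 i1 => by
      exact cre_a_1_q_0 x (by linarith) (by linarith))
    norm_num at h ⊢
    exact h
  have h3 : Up (101 / 100) (7 / 8) (52223 / 250000) := by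
    have h := h2.step (β := 7 / 8) (a := (331379 / 500000))
      (b := (-(333113 / 125000))) (c := (60081 / 15625))
      (d := (-(24864 / 15625))) (by norm_num) (by norm_num) (by norm_num) (by norm_num)
      (fun x i0 i1 => by
      exact cre_a_2_p_0 x (by linarith) (by linarith))
      (fun x i0 i1 => by
      exact cre_a_2_q_0 x (by linarith) (by linarith))
    norm_num at h ⊢
    exact h
  have h4 : Up (101 / 100) (15 / 16) (230943 / 1000000) := by
    have h := h3.step (β := 15 / 16) (a := (3532059 / 500000))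
      (b := (-(122543 / 5000))) (c := (448293 / 15625))
      (d := (-(172048 / 15625))) (by norm_num) (by norm_num) (by norm_num) (by norm_num)
      (fun x i0 i1 => by
      rcases le_total x (29 / 32) with i2 | i2
      · exact cre_a_3_p_0 x (by linarith) i2
      exact cre_a_3_p_1 x (by linarith) (by linarith))
      (fun x i0 i1 => by
      exact cre_a_3_q_0 x (by linarith) (by linarith))
    norm_num at h ⊢
    exact h
  have h5 : Up (101 / 100) (61 / 64) (117057 / 500000) := by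
    have h := h4.step (β := 61 / 64) (a := (127064997 / 4000000))
      (b := (-(5192279 / 50000))) (c := (1775412 / 15625))
      (d := (-(645632 / 15625))) (by norm_num) (by norm_num) (by norm_num) (by norm_num)
      (fun x i0 i1 => by
      exact cre_a_4_p_0 x (by linarith) (by linarith))
      (fun x i0 i1 => by
      exact cre_a_4_q_0 x (by linarith) (by linarith))
    norm_num at h ⊢
    exact h
  have h6 : Up (101 / 100) (31 / 32) (58727 / 250000) := by
    have h := h5.step (β := 31 / 32) (a := (81477879 / 1000000))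
      (b := (-(32514819 / 125000))) (c := (4334044 / 15625))
      (d := (-(1539328 / 15625))) (by norm_num) (by norm_num) (by norm_num) (by norm_num)
      (fun x i0 i1 => by
      exact cre_a_5_p_0 x (by linarith) (by linarith))
      (fun x i0 i1 => by
      exact cre_a_5_q_0 x (by linarith) (by linarith))
    norm_num at h ⊢
    exact h
  have h7 : Up (101 / 100) (125 / 128) (233737 / 1000000) := by
    have h := h6.step (β := 125 / 128) (a := (801401823 / 4000000))
      (b := (-(15710063 / 25000))) (c := (10276728 / 15625))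
      (d := (-(3585024 / 15625))) (by norm_num) (by norm_num) (by norm_num) (by norm_num)
      (fun x i0 i1 => by
      exact cre_a_6_p_0 x (by linarith) (by linarith))
      (fun x i0 i1 => by
      exact cre_a_6_q_0 x (by linarith) (by linarith))
    norm_num at h ⊢
    exact h
  have h8 : Up (101 / 100) (63 / 64) (115347 / 500000) := by
    have h := h7.step (β := 63 / 64) (a := (14577636459 / 32000000))
      (b := (-(141195977 / 100000))) (c := (22806936 / 15625))
      (d := (-(7859712 / 15625))) (by norm_num) (by norm_num) (by norm_num) (by norm_num)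
      (fun x i0 i1 => by
      exact cre_a_7_p_0 x (by linarith) (by linarith))
      (fun x i0 i1 => by
      exact cre_a_7_q_0 x (by linarith) (by linarith))
    norm_num at h ⊢
    exact h
  have h9 : Up (101 / 100) (253 / 256) (228039 / 1000000) := by
    have h := h8.step (β := 253 / 256) (a := (32097183483 / 32000000))
      (b := (-(308089277 / 100000))) (c := (9860872 / 3125))
      (d := (-(3366912 / 3125))) (by norm_num) (by norm_num) (by norm_num) (by norm_num)
      (fun x i0 i1 => by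
      exact cre_a_8_p_0 x (by linarith) (by linarith))
      (fun x i0 i1 => by
      exact cre_a_8_q_0 x (by linarith) (by linarith))
    norm_num at h ⊢
    exact h
  have h10 : Up (101 / 100) (127 / 128) (224149 / 1000000) := by
    have h := h9.step (β := 127 / 128) (a := (125939688681 / 64000000))
      (b := (-(600881117 / 100000))) (c := (19116856 / 3125))
      (d := (-(6488064 / 3125))) (by norm_num) (by norm_num) (by norm_num) (by norm_num)
      (fun x i0 i1 => by
      exact cre_a_9_p_0 x (by linarith) (by linarith))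
      (fun x i0 i1 => by
      exact cre_a_9_q_0 x (by linarith) (by linarith))
    norm_num at h ⊢
    exact h
  have h11 : Up (101 / 100) (255 / 256) (218217 / 1000000) := by
    have h := h10.step (β := 255 / 256) (a := (311021705613 / 64000000))
      (b := (-(1475016021 / 100000))) (c := (233201064 / 15625))
      (d := (-(78659584 / 15625))) (by norm_num) (by norm_num) (by norm_num) (by norm_num)
      (fun x i0 i1 => by
      rcases le_total x (509 / 512) with i2 | i2
      · exact cre_a_10_p_0 x (by linarith) i2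
      exact cre_a_10_p_1 x (by linarith) (by linarith))
      (fun x i0 i1 => by
      exact cre_a_10_q_0 x (by linarith) (by linarith))
    norm_num at h ⊢
    exact h
  have h12 : Up (101 / 100) (511 / 512) (42789 / 200000) := by
    have h := h11.step (β := 511 / 512) (a := (1511838683601 / 128000000))
      (b := (-(3568829691 / 100000))) (c := (561670304 / 15625))
      (d := (-(188588032 / 15625))) (by norm_num) (by norm_num) (by norm_num) (by norm_num)
      (fun x i0 i1 => by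
      exact cre_a_11_p_0 x (by linarith) (by linarith))
      (fun x i0 i1 => by
      exact cre_a_11_q_0 x (by linarith) (by linarith))
    norm_num at h ⊢
    exact h
  have h13 : Up (101 / 100) (1) (3252 / 15625) := by
    have h := h12.step (β := 1) (a := (2667799861 / 100000))
      (b := (-(40184560521 / 500000))) (c := (1261068992 / 15625))
      (d := (-(422141952 / 15625))) (by norm_num) (by norm_num) (by norm_num) (by norm_num)
      (fun x i0 i1 => by
      rcases le_total x (2045 / 2048) with i2 | i2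
      · exact cre_a_12_p_0 x (by linarith) i2
      rcases le_total x (1023 / 1024) with i2 | i2
      · exact cre_a_12_p_1 x (by linarith) i2
      exact cre_a_12_p_2 x (by linarith) (by linarith))
      (fun x i0 i1 => by
      exact cre_a_12_q_0 x (by linarith) (by linarith))
    norm_num at h ⊢
    exact h
  exact Up.cre (by simpa using h13) (by norm_num)

theorem cre_a2_0_p_0 (x : ℝ) (h1 : 0 ≤ x) (h2 : x ≤ 1 / 2) :
    ((0) + (0) * x +
      (62229 / 250000) * x ^ 2 + (5179 / 125000) * x ^ 3) ^ 2 * (2 - x) ≤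
      (51 / 50 - x ^ 2) *
      (x - ((0) + (0) * x +
      (62229 / 250000) * x ^ 2 + (5179 / 125000) * x ^ 3) -
      ((0) + 2 * (62229 / 250000) * x +
      3 * (5179 / 125000) * x ^ 2) * (2 - x)) := by
  obtain ⟨s, hs⟩ : ∃ s, s = x - 0 := ⟨_, rfl⟩
  obtain ⟨t, ht⟩ : ∃ t, t = 1 / 2 - x := ⟨_, rfl⟩
  have hs0 : 0 ≤ s := by linarith
  have ht0 : 0 ≤ t := by linarith
  have h : 0 ≤
      110568 / 390625 * s * t ^ 6 + 667539 / 390625 * s ^ 2 * t ^ 5 +
      2180333 / 390625 * s ^ 3 * t ^ 4 + 38690446559 / 3906250000 * s ^ 4 * t ^ 3 +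
      137795415221 / 15625000000 * s ^ 5 * t ^ 2 + 839446118 / 244140625 * s ^ 6 * t +
      180727019 / 488281250 * s ^ 7 := by
    positivity
  have e :
      110568 / 390625 * s * t ^ 6 + 667539 / 390625 * s ^ 2 * t ^ 5 +
      2180333 / 390625 * s ^ 3 * t ^ 4 + 38690446559 / 3906250000 * s ^ 4 * t ^ 3 +
      137795415221 / 15625000000 * s ^ 5 * t ^ 2 + 839446118 / 244140625 * s ^ 6 * t +
      180727019 / 488281250 * s ^ 7 =
      (51 / 50 - x ^ 2) *
      (x - ((0) + (0) * x +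
      (62229 / 250000) * x ^ 2 + (5179 / 125000) * x ^ 3) -
      ((0) + 2 * (62229 / 250000) * x +
      3 * (5179 / 125000) * x ^ 2) * (2 - x)) -
      ((0) + (0) * x +
      (62229 / 250000) * x ^ 2 + (5179 / 125000) * x ^ 3) ^ 2 * (2 - x) := by
    rw [hs, ht]
    ring
  rw [e] at h
  linarith

theorem cre_a2_0_q_0 (x : ℝ) (h1 : 0 ≤ x) (h2 : x ≤ 1 / 2) :
    0 ≤
      (x - ((0) + (0) * x +
      (62229 / 250000) * x ^ 2 + (5179 / 125000) * x ^ 3) -
      ((0) + 2 * (62229 / 250000) * x +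
      3 * (5179 / 125000) * x ^ 2) * (2 - x)) := by
  obtain ⟨s, hs⟩ : ∃ s, s = x - 0 := ⟨_, rfl⟩
  obtain ⟨t, ht⟩ : ∃ t, t = 1 / 2 - x := ⟨_, rfl⟩
  have hs0 : 0 ≤ s := by linarith
  have ht0 : 0 ≤ t := by linarith
  have h : 0 ≤
      271 / 15625 * s * t ^ 2 + 4417 / 125000 * s ^ 2 * t + 12607 / 125000 * s ^ 3 := by
    positivity
  have e :
      271 / 15625 * s * t ^ 2 + 4417 / 125000 * s ^ 2 * t + 12607 / 125000 * s ^ 3 =
      (x - ((0) + (0) * x +
      (62229 / 250000) * x ^ 2 + (5179 / 125000) * x ^ 3) -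
      ((0) + 2 * (62229 / 250000) * x +
      3 * (5179 / 125000) * x ^ 2) * (2 - x)) -
      0 := by
    rw [hs, ht]
    ring
  rw [e] at h
  linarith

theorem cre_a2_1_p_0 (x : ℝ) (h1 : 1 / 2 ≤ x) (h2 : x ≤ 3 / 4) :
    ((25563 / 1000000) + (-(14557 / 100000)) * x +
      (13111 / 25000) * x ^ 2 + (-(412 / 3125)) * x ^ 3) ^ 2 * (2 - x) ≤
      (51 / 50 - x ^ 2) *
      (x - ((25563 / 1000000) + (-(14557 / 100000)) * x +
      (13111 / 25000) * x ^ 2 + (-(412 / 3125)) * x ^ 3) -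
      ((-(14557 / 100000)) + 2 * (13111 / 25000) * x +
      3 * (-(412 / 3125)) * x ^ 2) * (2 - x)) := by
  obtain ⟨s, hs⟩ : ∃ s, s = x - 1 / 2 := ⟨_, rfl⟩
  obtain ⟨t, ht⟩ : ∃ t, t = 3 / 4 - x := ⟨_, rfl⟩
  have hs0 : 0 ≤ s := by linarith
  have ht0 : 0 ≤ t := by linarith
  have h : 0 ≤
      11566529216 / 244140625 * t ^ 7 + 31651045216 / 244140625 * s * t ^ 6 +
      31793182641 / 97656250 * s ^ 2 * t ^ 5 + 198569217043 / 195312500 * s ^ 3 * t ^ 4 +
      83552849053 / 48828125 * s ^ 4 * t ^ 3 + 1314591257999 / 976562500 * s ^ 5 * t ^ 2 +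
      108265180491 / 244140625 * s ^ 6 * t + 1714554831 / 48828125 * s ^ 7 := by
    positivity
  have e :
      11566529216 / 244140625 * t ^ 7 + 31651045216 / 244140625 * s * t ^ 6 +
      31793182641 / 97656250 * s ^ 2 * t ^ 5 + 198569217043 / 195312500 * s ^ 3 * t ^ 4 +
      83552849053 / 48828125 * s ^ 4 * t ^ 3 + 1314591257999 / 976562500 * s ^ 5 * t ^ 2 +
      108265180491 / 244140625 * s ^ 6 * t + 1714554831 / 48828125 * s ^ 7 =
      (51 / 50 - x ^ 2) *
      (x - ((25563 / 1000000) + (-(14557 / 100000)) * x +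
      (13111 / 25000) * x ^ 2 + (-(412 / 3125)) * x ^ 3) -
      ((-(14557 / 100000)) + 2 * (13111 / 25000) * x +
      3 * (-(412 / 3125)) * x ^ 2) * (2 - x)) -
      ((25563 / 1000000) + (-(14557 / 100000)) * x +
      (13111 / 25000) * x ^ 2 + (-(412 / 3125)) * x ^ 3) ^ 2 * (2 - x) := by
    rw [hs, ht]
    ring
  rw [e] at h
  linarith

theorem cre_a2_1_q_0 (x : ℝ) (h1 : 1 / 2 ≤ x) (h2 : x ≤ 3 / 4) :
    0 ≤
      (x - ((25563 / 1000000) + (-(14557 / 100000)) * x +
      (13111 / 25000) * x ^ 2 + (-(412 / 3125)) * x ^ 3) -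
      ((-(14557 / 100000)) + 2 * (13111 / 25000) * x +
      3 * (-(412 / 3125)) * x ^ 2) * (2 - x)) := by
  obtain ⟨s, hs⟩ : ∃ s, s = x - 1 / 2 := ⟨_, rfl⟩
  obtain ⟨t, ht⟩ : ∃ t, t = 3 / 4 - x := ⟨_, rfl⟩
  have hs0 : 0 ≤ s := by linarith
  have ht0 : 0 ≤ t := by linarith
  have h : 0 ≤
      12607 / 15625 * t ^ 3 + 42811 / 15625 * s * t ^ 2 + 210597 / 31250 * s ^ 2 * t +
      141949 / 31250 * s ^ 3 := by
    positivity
  have e :
      12607 / 15625 * t ^ 3 + 42811 / 15625 * s * t ^ 2 + 210597 / 31250 * s ^ 2 * t +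
      141949 / 31250 * s ^ 3 =
      (x - ((25563 / 1000000) + (-(14557 / 100000)) * x +
      (13111 / 25000) * x ^ 2 + (-(412 / 3125)) * x ^ 3) -
      ((-(14557 / 100000)) + 2 * (13111 / 25000) * x +
      3 * (-(412 / 3125)) * x ^ 2) * (2 - x)) -
      0 := by
    rw [hs, ht]
    ring
  rw [e] at h
  linarith

theorem cre_a2_2_p_0 (x : ℝ) (h1 : 3 / 4 ≤ x) (h2 : x ≤ 7 / 8) :
    ((1232871 / 2000000) + (-(1240883 / 500000)) * x +
      (112593 / 31250) * x ^ 2 + (-(23186 / 15625)) * x ^ 3) ^ 2 * (2 - x) ≤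
      (51 / 50 - x ^ 2) *
      (x - ((1232871 / 2000000) + (-(1240883 / 500000)) * x +
      (112593 / 31250) * x ^ 2 + (-(23186 / 15625)) * x ^ 3) -
      ((-(1240883 / 500000)) + 2 * (112593 / 31250) * x +
      3 * (-(23186 / 15625)) * x ^ 2) * (2 - x)) := by
  obtain ⟨s, hs⟩ : ∃ s, s = x - 3 / 4 := ⟨_, rfl⟩
  obtain ⟨t, ht⟩ : ∃ t, t = 7 / 8 - x := ⟨_, rfl⟩
  have hs0 : 0 ≤ s := by linarith
  have ht0 : 0 ≤ t := by linarith
  have h : 0 ≤
      219463018368 / 48828125 * t ^ 7 + 1928942512896 / 244140625 * s * t ^ 6 +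
      3689420368696 / 244140625 * s ^ 2 * t ^ 5 +
      18037349027612 / 244140625 * s ^ 3 * t ^ 4 + 7081790093808 / 48828125 * s ^ 4 * t ^ 3 +
      29049804854544 / 244140625 * s ^ 5 * t ^ 2 + 9460594708544 / 244140625 * s ^ 6 * t +
      640721833664 / 244140625 * s ^ 7 := by
    positivity
  have e :
      219463018368 / 48828125 * t ^ 7 + 1928942512896 / 244140625 * s * t ^ 6 +
      3689420368696 / 244140625 * s ^ 2 * t ^ 5 +
      18037349027612 / 244140625 * s ^ 3 * t ^ 4 + 7081790093808 / 48828125 * s ^ 4 * t ^ 3 +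
      29049804854544 / 244140625 * s ^ 5 * t ^ 2 + 9460594708544 / 244140625 * s ^ 6 * t +
      640721833664 / 244140625 * s ^ 7 =
      (51 / 50 - x ^ 2) *
      (x - ((1232871 / 2000000) + (-(1240883 / 500000)) * x +
      (112593 / 31250) * x ^ 2 + (-(23186 / 15625)) * x ^ 3) -
      ((-(1240883 / 500000)) + 2 * (112593 / 31250) * x +
      3 * (-(23186 / 15625)) * x ^ 2) * (2 - x)) -
      ((1232871 / 2000000) + (-(1240883 / 500000)) * x +
      (112593 / 31250) * x ^ 2 + (-(23186 / 15625)) * x ^ 3) ^ 2 * (2 - x) := by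
    rw [hs, ht]
    ring
  rw [e] at h
  linarith

theorem cre_a2_2_q_0 (x : ℝ) (h1 : 3 / 4 ≤ x) (h2 : x ≤ 7 / 8) :
    0 ≤
      (x - ((1232871 / 2000000) + (-(1240883 / 500000)) * x +
      (112593 / 31250) * x ^ 2 + (-(23186 / 15625)) * x ^ 3) -
      ((-(1240883 / 500000)) + 2 * (112593 / 31250) * x +
      3 * (-(23186 / 15625)) * x ^ 2) * (2 - x)) := by
  obtain ⟨s, hs⟩ : ∃ s, s = x - 3 / 4 := ⟨_, rfl⟩
  obtain ⟨t, ht⟩ : ∃ t, t = 7 / 8 - x := ⟨_, rfl⟩
  have hs0 : 0 ≤ s := by linarith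
  have ht0 : 0 ≤ t := by linarith
  have h : 0 ≤
      567796 / 15625 * t ^ 3 + 2042908 / 15625 * s * t ^ 2 + 3111032 / 15625 * s ^ 2 * t +
      1589548 / 15625 * s ^ 3 := by
    positivity
  have e :
      567796 / 15625 * t ^ 3 + 2042908 / 15625 * s * t ^ 2 + 3111032 / 15625 * s ^ 2 * t +
      1589548 / 15625 * s ^ 3 =
      (x - ((1232871 / 2000000) + (-(1240883 / 500000)) * x +
      (112593 / 31250) * x ^ 2 + (-(23186 / 15625)) * x ^ 3) -
      ((-(1240883 / 500000)) + 2 * (112593 / 31250) * x +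
      3 * (-(23186 / 15625)) * x ^ 2) * (2 - x)) -
      0 := by
    rw [hs, ht]
    ring
  rw [e] at h
  linarith

theorem cre_a2_3_p_0 (x : ℝ) (h1 : 7 / 8 ≤ x) (h2 : x ≤ 29 / 32) :
    ((6128029 / 1000000) + (-(1064973 / 50000)) * x +
      (31273 / 1250) * x ^ 2 + (-(30024 / 3125)) * x ^ 3) ^ 2 * (2 - x) ≤
      (51 / 50 - x ^ 2) *
      (x - ((6128029 / 1000000) + (-(1064973 / 50000)) * x +
      (31273 / 1250) * x ^ 2 + (-(30024 / 3125)) * x ^ 3) -
      ((-(1064973 / 50000)) + 2 * (31273 / 1250) * x +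
      3 * (-(30024 / 3125)) * x ^ 2) * (2 - x)) := by
  obtain ⟨s, hs⟩ : ∃ s, s = x - 7 / 8 := ⟨_, rfl⟩
  obtain ⟨t, ht⟩ : ∃ t, t = 29 / 32 - x := ⟨_, rfl⟩
  have hs0 : 0 ≤ s := by linarith
  have ht0 : 0 ≤ t := by linarith
  have h : 0 ≤
      10497586522750976 / 244140625 * t ^ 7 + 39523184270114816 / 244140625 * s * t ^ 6 +
      12396425201238016 / 48828125 * s ^ 2 * t ^ 5 +
      13929511438036992 / 48828125 * s ^ 3 * t ^ 4 +
      16373250147132416 / 48828125 * s ^ 4 * t ^ 3 +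
      75137951621012736 / 244140625 * s ^ 5 * t ^ 2 +
      37011968717953536 / 244140625 * s ^ 6 * t + 1409852287451712 / 48828125 * s ^ 7 := by
    positivity
  have e :
      10497586522750976 / 244140625 * t ^ 7 + 39523184270114816 / 244140625 * s * t ^ 6 +
      12396425201238016 / 48828125 * s ^ 2 * t ^ 5 +
      13929511438036992 / 48828125 * s ^ 3 * t ^ 4 +
      16373250147132416 / 48828125 * s ^ 4 * t ^ 3 +
      75137951621012736 / 244140625 * s ^ 5 * t ^ 2 +
      37011968717953536 / 244140625 * s ^ 6 * t + 1409852287451712 / 48828125 * s ^ 7 =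
      (51 / 50 - x ^ 2) *
      (x - ((6128029 / 1000000) + (-(1064973 / 50000)) * x +
      (31273 / 1250) * x ^ 2 + (-(30024 / 3125)) * x ^ 3) -
      ((-(1064973 / 50000)) + 2 * (31273 / 1250) * x +
      3 * (-(30024 / 3125)) * x ^ 2) * (2 - x)) -
      ((6128029 / 1000000) + (-(1064973 / 50000)) * x +
      (31273 / 1250) * x ^ 2 + (-(30024 / 3125)) * x ^ 3) ^ 2 * (2 - x) := by
    rw [hs, ht]
    ring
  rw [e] at h
  linarith

theorem cre_a2_3_p_1 (x : ℝ) (h1 : 29 / 32 ≤ x) (h2 : x ≤ 15 / 16) :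
    ((6128029 / 1000000) + (-(1064973 / 50000)) * x +
      (31273 / 1250) * x ^ 2 + (-(30024 / 3125)) * x ^ 3) ^ 2 * (2 - x) ≤
      (51 / 50 - x ^ 2) *
      (x - ((6128029 / 1000000) + (-(1064973 / 50000)) * x +
      (31273 / 1250) * x ^ 2 + (-(30024 / 3125)) * x ^ 3) -
      ((-(1064973 / 50000)) + 2 * (31273 / 1250) * x +
      3 * (-(30024 / 3125)) * x ^ 2) * (2 - x)) := by
  obtain ⟨s, hs⟩ : ∃ s, s = x - 29 / 32 := ⟨_, rfl⟩
  obtain ⟨t, ht⟩ : ∃ t, t = 15 / 16 - x := ⟨_, rfl⟩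
  have hs0 : 0 ≤ s := by linarith
  have ht0 : 0 ≤ t := by linarith
  have h : 0 ≤
      1409852287451712 / 48828125 * t ^ 7 + 61677691403666304 / 244140625 * s * t ^ 6 +
      223132287735289344 / 244140625 * s ^ 2 * t ^ 5 +
      84517668965929984 / 48828125 * s ^ 3 * t ^ 4 +
      17836281045505024 / 9765625 * s ^ 4 * t ^ 3 +
      51276104537790464 / 48828125 * s ^ 5 * t ^ 2 +
      70452602712162304 / 244140625 * s ^ 6 * t + 5894641636081664 / 244140625 * s ^ 7 := by
    positivity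
  have e :
      1409852287451712 / 48828125 * t ^ 7 + 61677691403666304 / 244140625 * s * t ^ 6 +
      223132287735289344 / 244140625 * s ^ 2 * t ^ 5 +
      84517668965929984 / 48828125 * s ^ 3 * t ^ 4 +
      17836281045505024 / 9765625 * s ^ 4 * t ^ 3 +
      51276104537790464 / 48828125 * s ^ 5 * t ^ 2 +
      70452602712162304 / 244140625 * s ^ 6 * t + 5894641636081664 / 244140625 * s ^ 7 =
      (51 / 50 - x ^ 2) *
      (x - ((6128029 / 1000000) + (-(1064973 / 50000)) * x +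
      (31273 / 1250) * x ^ 2 + (-(30024 / 3125)) * x ^ 3) -
      ((-(1064973 / 50000)) + 2 * (31273 / 1250) * x +
      3 * (-(30024 / 3125)) * x ^ 2) * (2 - x)) -
      ((6128029 / 1000000) + (-(1064973 / 50000)) * x +
      (31273 / 1250) * x ^ 2 + (-(30024 / 3125)) * x ^ 3) ^ 2 * (2 - x) := by
    rw [hs, ht]
    ring
  rw [e] at h
  linarith

theorem cre_a2_3_q_0 (x : ℝ) (h1 : 7 / 8 ≤ x) (h2 : x ≤ 15 / 16) :
    0 ≤
      (x - ((6128029 / 1000000) + (-(1064973 / 50000)) * x +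
      (31273 / 1250) * x ^ 2 + (-(30024 / 3125)) * x ^ 3) -
      ((-(1064973 / 50000)) + 2 * (31273 / 1250) * x +
      3 * (-(30024 / 3125)) * x ^ 2) * (2 - x)) := by
  obtain ⟨s, hs⟩ : ∃ s, s = x - 7 / 8 := ⟨_, rfl⟩
  obtain ⟨t, ht⟩ : ∃ t, t = 15 / 16 - x := ⟨_, rfl⟩
  have hs0 : 0 ≤ s := by linarith
  have ht0 : 0 ≤ t := by linarith
  have h : 0 ≤
      12716384 / 15625 * t ^ 3 + 43964992 / 15625 * s * t ^ 2 +
      57836872 / 15625 * s ^ 2 * t + 26288024 / 15625 * s ^ 3 := by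
    positivity
  have e :
      12716384 / 15625 * t ^ 3 + 43964992 / 15625 * s * t ^ 2 +
      57836872 / 15625 * s ^ 2 * t + 26288024 / 15625 * s ^ 3 =
      (x - ((6128029 / 1000000) + (-(1064973 / 50000)) * x +
      (31273 / 1250) * x ^ 2 + (-(30024 / 3125)) * x ^ 3) -
      ((-(1064973 / 50000)) + 2 * (31273 / 1250) * x +
      3 * (-(30024 / 3125)) * x ^ 2) * (2 - x)) -
      0 := by
    rw [hs, ht]
    ring
  rw [e] at h
  linarith

theorem cre_a2_4_p_0 (x : ℝ) (h1 : 15 / 16 ≤ x) (h2 : x ≤ 61 / 64) :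
    ((325381607 / 8000000) + (-(13167651 / 100000)) * x +
      (445553 / 3125) * x ^ 2 + (-(160448 / 3125)) * x ^ 3) ^ 2 * (2 - x) ≤
      (51 / 50 - x ^ 2) *
      (x - ((325381607 / 8000000) + (-(13167651 / 100000)) * x +
      (445553 / 3125) * x ^ 2 + (-(160448 / 3125)) * x ^ 3) -
      ((-(13167651 / 100000)) + 2 * (445553 / 3125) * x +
      3 * (-(160448 / 3125)) * x ^ 2) * (2 - x)) := by
  obtain ⟨s, hs⟩ : ∃ s, s = x - 15 / 16 := ⟨_, rfl⟩
  obtain ⟨t, ht⟩ : ∃ t, t = 61 / 64 - x := ⟨_, rfl⟩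
  have hs0 : 0 ≤ s := by linarith
  have ht0 : 0 ≤ t := by linarith
  have h : 0 ≤
      754514129418452992 / 244140625 * t ^ 7 + 504656963716513792 / 48828125 * s * t ^ 6 +
      3022338636923731968 / 244140625 * s ^ 2 * t ^ 5 +
      98128231493156864 / 9765625 * s ^ 3 * t ^ 4 +
      729844588983156736 / 48828125 * s ^ 4 * t ^ 3 +
      4447223215674314752 / 244140625 * s ^ 5 * t ^ 2 +
      501195346595381248 / 48828125 * s ^ 6 * t + 508339266238087168 / 244140625 * s ^ 7 := by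
    positivity
  have e :
      754514129418452992 / 244140625 * t ^ 7 + 504656963716513792 / 48828125 * s * t ^ 6 +
      3022338636923731968 / 244140625 * s ^ 2 * t ^ 5 +
      98128231493156864 / 9765625 * s ^ 3 * t ^ 4 +
      729844588983156736 / 48828125 * s ^ 4 * t ^ 3 +
      4447223215674314752 / 244140625 * s ^ 5 * t ^ 2 +
      501195346595381248 / 48828125 * s ^ 6 * t + 508339266238087168 / 244140625 * s ^ 7 =
      (51 / 50 - x ^ 2) *
      (x - ((325381607 / 8000000) + (-(13167651 / 100000)) * x +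
      (445553 / 3125) * x ^ 2 + (-(160448 / 3125)) * x ^ 3) -
      ((-(13167651 / 100000)) + 2 * (445553 / 3125) * x +
      3 * (-(160448 / 3125)) * x ^ 2) * (2 - x)) -
      ((325381607 / 8000000) + (-(13167651 / 100000)) * x +
      (445553 / 3125) * x ^ 2 + (-(160448 / 3125)) * x ^ 3) ^ 2 * (2 - x) := by
    rw [hs, ht]
    ring
  rw [e] at h
  linarith

theorem cre_a2_4_p_1 (x : ℝ) (h1 : 61 / 64 ≤ x) (h2 : x ≤ 31 / 32) :
    ((325381607 / 8000000) + (-(13167651 / 100000)) * x +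
      (445553 / 3125) * x ^ 2 + (-(160448 / 3125)) * x ^ 3) ^ 2 * (2 - x) ≤
      (51 / 50 - x ^ 2) *
      (x - ((325381607 / 8000000) + (-(13167651 / 100000)) * x +
      (445553 / 3125) * x ^ 2 + (-(160448 / 3125)) * x ^ 3) -
      ((-(13167651 / 100000)) + 2 * (445553 / 3125) * x +
      3 * (-(160448 / 3125)) * x ^ 2) * (2 - x)) := by
  obtain ⟨s, hs⟩ : ∃ s, s = x - 61 / 64 := ⟨_, rfl⟩
  obtain ⟨t, ht⟩ : ∃ t, t = 31 / 32 - x := ⟨_, rfl⟩
  have hs0 : 0 ≤ s := by linarith
  have ht0 : 0 ≤ t := by linarith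
  have h : 0 ≤
      508339266238087168 / 244140625 * t ^ 7 + 4610772994356314112 / 244140625 * s * t ^ 6 +
      17076000783950761984 / 244140625 * s ^ 2 * t ^ 5 +
      6559879955975479296 / 48828125 * s ^ 3 * t ^ 4 +
      6972412534399811584 / 48828125 * s ^ 4 * t ^ 3 +
      20062973660553248768 / 244140625 * s ^ 5 * t ^ 2 +
      5463581278571855872 / 244140625 * s ^ 6 * t + 436838209561821184 / 244140625 * s ^ 7 := by
    positivity
  have e :
      508339266238087168 / 244140625 * t ^ 7 + 4610772994356314112 / 244140625 * s * t ^ 6 +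
      17076000783950761984 / 244140625 * s ^ 2 * t ^ 5 +
      6559879955975479296 / 48828125 * s ^ 3 * t ^ 4 +
      6972412534399811584 / 48828125 * s ^ 4 * t ^ 3 +
      20062973660553248768 / 244140625 * s ^ 5 * t ^ 2 +
      5463581278571855872 / 244140625 * s ^ 6 * t + 436838209561821184 / 244140625 * s ^ 7 =
      (51 / 50 - x ^ 2) *
      (x - ((325381607 / 8000000) + (-(13167651 / 100000)) * x +
      (445553 / 3125) * x ^ 2 + (-(160448 / 3125)) * x ^ 3) -
      ((-(13167651 / 100000)) + 2 * (445553 / 3125) * x +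
      3 * (-(160448 / 3125)) * x ^ 2) * (2 - x)) -
      ((325381607 / 8000000) + (-(13167651 / 100000)) * x +
      (445553 / 3125) * x ^ 2 + (-(160448 / 3125)) * x ^ 3) ^ 2 * (2 - x) := by
    rw [hs, ht]
    ring
  rw [e] at h
  linarith

theorem cre_a2_4_q_0 (x : ℝ) (h1 : 15 / 16 ≤ x) (h2 : x ≤ 31 / 32) :
    0 ≤
      (x - ((325381607 / 8000000) + (-(13167651 / 100000)) * x +
      (445553 / 3125) * x ^ 2 + (-(160448 / 3125)) * x ^ 3) -
      ((-(13167651 / 100000)) + 2 * (445553 / 3125) * x +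
      3 * (-(160448 / 3125)) * x ^ 2) * (2 - x)) := by
  obtain ⟨s, hs⟩ : ∃ s, s = x - 15 / 16 := ⟨_, rfl⟩
  obtain ⟨t, ht⟩ : ∃ t, t = 31 / 32 - x := ⟨_, rfl⟩
  have hs0 : 0 ≤ s := by linarith
  have ht0 : 0 ≤ t := by linarith
  have h : 0 ≤
      210304192 / 15625 * t ^ 3 + 709004736 / 15625 * s * t ^ 2 +
      868012256 / 15625 * s ^ 2 * t + 367707232 / 15625 * s ^ 3 := by
    positivity
  have e :
      210304192 / 15625 * t ^ 3 + 709004736 / 15625 * s * t ^ 2 +
      868012256 / 15625 * s ^ 2 * t + 367707232 / 15625 * s ^ 3 =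
      (x - ((325381607 / 8000000) + (-(13167651 / 100000)) * x +
      (445553 / 3125) * x ^ 2 + (-(160448 / 3125)) * x ^ 3) -
      ((-(13167651 / 100000)) + 2 * (445553 / 3125) * x +
      3 * (-(160448 / 3125)) * x ^ 2) * (2 - x)) -
      0 := by
    rw [hs, ht]
    ring
  rw [e] at h
  linarith

theorem cre_a2_5_p_0 (x : ℝ) (h1 : 31 / 32 ≤ x) (h2 : x ≤ 125 / 128) :
    ((3137282483 / 16000000) + (-(306385111 / 500000)) * x +
      (1996926 / 3125) * x ^ 2 + (-(3470336 / 15625)) * x ^ 3) ^ 2 * (2 - x) ≤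
      (51 / 50 - x ^ 2) *
      (x - ((3137282483 / 16000000) + (-(306385111 / 500000)) * x +
      (1996926 / 3125) * x ^ 2 + (-(3470336 / 15625)) * x ^ 3) -
      ((-(306385111 / 500000)) + 2 * (1996926 / 3125) * x +
      3 * (-(3470336 / 15625)) * x ^ 2) * (2 - x)) := by
  obtain ⟨s, hs⟩ : ∃ s, s = x - 31 / 32 := ⟨_, rfl⟩
  obtain ⟨t, ht⟩ : ∃ t, t = 125 / 128 - x := ⟨_, rfl⟩
  have hs0 : 0 ≤ s := by linarith
  have ht0 : 0 ≤ t := by linarith
  have h : 0 ≤
      55915290823913111552 / 244140625 * t ^ 7 +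
      206116732457071935488 / 244140625 * s * t ^ 6 +
      315540062779481260032 / 244140625 * s ^ 2 * t ^ 5 +
      14407294947231531008 / 9765625 * s ^ 3 * t ^ 4 +
      450647311124718419968 / 244140625 * s ^ 4 * t ^ 3 +
      428708512753106092032 / 244140625 * s ^ 5 * t ^ 2 +
      213796131985439195136 / 244140625 * s ^ 6 * t + 40891189865817636864 / 244140625 * s ^ 7 := by
    positivity
  have e :
      55915290823913111552 / 244140625 * t ^ 7 +
      206116732457071935488 / 244140625 * s * t ^ 6 +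
      315540062779481260032 / 244140625 * s ^ 2 * t ^ 5 +
      14407294947231531008 / 9765625 * s ^ 3 * t ^ 4 +
      450647311124718419968 / 244140625 * s ^ 4 * t ^ 3 +
      428708512753106092032 / 244140625 * s ^ 5 * t ^ 2 +
      213796131985439195136 / 244140625 * s ^ 6 * t + 40891189865817636864 / 244140625 * s ^ 7 =
      (51 / 50 - x ^ 2) *
      (x - ((3137282483 / 16000000) + (-(306385111 / 500000)) * x +
      (1996926 / 3125) * x ^ 2 + (-(3470336 / 15625)) * x ^ 3) -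
      ((-(306385111 / 500000)) + 2 * (1996926 / 3125) * x +
      3 * (-(3470336 / 15625)) * x ^ 2) * (2 - x)) -
      ((3137282483 / 16000000) + (-(306385111 / 500000)) * x +
      (1996926 / 3125) * x ^ 2 + (-(3470336 / 15625)) * x ^ 3) ^ 2 * (2 - x) := by
    rw [hs, ht]
    ring
  rw [e] at h
  linarith

theorem cre_a2_5_p_1 (x : ℝ) (h1 : 125 / 128 ≤ x) (h2 : x ≤ 63 / 64) :
    ((3137282483 / 16000000) + (-(306385111 / 500000)) * x +
      (1996926 / 3125) * x ^ 2 + (-(3470336 / 15625)) * x ^ 3) ^ 2 * (2 - x) ≤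
      (51 / 50 - x ^ 2) *
      (x - ((3137282483 / 16000000) + (-(306385111 / 500000)) * x +
      (1996926 / 3125) * x ^ 2 + (-(3470336 / 15625)) * x ^ 3) -
      ((-(306385111 / 500000)) + 2 * (1996926 / 3125) * x +
      3 * (-(3470336 / 15625)) * x ^ 2) * (2 - x)) := by
  obtain ⟨s, hs⟩ : ∃ s, s = x - 125 / 128 := ⟨_, rfl⟩
  obtain ⟨t, ht⟩ : ∃ t, t = 63 / 64 - x := ⟨_, rfl⟩
  have hs0 : 0 ≤ s := by linarith
  have ht0 : 0 ≤ t := by linarith
  have h : 0 ≤
      40891189865817636864 / 244140625 * t ^ 7 +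
      71736105227201544192 / 48828125 * s * t ^ 6 +
      1298014877656517246976 / 244140625 * s ^ 2 * t ^ 5 +
      2458203059708929114112 / 244140625 * s ^ 3 * t ^ 4 +
      2595029601994890018816 / 244140625 * s ^ 4 * t ^ 3 +
      1494507645884538814464 / 244140625 * s ^ 5 * t ^ 2 +
      412507748448079970304 / 244140625 * s ^ 6 * t + 7010439655812235264 / 48828125 * s ^ 7 := by
    positivity
  have e :
      40891189865817636864 / 244140625 * t ^ 7 +
      71736105227201544192 / 48828125 * s * t ^ 6 +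
      1298014877656517246976 / 244140625 * s ^ 2 * t ^ 5 +
      2458203059708929114112 / 244140625 * s ^ 3 * t ^ 4 +
      2595029601994890018816 / 244140625 * s ^ 4 * t ^ 3 +
      1494507645884538814464 / 244140625 * s ^ 5 * t ^ 2 +
      412507748448079970304 / 244140625 * s ^ 6 * t + 7010439655812235264 / 48828125 * s ^ 7 =
      (51 / 50 - x ^ 2) *
      (x - ((3137282483 / 16000000) + (-(306385111 / 500000)) * x +
      (1996926 / 3125) * x ^ 2 + (-(3470336 / 15625)) * x ^ 3) -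
      ((-(306385111 / 500000)) + 2 * (1996926 / 3125) * x +
      3 * (-(3470336 / 15625)) * x ^ 2) * (2 - x)) -
      ((3137282483 / 16000000) + (-(306385111 / 500000)) * x +
      (1996926 / 3125) * x ^ 2 + (-(3470336 / 15625)) * x ^ 3) ^ 2 * (2 - x) := by
    rw [hs, ht]
    ring
  rw [e] at h
  linarith

theorem cre_a2_5_q_0 (x : ℝ) (h1 : 31 / 32 ≤ x) (h2 : x ≤ 63 / 64) :
    0 ≤
      (x - ((3137282483 / 16000000) + (-(306385111 / 500000)) * x +
      (1996926 / 3125) * x ^ 2 + (-(3470336 / 15625)) * x ^ 3) -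
      ((-(306385111 / 500000)) + 2 * (1996926 / 3125) * x +
      3 * (-(3470336 / 15625)) * x ^ 2) * (2 - x)) := by
  obtain ⟨s, hs⟩ : ∃ s, s = x - 31 / 32 := ⟨_, rfl⟩
  obtain ⟨t, ht⟩ : ∃ t, t = 63 / 64 - x := ⟨_, rfl⟩
  have hs0 : 0 ≤ s := by linarith
  have ht0 : 0 ≤ t := by linarith
  have h : 0 ≤
      2941657856 / 15625 * t ^ 3 + 389700352 / 625 * s * t ^ 2 +
      11340704384 / 15625 * s ^ 2 * t + 4532912768 / 15625 * s ^ 3 := by
    positivity
  have e :
      2941657856 / 15625 * t ^ 3 + 389700352 / 625 * s * t ^ 2 +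
      11340704384 / 15625 * s ^ 2 * t + 4532912768 / 15625 * s ^ 3 =
      (x - ((3137282483 / 16000000) + (-(306385111 / 500000)) * x +
      (1996926 / 3125) * x ^ 2 + (-(3470336 / 15625)) * x ^ 3) -
      ((-(306385111 / 500000)) + 2 * (1996926 / 3125) * x +
      3 * (-(3470336 / 15625)) * x ^ 2) * (2 - x)) -
      0 := by
    rw [hs, ht]
    ring
  rw [e] at h
  linarith

theorem cre_a2_6_p_0 (x : ℝ) (h1 : 63 / 64 ≤ x) (h2 : x ≤ 127 / 128) :
    ((21707017309 / 32000000) + (-(1041334417 / 500000)) * x +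
      (33318596 / 15625) * x ^ 2 + (-(11372544 / 15625)) * x ^ 3) ^ 2 * (2 - x) ≤
      (51 / 50 - x ^ 2) *
      (x - ((21707017309 / 32000000) + (-(1041334417 / 500000)) * x +
      (33318596 / 15625) * x ^ 2 + (-(11372544 / 15625)) * x ^ 3) -
      ((-(1041334417 / 500000)) + 2 * (33318596 / 15625) * x +
      3 * (-(11372544 / 15625)) * x ^ 2) * (2 - x)) := by
  obtain ⟨s, hs⟩ : ∃ s, s = x - 63 / 64 := ⟨_, rfl⟩
  obtain ⟨t, ht⟩ : ∃ t, t = 127 / 128 - x := ⟨_, rfl⟩
  have hs0 : 0 ≤ s := by linarith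
  have ht0 : 0 ≤ t := by linarith
  have h : 0 ≤
      7010439655812235264 / 48828125 * t ^ 7 + 94185453559717298176 / 244140625 * s * t ^ 6 +
      239589215437055328256 / 244140625 * s ^ 2 * t ^ 5 +
      742336506941061988352 / 244140625 * s ^ 3 * t ^ 4 +
      246018067834394902528 / 48828125 * s ^ 4 * t ^ 3 +
      955366866386417352704 / 244140625 * s ^ 5 * t ^ 2 +
      311593959995708801024 / 244140625 * s ^ 6 * t + 24437015331360210944 / 244140625 * s ^ 7 := by
    positivity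
  have e :
      7010439655812235264 / 48828125 * t ^ 7 + 94185453559717298176 / 244140625 * s * t ^ 6 +
      239589215437055328256 / 244140625 * s ^ 2 * t ^ 5 +
      742336506941061988352 / 244140625 * s ^ 3 * t ^ 4 +
      246018067834394902528 / 48828125 * s ^ 4 * t ^ 3 +
      955366866386417352704 / 244140625 * s ^ 5 * t ^ 2 +
      311593959995708801024 / 244140625 * s ^ 6 * t + 24437015331360210944 / 244140625 * s ^ 7 =
      (51 / 50 - x ^ 2) *
      (x - ((21707017309 / 32000000) + (-(1041334417 / 500000)) * x +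
      (33318596 / 15625) * x ^ 2 + (-(11372544 / 15625)) * x ^ 3) -
      ((-(1041334417 / 500000)) + 2 * (33318596 / 15625) * x +
      3 * (-(11372544 / 15625)) * x ^ 2) * (2 - x)) -
      ((21707017309 / 32000000) + (-(1041334417 / 500000)) * x +
      (33318596 / 15625) * x ^ 2 + (-(11372544 / 15625)) * x ^ 3) ^ 2 * (2 - x) := by
    rw [hs, ht]
    ring
  rw [e] at h
  linarith

theorem cre_a2_6_q_0 (x : ℝ) (h1 : 63 / 64 ≤ x) (h2 : x ≤ 127 / 128) :
    0 ≤
      (x - ((21707017309 / 32000000) + (-(1041334417 / 500000)) * x +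
      (33318596 / 15625) * x ^ 2 + (-(11372544 / 15625)) * x ^ 3) -
      ((-(1041334417 / 500000)) + 2 * (33318596 / 15625) * x +
      3 * (-(11372544 / 15625)) * x ^ 2) * (2 - x)) := by
  obtain ⟨s, hs⟩ : ∃ s, s = x - 63 / 64 := ⟨_, rfl⟩
  obtain ⟨t, ht⟩ : ∃ t, t = 127 / 128 - x := ⟨_, rfl⟩
  have hs0 : 0 ≤ s := by linarith
  have ht0 : 0 ≤ t := by linarith
  have h : 0 ≤
      36263302144 / 15625 * t ^ 3 + 117896655872 / 15625 * s * t ^ 2 +
      131404656128 / 15625 * s ^ 2 * t + 49748557312 / 15625 * s ^ 3 := by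
    positivity
  have e :
      36263302144 / 15625 * t ^ 3 + 117896655872 / 15625 * s * t ^ 2 +
      131404656128 / 15625 * s ^ 2 * t + 49748557312 / 15625 * s ^ 3 =
      (x - ((21707017309 / 32000000) + (-(1041334417 / 500000)) * x +
      (33318596 / 15625) * x ^ 2 + (-(11372544 / 15625)) * x ^ 3) -
      ((-(1041334417 / 500000)) + 2 * (33318596 / 15625) * x +
      3 * (-(11372544 / 15625)) * x ^ 2) * (2 - x)) -
      0 := by
    rw [hs, ht]
    ring
  rw [e] at h
  linarith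

theorem cre_a2_7_p_0 (x : ℝ) (h1 : 127 / 128 ≤ x) (h2 : x ≤ 255 / 256) :
    ((106302731421 / 64000000) + (-(101087619 / 20000)) * x +
      (80126544 / 15625) * x ^ 2 + (-(27101184 / 15625)) * x ^ 3) ^ 2 * (2 - x) ≤
      (51 / 50 - x ^ 2) *
      (x - ((106302731421 / 64000000) + (-(101087619 / 20000)) * x +
      (80126544 / 15625) * x ^ 2 + (-(27101184 / 15625)) * x ^ 3) -
      ((-(101087619 / 20000)) + 2 * (80126544 / 15625) * x +
      3 * (-(27101184 / 15625)) * x ^ 2) * (2 - x)) := by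
  obtain ⟨s, hs⟩ : ∃ s, s = x - 127 / 128 := ⟨_, rfl⟩
  obtain ⟨t, ht⟩ : ∃ t, t = 255 / 256 - x := ⟨_, rfl⟩
  have hs0 : 0 ≤ s := by linarith
  have ht0 : 0 ≤ t := by linarith
  have h : 0 ≤
      3127937962414107000832 / 244140625 * t ^ 7 +
      633736600893289136128 / 9765625 * s * t ^ 6 +
      45023975589029320065024 / 244140625 * s ^ 2 * t ^ 5 +
      86679065441396529823744 / 244140625 * s ^ 3 * t ^ 4 +
      103855044268807533101056 / 244140625 * s ^ 4 * t ^ 3 +
      69764144655413884747776 / 244140625 * s ^ 5 * t ^ 2 +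
      4544856549169437868032 / 48828125 * s ^ 6 * t +
      2444616181429680734208 / 244140625 * s ^ 7 := by
    positivity
  have e :
      3127937962414107000832 / 244140625 * t ^ 7 +
      633736600893289136128 / 9765625 * s * t ^ 6 +
      45023975589029320065024 / 244140625 * s ^ 2 * t ^ 5 +
      86679065441396529823744 / 244140625 * s ^ 3 * t ^ 4 +
      103855044268807533101056 / 244140625 * s ^ 4 * t ^ 3 +
      69764144655413884747776 / 244140625 * s ^ 5 * t ^ 2 +
      4544856549169437868032 / 48828125 * s ^ 6 * t +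
      2444616181429680734208 / 244140625 * s ^ 7 =
      (51 / 50 - x ^ 2) *
      (x - ((106302731421 / 64000000) + (-(101087619 / 20000)) * x +
      (80126544 / 15625) * x ^ 2 + (-(27101184 / 15625)) * x ^ 3) -
      ((-(101087619 / 20000)) + 2 * (80126544 / 15625) * x +
      3 * (-(27101184 / 15625)) * x ^ 2) * (2 - x)) -
      ((106302731421 / 64000000) + (-(101087619 / 20000)) * x +
      (80126544 / 15625) * x ^ 2 + (-(27101184 / 15625)) * x ^ 3) ^ 2 * (2 - x) := by
    rw [hs, ht]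
    ring
  rw [e] at h
  linarith

theorem cre_a2_7_q_0 (x : ℝ) (h1 : 127 / 128 ≤ x) (h2 : x ≤ 255 / 256) :
    0 ≤
      (x - ((106302731421 / 64000000) + (-(101087619 / 20000)) * x +
      (80126544 / 15625) * x ^ 2 + (-(27101184 / 15625)) * x ^ 3) -
      ((-(101087619 / 20000)) + 2 * (80126544 / 15625) * x +
      3 * (-(27101184 / 15625)) * x ^ 2) * (2 - x)) := by
  obtain ⟨s, hs⟩ : ∃ s, s = x - 127 / 128 := ⟨_, rfl⟩
  obtain ⟨t, ht⟩ : ∃ t, t = 255 / 256 - x := ⟨_, rfl⟩
  have hs0 : 0 ≤ s := by linarith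
  have ht0 : 0 ≤ t := by linarith
  have h : 0 ≤
      397988458496 / 15625 * t ^ 3 + 1266562158592 / 15625 * s * t ^ 2 +
      1359996551168 / 15625 * s ^ 2 * t + 491368648704 / 15625 * s ^ 3 := by
    positivity
  have e :
      397988458496 / 15625 * t ^ 3 + 1266562158592 / 15625 * s * t ^ 2 +
      1359996551168 / 15625 * s ^ 2 * t + 491368648704 / 15625 * s ^ 3 =
      (x - ((106302731421 / 64000000) + (-(101087619 / 20000)) * x +
      (80126544 / 15625) * x ^ 2 + (-(27101184 / 15625)) * x ^ 3) -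
      ((-(101087619 / 20000)) + 2 * (80126544 / 15625) * x +
      3 * (-(27101184 / 15625)) * x ^ 2) * (2 - x)) -
      0 := by
    rw [hs, ht]
    ring
  rw [e] at h
  linarith

theorem cre_a2_8_p_0 (x : ℝ) (h1 : 255 / 256 ≤ x) (h2 : x ≤ 1) :
    ((950425941 / 250000) + (-(574993683 / 50000)) * x +
      (181203088 / 15625) * x ^ 2 + (-(60915712 / 15625)) * x ^ 3) ^ 2 * (2 - x) ≤
      (51 / 50 - x ^ 2) *
      (x - ((950425941 / 250000) + (-(574993683 / 50000)) * x +
      (181203088 / 15625) * x ^ 2 + (-(60915712 / 15625)) * x ^ 3) -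
      ((-(574993683 / 50000)) + 2 * (181203088 / 15625) * x +
      3 * (-(60915712 / 15625)) * x ^ 2) * (2 - x)) := by
  obtain ⟨s, hs⟩ : ∃ s, s = x - 255 / 256 := ⟨_, rfl⟩
  obtain ⟨t, ht⟩ : ∃ t, t = 1 - x := ⟨_, rfl⟩
  have hs0 : 0 ≤ s := by linarith
  have ht0 : 0 ≤ t := by linarith
  have h : 0 ≤
      2444616181429680734208 / 244140625 * t ^ 7 +
      4326955719443456458752 / 244140625 * s * t ^ 6 +
      9806941689881686966272 / 244140625 * s ^ 2 * t ^ 5 +
      46655333969789089480704 / 244140625 * s ^ 3 * t ^ 4 +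
      89491503887540136443904 / 244140625 * s ^ 4 * t ^ 3 +
      73038181676720066658304 / 244140625 * s ^ 5 * t ^ 2 +
      24036972403889954357248 / 244140625 * s ^ 6 * t +
      1759566507512814370816 / 244140625 * s ^ 7 := by
    positivity
  have e :
      2444616181429680734208 / 244140625 * t ^ 7 +
      4326955719443456458752 / 244140625 * s * t ^ 6 +
      9806941689881686966272 / 244140625 * s ^ 2 * t ^ 5 +
      46655333969789089480704 / 244140625 * s ^ 3 * t ^ 4 +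
      89491503887540136443904 / 244140625 * s ^ 4 * t ^ 3 +
      73038181676720066658304 / 244140625 * s ^ 5 * t ^ 2 +
      24036972403889954357248 / 244140625 * s ^ 6 * t +
      1759566507512814370816 / 244140625 * s ^ 7 =
      (51 / 50 - x ^ 2) *
      (x - ((950425941 / 250000) + (-(574993683 / 50000)) * x +
      (181203088 / 15625) * x ^ 2 + (-(60915712 / 15625)) * x ^ 3) -
      ((-(574993683 / 50000)) + 2 * (181203088 / 15625) * x +
      3 * (-(60915712 / 15625)) * x ^ 2) * (2 - x)) -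
      ((950425941 / 250000) + (-(574993683 / 50000)) * x +
      (181203088 / 15625) * x ^ 2 + (-(60915712 / 15625)) * x ^ 3) ^ 2 * (2 - x) := by
    rw [hs, ht]
    ring
  rw [e] at h
  linarith

theorem cre_a2_8_q_0 (x : ℝ) (h1 : 255 / 256 ≤ x) (h2 : x ≤ 1) :
    0 ≤
      (x - ((950425941 / 250000) + (-(574993683 / 50000)) * x +
      (181203088 / 15625) * x ^ 2 + (-(60915712 / 15625)) * x ^ 3) -
      ((-(574993683 / 50000)) + 2 * (181203088 / 15625) * x +
      3 * (-(60915712 / 15625)) * x ^ 2) * (2 - x)) := by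
  obtain ⟨s, hs⟩ : ∃ s, s = x - 255 / 256 := ⟨_, rfl⟩
  obtain ⟨t, ht⟩ : ∃ t, t = 1 - x := ⟨_, rfl⟩
  have hs0 : 0 ≤ s := by linarith
  have ht0 : 0 ≤ t := by linarith
  have h : 0 ≤
      491368648704 / 15625 * t ^ 3 + 316873986048 / 3125 * s * t ^ 2 +
      1741387399168 / 15625 * s ^ 2 * t + 648264286208 / 15625 * s ^ 3 := by
    positivity
  have e :
      491368648704 / 15625 * t ^ 3 + 316873986048 / 3125 * s * t ^ 2 +
      1741387399168 / 15625 * s ^ 2 * t + 648264286208 / 15625 * s ^ 3 =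
      (x - ((950425941 / 250000) + (-(574993683 / 50000)) * x +
      (181203088 / 15625) * x ^ 2 + (-(60915712 / 15625)) * x ^ 3) -
      ((-(574993683 / 50000)) + 2 * (181203088 / 15625) * x +
      3 * (-(60915712 / 15625)) * x ^ 2) * (2 - x)) -
      0 := by
    rw [hs, ht]
    ring
  rw [e] at h
  linarith

/-- the pair `(51 / 50, 1167 / 1000)` -/
theorem cre_a2 : Cre (51 / 50) (1167 / 1000) := by
  have h0 := Up.zero (51 / 50)
  have h1 : Up (51 / 50) (1 / 2) (4213 / 62500) := by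
    have h := h0.step (β := 1 / 2) (a := (0))
      (b := (0)) (c := (62229 / 250000))
      (d := (5179 / 125000)) (by norm_num) (by norm_num) (by norm_num) (by norm_num)
      (fun x i0 i1 => by
      exact cre_a2_0_p_0 x (by linarith) (by linarith))
      (fun x i0 i1 => by
      exact cre_a2_0_q_0 x (by linarith) (by linarith))
    norm_num at h ⊢
    exact h
  have h2 : Up (51 / 50) (3 / 4) (155763 / 1000000) := by
    have h := h1.step (β := 3 / 4) (a := (25563 / 1000000))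
      (b := (-(14557 / 100000))) (c := (13111 / 25000))
      (d := (-(412 / 3125))) (by norm_num) (by norm_num) (by norm_num) (by norm_num)
      (fun x i0 i1 => by
      exact cre_a2_1_p_0 x (by linarith) (by linarith))
      (fun x i0 i1 => by
      exact cre_a2_1_q_0 x (by linarith) (by linarith))
    norm_num at h ⊢
    exact h
  have h3 : Up (51 / 50) (7 / 8) (209319 / 1000000) := by
    have h := h2.step (β := 7 / 8) (a := (1232871 / 2000000))
      (b := (-(1240883 / 500000))) (c := (112593 / 31250))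
      (d := (-(23186 / 15625))) (by norm_num) (by norm_num) (by norm_num) (by norm_num)
      (fun x i0 i1 => by
      exact cre_a2_2_p_0 x (by linarith) (by linarith))
      (fun x i0 i1 => by
      exact cre_a2_2_q_0 x (by linarith) (by linarith))
    norm_num at h ⊢
    exact h
  have h4 : Up (51 / 50) (15 / 16) (232129 / 1000000) := by
    have h := h3.step (β := 15 / 16) (a := (6128029 / 1000000))
      (b := (-(1064973 / 50000))) (c := (31273 / 1250))
      (d := (-(30024 / 3125))) (by norm_num) (by norm_num) (by norm_num) (by norm_num)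
      (fun x i0 i1 => by
      rcases le_total x (29 / 32) with i2 | i2
      · exact cre_a2_3_p_0 x (by linarith) i2
      exact cre_a2_3_p_1 x (by linarith) (by linarith))
      (fun x i0 i1 => by
      exact cre_a2_3_q_0 x (by linarith) (by linarith))
    norm_num at h ⊢
    exact h
  have h5 : Up (51 / 50) (31 / 32) (59361 / 250000) := by
    have h := h4.step (β := 31 / 32) (a := (325381607 / 8000000))
      (b := (-(13167651 / 100000))) (c := (445553 / 3125))
      (d := (-(160448 / 3125))) (by norm_num) (by norm_num) (by norm_num) (by norm_num)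
      (fun x i0 i1 => by
      rcases le_total x (61 / 64) with i2 | i2
      · exact cre_a2_4_p_0 x (by linarith) i2
      exact cre_a2_4_p_1 x (by linarith) (by linarith))
      (fun x i0 i1 => by
      exact cre_a2_4_q_0 x (by linarith) (by linarith))
    norm_num at h ⊢
    exact h
  have h6 : Up (51 / 50) (63 / 64) (235217 / 1000000) := by
    have h := h5.step (β := 63 / 64) (a := (3137282483 / 16000000))
      (b := (-(306385111 / 500000))) (c := (1996926 / 3125))
      (d := (-(3470336 / 15625))) (by norm_num) (by norm_num) (by norm_num) (by norm_num)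
      (fun x i0 i1 => by
      rcases le_total x (125 / 128) with i2 | i2
      · exact cre_a2_5_p_0 x (by linarith) i2
      exact cre_a2_5_p_1 x (by linarith) (by linarith))
      (fun x i0 i1 => by
      exact cre_a2_5_q_0 x (by linarith) (by linarith))
    norm_num at h ⊢
    exact h
  have h7 : Up (51 / 50) (127 / 128) (231081 / 1000000) := by
    have h := h6.step (β := 127 / 128) (a := (21707017309 / 32000000))
      (b := (-(1041334417 / 500000))) (c := (33318596 / 15625))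
      (d := (-(11372544 / 15625))) (by norm_num) (by norm_num) (by norm_num) (by norm_num)
      (fun x i0 i1 => by
      exact cre_a2_6_p_0 x (by linarith) (by linarith))
      (fun x i0 i1 => by
      exact cre_a2_6_q_0 x (by linarith) (by linarith))
    norm_num at h ⊢
    exact h
  have h8 : Up (51 / 50) (255 / 256) (113757 / 500000) := by
    have h := h7.step (β := 255 / 256) (a := (106302731421 / 64000000))
      (b := (-(101087619 / 20000))) (c := (80126544 / 15625))
      (d := (-(27101184 / 15625))) (by norm_num) (by norm_num) (by norm_num) (by norm_num)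
      (fun x i0 i1 => by
      exact cre_a2_7_p_0 x (by linarith) (by linarith))
      (fun x i0 i1 => by
      exact cre_a2_7_q_0 x (by linarith) (by linarith))
    norm_num at h ⊢
    exact h
  have h9 : Up (51 / 50) (1) (27771 / 125000) := by
    have h := h8.step (β := 1) (a := (950425941 / 250000))
      (b := (-(574993683 / 50000))) (c := (181203088 / 15625))
      (d := (-(60915712 / 15625))) (by norm_num) (by norm_num) (by norm_num) (by norm_num)
      (fun x i0 i1 => by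
      exact cre_a2_8_p_0 x (by linarith) (by linarith))
      (fun x i0 i1 => by
      exact cre_a2_8_q_0 x (by linarith) (by linarith))
    norm_num at h ⊢
    exact h
  exact Up.cre (by simpa using h9) (by norm_num)

theorem cre_b_0_p_0 (x : ℝ) (h1 : 0 ≤ x) (h2 : x ≤ 1 / 2) :
    ((0) + (0) * x +
      (15553 / 62500) * x ^ 2 + (2601 / 62500) * x ^ 3) ^ 2 * (2 - x) ≤
      (103 / 100 - x ^ 2) *
      (x - ((0) + (0) * x +
      (15553 / 62500) * x ^ 2 + (2601 / 62500) * x ^ 3) -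
      ((0) + 2 * (15553 / 62500) * x +
      3 * (2601 / 62500) * x ^ 2) * (2 - x)) := by
  obtain ⟨s, hs⟩ : ∃ s, s = x - 0 := ⟨_, rfl⟩
  obtain ⟨t, ht⟩ : ∃ t, t = 1 / 2 - x := ⟨_, rfl⟩
  have hs0 : 0 ≤ s := by linarith
  have ht0 : 0 ≤ t := by linarith
  have h : 0 ≤
      118656 / 390625 * s * t ^ 6 + 701018 / 390625 * s ^ 2 * t ^ 5 +
      2232256 / 390625 * s ^ 3 * t ^ 4 + 2442237941 / 244140625 * s ^ 4 * t ^ 3 +
      8653822689 / 976562500 * s ^ 5 * t ^ 2 + 1687076619 / 488281250 * s ^ 6 * t +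
      1464954453 / 3906250000 * s ^ 7 := by
    positivity
  have e :
      118656 / 390625 * s * t ^ 6 + 701018 / 390625 * s ^ 2 * t ^ 5 +
      2232256 / 390625 * s ^ 3 * t ^ 4 + 2442237941 / 244140625 * s ^ 4 * t ^ 3 +
      8653822689 / 976562500 * s ^ 5 * t ^ 2 + 1687076619 / 488281250 * s ^ 6 * t +
      1464954453 / 3906250000 * s ^ 7 =
      (103 / 100 - x ^ 2) *
      (x - ((0) + (0) * x +
      (15553 / 62500) * x ^ 2 + (2601 / 62500) * x ^ 3) -
      ((0) + 2 * (15553 / 62500) * x +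
      3 * (2601 / 62500) * x ^ 2) * (2 - x)) -
      ((0) + (0) * x +
      (15553 / 62500) * x ^ 2 + (2601 / 62500) * x ^ 3) ^ 2 * (2 - x) := by
    rw [hs, ht]
    ring
  rw [e] at h
  linarith

theorem cre_b_0_q_0 (x : ℝ) (h1 : 0 ≤ x) (h2 : x ≤ 1 / 2) :
    0 ≤
      (x - ((0) + (0) * x +
      (15553 / 62500) * x ^ 2 + (2601 / 62500) * x ^ 3) -
      ((0) + 2 * (15553 / 62500) * x +
      3 * (2601 / 62500) * x ^ 2) * (2 - x)) := by
  obtain ⟨s, hs⟩ : ∃ s, s = x - 0 := ⟨_, rfl⟩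
  obtain ⟨t, ht⟩ : ∃ t, t = 1 / 2 - x := ⟨_, rfl⟩
  have hs0 : 0 ≤ s := by linarith
  have ht0 : 0 ≤ t := by linarith
  have h : 0 ≤
      288 / 15625 * s * t ^ 2 + 1099 / 31250 * s ^ 2 * t + 1562 / 15625 * s ^ 3 := by
    positivity
  have e :
      288 / 15625 * s * t ^ 2 + 1099 / 31250 * s ^ 2 * t + 1562 / 15625 * s ^ 3 =
      (x - ((0) + (0) * x +
      (15553 / 62500) * x ^ 2 + (2601 / 62500) * x ^ 3) -
      ((0) + 2 * (15553 / 62500) * x +
      3 * (2601 / 62500) * x ^ 2) * (2 - x)) -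
      0 := by
    rw [hs, ht]
    ring
  rw [e] at h
  linarith

theorem cre_b_1_p_0 (x : ℝ) (h1 : 1 / 2 ≤ x) (h2 : x ≤ 3 / 4) :
    ((12331 / 500000) + (-(35121 / 250000)) * x +
      (12871 / 25000) * x ^ 2 + (-(3929 / 31250)) * x ^ 3) ^ 2 * (2 - x) ≤
      (103 / 100 - x ^ 2) *
      (x - ((12331 / 500000) + (-(35121 / 250000)) * x +
      (12871 / 25000) * x ^ 2 + (-(3929 / 31250)) * x ^ 3) -
      ((-(35121 / 250000)) + 2 * (12871 / 25000) * x +
      3 * (-(3929 / 31250)) * x ^ 2) * (2 - x)) := by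
  obtain ⟨s, hs⟩ : ∃ s, s = x - 1 / 2 := ⟨_, rfl⟩
  obtain ⟨t, ht⟩ : ∃ t, t = 3 / 4 - x := ⟨_, rfl⟩
  have hs0 : 0 ≤ s := by linarith
  have ht0 : 0 ≤ t := by linarith
  have h : 0 ≤
      11719635624 / 244140625 * t ^ 7 + 34025882244 / 244140625 * s * t ^ 6 +
      87081744426 / 244140625 * s ^ 2 * t ^ 5 + 51595618643 / 48828125 * s ^ 3 * t ^ 4 +
      169265104967 / 97656250 * s ^ 4 * t ^ 3 + 52762384939 / 39062500 * s ^ 5 * t ^ 2 +
      4342389979 / 9765625 * s ^ 6 * t + 70070959 / 1953125 * s ^ 7 := by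
    positivity
  have e :
      11719635624 / 244140625 * t ^ 7 + 34025882244 / 244140625 * s * t ^ 6 +
      87081744426 / 244140625 * s ^ 2 * t ^ 5 + 51595618643 / 48828125 * s ^ 3 * t ^ 4 +
      169265104967 / 97656250 * s ^ 4 * t ^ 3 + 52762384939 / 39062500 * s ^ 5 * t ^ 2 +
      4342389979 / 9765625 * s ^ 6 * t + 70070959 / 1953125 * s ^ 7 =
      (103 / 100 - x ^ 2) *
      (x - ((12331 / 500000) + (-(35121 / 250000)) * x +
      (12871 / 25000) * x ^ 2 + (-(3929 / 31250)) * x ^ 3) -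
      ((-(35121 / 250000)) + 2 * (12871 / 25000) * x +
      3 * (-(3929 / 31250)) * x ^ 2) * (2 - x)) -
      ((12331 / 500000) + (-(35121 / 250000)) * x +
      (12871 / 25000) * x ^ 2 + (-(3929 / 31250)) * x ^ 3) ^ 2 * (2 - x) := by
    rw [hs, ht]
    ring
  rw [e] at h
  linarith

theorem cre_b_1_q_0 (x : ℝ) (h1 : 1 / 2 ≤ x) (h2 : x ≤ 3 / 4) :
    0 ≤
      (x - ((12331 / 500000) + (-(35121 / 250000)) * x +
      (12871 / 25000) * x ^ 2 + (-(3929 / 31250)) * x ^ 3) -
      ((-(35121 / 250000)) + 2 * (12871 / 25000) * x +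
      3 * (-(3929 / 31250)) * x ^ 2) * (2 - x)) := by
  obtain ⟨s, hs⟩ : ∃ s, s = x - 1 / 2 := ⟨_, rfl⟩
  obtain ⟨t, ht⟩ : ∃ t, t = 3 / 4 - x := ⟨_, rfl⟩
  have hs0 : 0 ≤ s := by linarith
  have ht0 : 0 ≤ t := by linarith
  have h : 0 ≤
      12496 / 15625 * t ^ 3 + 42802 / 15625 * s * t ^ 2 + 41547 / 6250 * s ^ 2 * t +
      27853 / 6250 * s ^ 3 := by
    positivity
  have e :
      12496 / 15625 * t ^ 3 + 42802 / 15625 * s * t ^ 2 + 41547 / 6250 * s ^ 2 * t +
      27853 / 6250 * s ^ 3 =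
      (x - ((12331 / 500000) + (-(35121 / 250000)) * x +
      (12871 / 25000) * x ^ 2 + (-(3929 / 31250)) * x ^ 3) -
      ((-(35121 / 250000)) + 2 * (12871 / 25000) * x +
      3 * (-(3929 / 31250)) * x ^ 2) * (2 - x)) -
      0 := by
    rw [hs, ht]
    ring
  rw [e] at h
  linarith

theorem cre_b_2_p_0 (x : ℝ) (h1 : 3 / 4 ≤ x) (h2 : x ≤ 7 / 8) :
    ((230093 / 400000) + (-(1159287 / 500000)) * x +
      (211669 / 62500) * x ^ 2 + (-(21684 / 15625)) * x ^ 3) ^ 2 * (2 - x) ≤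
      (103 / 100 - x ^ 2) *
      (x - ((230093 / 400000) + (-(1159287 / 500000)) * x +
      (211669 / 62500) * x ^ 2 + (-(21684 / 15625)) * x ^ 3) -
      ((-(1159287 / 500000)) + 2 * (211669 / 62500) * x +
      3 * (-(21684 / 15625)) * x ^ 2) * (2 - x)) := by
  obtain ⟨s, hs⟩ : ∃ s, s = x - 3 / 4 := ⟨_, rfl⟩
  obtain ⟨t, ht⟩ : ∃ t, t = 7 / 8 - x := ⟨_, rfl⟩
  have hs0 : 0 ≤ s := by linarith
  have ht0 : 0 ≤ t := by linarith
  have h : 0 ≤
      8969082752 / 1953125 * t ^ 7 + 96453933824 / 9765625 * s * t ^ 6 +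
      208288358264 / 9765625 * s ^ 2 * t ^ 5 + 3957590336156 / 48828125 * s ^ 3 * t ^ 4 +
      7209705889952 / 48828125 * s ^ 4 * t ^ 3 + 28904168656476 / 244140625 * s ^ 5 * t ^ 2 +
      9392519339264 / 244140625 * s ^ 6 * t + 666394602624 / 244140625 * s ^ 7 := by
    positivity
  have e :
      8969082752 / 1953125 * t ^ 7 + 96453933824 / 9765625 * s * t ^ 6 +
      208288358264 / 9765625 * s ^ 2 * t ^ 5 + 3957590336156 / 48828125 * s ^ 3 * t ^ 4 +
      7209705889952 / 48828125 * s ^ 4 * t ^ 3 + 28904168656476 / 244140625 * s ^ 5 * t ^ 2 +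
      9392519339264 / 244140625 * s ^ 6 * t + 666394602624 / 244140625 * s ^ 7 =
      (103 / 100 - x ^ 2) *
      (x - ((230093 / 400000) + (-(1159287 / 500000)) * x +
      (211669 / 62500) * x ^ 2 + (-(21684 / 15625)) * x ^ 3) -
      ((-(1159287 / 500000)) + 2 * (211669 / 62500) * x +
      3 * (-(21684 / 15625)) * x ^ 2) * (2 - x)) -
      ((230093 / 400000) + (-(1159287 / 500000)) * x +
      (211669 / 62500) * x ^ 2 + (-(21684 / 15625)) * x ^ 3) ^ 2 * (2 - x) := by
    rw [hs, ht]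
    ring
  rw [e] at h
  linarith

theorem cre_b_2_q_0 (x : ℝ) (h1 : 3 / 4 ≤ x) (h2 : x ≤ 7 / 8) :
    0 ≤
      (x - ((230093 / 400000) + (-(1159287 / 500000)) * x +
      (211669 / 62500) * x ^ 2 + (-(21684 / 15625)) * x ^ 3) -
      ((-(1159287 / 500000)) + 2 * (211669 / 62500) * x +
      3 * (-(21684 / 15625)) * x ^ 2) * (2 - x)) := by
  obtain ⟨s, hs⟩ : ∃ s, s = x - 3 / 4 := ⟨_, rfl⟩
  obtain ⟨t, ht⟩ : ∃ t, t = 7 / 8 - x := ⟨_, rfl⟩
  have hs0 : 0 ≤ s := by linarith
  have ht0 : 0 ≤ t := by linarith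
  have h : 0 ≤
      111412 / 3125 * t ^ 3 + 402132 / 3125 * s * t ^ 2 + 3033686 / 15625 * s ^ 2 * t +
      1536718 / 15625 * s ^ 3 := by
    positivity
  have e :
      111412 / 3125 * t ^ 3 + 402132 / 3125 * s * t ^ 2 + 3033686 / 15625 * s ^ 2 * t +
      1536718 / 15625 * s ^ 3 =
      (x - ((230093 / 400000) + (-(1159287 / 500000)) * x +
      (211669 / 62500) * x ^ 2 + (-(21684 / 15625)) * x ^ 3) -
      ((-(1159287 / 500000)) + 2 * (211669 / 62500) * x +
      3 * (-(21684 / 15625)) * x ^ 2) * (2 - x)) -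
      0 := by
    rw [hs, ht]
    ring
  rw [e] at h
  linarith

theorem cre_b_3_p_0 (x : ℝ) (h1 : 7 / 8 ≤ x) (h2 : x ≤ 15 / 16) :
    ((21468701 / 4000000) + (-(1868687 / 100000)) * x +
      (68823 / 3125) * x ^ 2 + (-(5288 / 625)) * x ^ 3) ^ 2 * (2 - x) ≤
      (103 / 100 - x ^ 2) *
      (x - ((21468701 / 4000000) + (-(1868687 / 100000)) * x +
      (68823 / 3125) * x ^ 2 + (-(5288 / 625)) * x ^ 3) -
      ((-(1868687 / 100000)) + 2 * (68823 / 3125) * x +
      3 * (-(5288 / 625)) * x ^ 2) * (2 - x)) := by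
  obtain ⟨s, hs⟩ : ∃ s, s = x - 7 / 8 := ⟨_, rfl⟩
  obtain ⟨t, ht⟩ : ∃ t, t = 15 / 16 - x := ⟨_, rfl⟩
  have hs0 : 0 ≤ s := by linarith
  have ht0 : 0 ≤ t := by linarith
  have h : 0 ≤
      85298509135872 / 244140625 * t ^ 7 + 24807495114752 / 48828125 * s * t ^ 6 +
      204774132693888 / 244140625 * s ^ 2 * t ^ 5 +
      265684559633088 / 48828125 * s ^ 3 * t ^ 4 +
      553351582086912 / 48828125 * s ^ 4 * t ^ 3 +
      2308578169842432 / 244140625 * s ^ 5 * t ^ 2 + 150707230881792 / 48828125 * s ^ 6 * t +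
      49345739931648 / 244140625 * s ^ 7 := by
    positivity
  have e :
      85298509135872 / 244140625 * t ^ 7 + 24807495114752 / 48828125 * s * t ^ 6 +
      204774132693888 / 244140625 * s ^ 2 * t ^ 5 +
      265684559633088 / 48828125 * s ^ 3 * t ^ 4 +
      553351582086912 / 48828125 * s ^ 4 * t ^ 3 +
      2308578169842432 / 244140625 * s ^ 5 * t ^ 2 + 150707230881792 / 48828125 * s ^ 6 * t +
      49345739931648 / 244140625 * s ^ 7 =
      (103 / 100 - x ^ 2) *
      (x - ((21468701 / 4000000) + (-(1868687 / 100000)) * x +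
      (68823 / 3125) * x ^ 2 + (-(5288 / 625)) * x ^ 3) -
      ((-(1868687 / 100000)) + 2 * (68823 / 3125) * x +
      3 * (-(5288 / 625)) * x ^ 2) * (2 - x)) -
      ((21468701 / 4000000) + (-(1868687 / 100000)) * x +
      (68823 / 3125) * x ^ 2 + (-(5288 / 625)) * x ^ 3) ^ 2 * (2 - x) := by
    rw [hs, ht]
    ring
  rw [e] at h
  linarith

theorem cre_b_3_q_0 (x : ℝ) (h1 : 7 / 8 ≤ x) (h2 : x ≤ 15 / 16) :
    0 ≤
      (x - ((21468701 / 4000000) + (-(1868687 / 100000)) * x +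
      (68823 / 3125) * x ^ 2 + (-(5288 / 625)) * x ^ 3) -
      ((-(1868687 / 100000)) + 2 * (68823 / 3125) * x +
      3 * (-(5288 / 625)) * x ^ 2) * (2 - x)) := by
  obtain ⟨s, hs⟩ : ∃ s, s = x - 7 / 8 := ⟨_, rfl⟩
  obtain ⟨t, ht⟩ : ∃ t, t = 15 / 16 - x := ⟨_, rfl⟩
  have hs0 : 0 ≤ s := by linarith
  have ht0 : 0 ≤ t := by linarith
  have h : 0 ≤
      12293744 / 15625 * t ^ 3 + 42557392 / 15625 * s * t ^ 2 +
      55325792 / 15625 * s ^ 2 * t + 24797744 / 15625 * s ^ 3 := by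
    positivity
  have e :
      12293744 / 15625 * t ^ 3 + 42557392 / 15625 * s * t ^ 2 +
      55325792 / 15625 * s ^ 2 * t + 24797744 / 15625 * s ^ 3 =
      (x - ((21468701 / 4000000) + (-(1868687 / 100000)) * x +
      (68823 / 3125) * x ^ 2 + (-(5288 / 625)) * x ^ 3) -
      ((-(1868687 / 100000)) + 2 * (68823 / 3125) * x +
      3 * (-(5288 / 625)) * x ^ 2) * (2 - x)) -
      0 := by
    rw [hs, ht]
    ring
  rw [e] at h
  linarith

theorem cre_b_4_p_0 (x : ℝ) (h1 : 15 / 16 ≤ x) (h2 : x ≤ 31 / 32) :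
    ((63901513 / 2000000) + (-(5183083 / 50000)) * x +
      (1758817 / 15625) * x ^ 2 + (-(634656 / 15625)) * x ^ 3) ^ 2 * (2 - x) ≤
      (103 / 100 - x ^ 2) *
      (x - ((63901513 / 2000000) + (-(5183083 / 50000)) * x +
      (1758817 / 15625) * x ^ 2 + (-(634656 / 15625)) * x ^ 3) -
      ((-(5183083 / 50000)) + 2 * (1758817 / 15625) * x +
      3 * (-(634656 / 15625)) * x ^ 2) * (2 - x)) := by
  obtain ⟨s, hs⟩ : ∃ s, s = x - 15 / 16 := ⟨_, rfl⟩
  obtain ⟨t, ht⟩ : ∃ t, t = 31 / 32 - x := ⟨_, rfl⟩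
  have hs0 : 0 ≤ s := by linarith
  have ht0 : 0 ≤ t := by linarith
  have h : 0 ≤
      6316254711250944 / 244140625 * t ^ 7 + 9774553753321472 / 244140625 * s * t ^ 6 +
      18180976235241472 / 244140625 * s ^ 2 * t ^ 5 +
      104952296685047808 / 244140625 * s ^ 3 * t ^ 4 +
      212640285764749312 / 244140625 * s ^ 4 * t ^ 3 +
      35203743646379008 / 48828125 * s ^ 5 * t ^ 2 +
      57441791756730368 / 244140625 * s ^ 6 * t + 3834142585946112 / 244140625 * s ^ 7 := by
    positivity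
  have e :
      6316254711250944 / 244140625 * t ^ 7 + 9774553753321472 / 244140625 * s * t ^ 6 +
      18180976235241472 / 244140625 * s ^ 2 * t ^ 5 +
      104952296685047808 / 244140625 * s ^ 3 * t ^ 4 +
      212640285764749312 / 244140625 * s ^ 4 * t ^ 3 +
      35203743646379008 / 48828125 * s ^ 5 * t ^ 2 +
      57441791756730368 / 244140625 * s ^ 6 * t + 3834142585946112 / 244140625 * s ^ 7 =
      (103 / 100 - x ^ 2) *
      (x - ((63901513 / 2000000) + (-(5183083 / 50000)) * x +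
      (1758817 / 15625) * x ^ 2 + (-(634656 / 15625)) * x ^ 3) -
      ((-(5183083 / 50000)) + 2 * (1758817 / 15625) * x +
      3 * (-(634656 / 15625)) * x ^ 2) * (2 - x)) -
      ((63901513 / 2000000) + (-(5183083 / 50000)) * x +
      (1758817 / 15625) * x ^ 2 + (-(634656 / 15625)) * x ^ 3) ^ 2 * (2 - x) := by
    rw [hs, ht]
    ring
  rw [e] at h
  linarith

theorem cre_b_4_q_0 (x : ℝ) (h1 : 15 / 16 ≤ x) (h2 : x ≤ 31 / 32) :
    0 ≤
      (x - ((63901513 / 2000000) + (-(5183083 / 50000)) * x +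
      (1758817 / 15625) * x ^ 2 + (-(634656 / 15625)) * x ^ 3) -
      ((-(5183083 / 50000)) + 2 * (1758817 / 15625) * x +
      3 * (-(634656 / 15625)) * x ^ 2) * (2 - x)) := by
  obtain ⟨s, hs⟩ : ∃ s, s = x - 15 / 16 := ⟨_, rfl⟩
  obtain ⟨t, ht⟩ : ∃ t, t = 31 / 32 - x := ⟨_, rfl⟩
  have hs0 : 0 ≤ s := by linarith
  have ht0 : 0 ≤ t := by linarith
  have h : 0 ≤
      198381952 / 15625 * t ^ 3 + 668054784 / 15625 * s * t ^ 2 +
      804861728 / 15625 * s ^ 2 * t + 333919584 / 15625 * s ^ 3 := by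
    positivity
  have e :
      198381952 / 15625 * t ^ 3 + 668054784 / 15625 * s * t ^ 2 +
      804861728 / 15625 * s ^ 2 * t + 333919584 / 15625 * s ^ 3 =
      (x - ((63901513 / 2000000) + (-(5183083 / 50000)) * x +
      (1758817 / 15625) * x ^ 2 + (-(634656 / 15625)) * x ^ 3) -
      ((-(5183083 / 50000)) + 2 * (1758817 / 15625) * x +
      3 * (-(634656 / 15625)) * x ^ 2) * (2 - x)) -
      0 := by
    rw [hs, ht]
    ring
  rw [e] at h
  linarith

theorem cre_b_5_p_0 (x : ℝ) (h1 : 31 / 32 ≤ x) (h2 : x ≤ 63 / 64) :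
    ((2114330201 / 16000000) + (-(206962487 / 500000)) * x +
      (1352556 / 3125) * x ^ 2 + (-(2356352 / 15625)) * x ^ 3) ^ 2 * (2 - x) ≤
      (103 / 100 - x ^ 2) *
      (x - ((2114330201 / 16000000) + (-(206962487 / 500000)) * x +
      (1352556 / 3125) * x ^ 2 + (-(2356352 / 15625)) * x ^ 3) -
      ((-(206962487 / 500000)) + 2 * (1352556 / 3125) * x +
      3 * (-(2356352 / 15625)) * x ^ 2) * (2 - x)) := by
  obtain ⟨s, hs⟩ : ∃ s, s = x - 31 / 32 := ⟨_, rfl⟩
  obtain ⟨t, ht⟩ : ∃ t, t = 63 / 64 - x := ⟨_, rfl⟩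
  have hs0 : 0 ≤ s := by linarith
  have ht0 : 0 ≤ t := by linarith
  have h : 0 ≤
      490770251001102336 / 244140625 * t ^ 7 + 1419249821182590976 / 244140625 * s * t ^ 6 +
      3585644912470884352 / 244140625 * s ^ 2 * t ^ 5 +
      2058388792230854656 / 48828125 * s ^ 3 * t ^ 4 +
      16522090229932949504 / 244140625 * s ^ 4 * t ^ 3 +
      12687093598215143424 / 244140625 * s ^ 5 * t ^ 2 +
      4127234249031942144 / 244140625 * s ^ 6 * t + 65491562855923712 / 48828125 * s ^ 7 := by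
    positivity
  have e :
      490770251001102336 / 244140625 * t ^ 7 + 1419249821182590976 / 244140625 * s * t ^ 6 +
      3585644912470884352 / 244140625 * s ^ 2 * t ^ 5 +
      2058388792230854656 / 48828125 * s ^ 3 * t ^ 4 +
      16522090229932949504 / 244140625 * s ^ 4 * t ^ 3 +
      12687093598215143424 / 244140625 * s ^ 5 * t ^ 2 +
      4127234249031942144 / 244140625 * s ^ 6 * t + 65491562855923712 / 48828125 * s ^ 7 =
      (103 / 100 - x ^ 2) *
      (x - ((2114330201 / 16000000) + (-(206962487 / 500000)) * x +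
      (1352556 / 3125) * x ^ 2 + (-(2356352 / 15625)) * x ^ 3) -
      ((-(206962487 / 500000)) + 2 * (1352556 / 3125) * x +
      3 * (-(2356352 / 15625)) * x ^ 2) * (2 - x)) -
      ((2114330201 / 16000000) + (-(206962487 / 500000)) * x +
      (1352556 / 3125) * x ^ 2 + (-(2356352 / 15625)) * x ^ 3) ^ 2 * (2 - x) := by
    rw [hs, ht]
    ring
  rw [e] at h
  linarith

theorem cre_b_5_q_0 (x : ℝ) (h1 : 31 / 32 ≤ x) (h2 : x ≤ 63 / 64) :
    0 ≤
      (x - ((2114330201 / 16000000) + (-(206962487 / 500000)) * x +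
      (1352556 / 3125) * x ^ 2 + (-(2356352 / 15625)) * x ^ 3) -
      ((-(206962487 / 500000)) + 2 * (1352556 / 3125) * x +
      3 * (-(2356352 / 15625)) * x ^ 2) * (2 - x)) := by
  obtain ⟨s, hs⟩ : ∃ s, s = x - 31 / 32 := ⟨_, rfl⟩
  obtain ⟨t, ht⟩ : ∃ t, t = 63 / 64 - x := ⟨_, rfl⟩
  have hs0 : 0 ≤ s := by linarith
  have ht0 : 0 ≤ t := by linarith
  have h : 0 ≤
      2671356672 / 15625 * t ^ 3 + 1759851776 / 3125 * s * t ^ 2 +
      10045541888 / 15625 * s ^ 2 * t + 3912926976 / 15625 * s ^ 3 := by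
    positivity
  have e :
      2671356672 / 15625 * t ^ 3 + 1759851776 / 3125 * s * t ^ 2 +
      10045541888 / 15625 * s ^ 2 * t + 3912926976 / 15625 * s ^ 3 =
      (x - ((2114330201 / 16000000) + (-(206962487 / 500000)) * x +
      (1352556 / 3125) * x ^ 2 + (-(2356352 / 15625)) * x ^ 3) -
      ((-(206962487 / 500000)) + 2 * (1352556 / 3125) * x +
      3 * (-(2356352 / 15625)) * x ^ 2) * (2 - x)) -
      0 := by
    rw [hs, ht]
    ring
  rw [e] at h
  linarith

theorem cre_b_6_p_0 (x : ℝ) (h1 : 63 / 64 ≤ x) (h2 : x ≤ 127 / 128) :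
    ((6093022499 / 16000000) + (-(292989307 / 250000)) * x +
      (18797992 / 15625) * x ^ 2 + (-(6432768 / 15625)) * x ^ 3) ^ 2 * (2 - x) ≤
      (103 / 100 - x ^ 2) *
      (x - ((6093022499 / 16000000) + (-(292989307 / 250000)) * x +
      (18797992 / 15625) * x ^ 2 + (-(6432768 / 15625)) * x ^ 3) -
      ((-(292989307 / 250000)) + 2 * (18797992 / 15625) * x +
      3 * (-(6432768 / 15625)) * x ^ 2) * (2 - x)) := by
  obtain ⟨s, hs⟩ : ∃ s, s = x - 63 / 64 := ⟨_, rfl⟩
  obtain ⟨t, ht⟩ : ∃ t, t = 127 / 128 - x := ⟨_, rfl⟩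
  have hs0 : 0 ≤ s := by linarith
  have ht0 : 0 ≤ t := by linarith
  have h : 0 ≤
      8382920045558235136 / 48828125 * t ^ 7 +
      201115364949097447424 / 244140625 * s * t ^ 6 +
      561220057869838188544 / 244140625 * s ^ 2 * t ^ 5 +
      1103473282904220499968 / 244140625 * s ^ 3 * t ^ 4 +
      54276497413909774336 / 9765625 * s ^ 4 * t ^ 3 +
      925536384855720329216 / 244140625 * s ^ 5 * t ^ 2 +
      301413241912459001856 / 244140625 * s ^ 6 * t + 31335344029298589696 / 244140625 * s ^ 7 := by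
    positivity
  have e :
      8382920045558235136 / 48828125 * t ^ 7 +
      201115364949097447424 / 244140625 * s * t ^ 6 +
      561220057869838188544 / 244140625 * s ^ 2 * t ^ 5 +
      1103473282904220499968 / 244140625 * s ^ 3 * t ^ 4 +
      54276497413909774336 / 9765625 * s ^ 4 * t ^ 3 +
      925536384855720329216 / 244140625 * s ^ 5 * t ^ 2 +
      301413241912459001856 / 244140625 * s ^ 6 * t + 31335344029298589696 / 244140625 * s ^ 7 =
      (103 / 100 - x ^ 2) *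
      (x - ((6093022499 / 16000000) + (-(292989307 / 250000)) * x +
      (18797992 / 15625) * x ^ 2 + (-(6432768 / 15625)) * x ^ 3) -
      ((-(292989307 / 250000)) + 2 * (18797992 / 15625) * x +
      3 * (-(6432768 / 15625)) * x ^ 2) * (2 - x)) -
      ((6093022499 / 16000000) + (-(292989307 / 250000)) * x +
      (18797992 / 15625) * x ^ 2 + (-(6432768 / 15625)) * x ^ 3) ^ 2 * (2 - x) := by
    rw [hs, ht]
    ring
  rw [e] at h
  linarith

theorem cre_b_6_q_0 (x : ℝ) (h1 : 63 / 64 ≤ x) (h2 : x ≤ 127 / 128) :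
    0 ≤
      (x - ((6093022499 / 16000000) + (-(292989307 / 250000)) * x +
      (18797992 / 15625) * x ^ 2 + (-(6432768 / 15625)) * x ^ 3) -
      ((-(292989307 / 250000)) + 2 * (18797992 / 15625) * x +
      3 * (-(6432768 / 15625)) * x ^ 2) * (2 - x)) := by
  obtain ⟨s, hs⟩ : ∃ s, s = x - 63 / 64 := ⟨_, rfl⟩
  obtain ⟨t, ht⟩ : ∃ t, t = 127 / 128 - x := ⟨_, rfl⟩
  have hs0 : 0 ≤ s := by linarith
  have ht0 : 0 ≤ t := by linarith
  have h : 0 ≤
      31303415808 / 15625 * t ^ 3 + 100781512704 / 15625 * s * t ^ 2 +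
      110136114176 / 15625 * s ^ 2 * t + 40645151744 / 15625 * s ^ 3 := by
    positivity
  have e :
      31303415808 / 15625 * t ^ 3 + 100781512704 / 15625 * s * t ^ 2 +
      110136114176 / 15625 * s ^ 2 * t + 40645151744 / 15625 * s ^ 3 =
      (x - ((6093022499 / 16000000) + (-(292989307 / 250000)) * x +
      (18797992 / 15625) * x ^ 2 + (-(6432768 / 15625)) * x ^ 3) -
      ((-(292989307 / 250000)) + 2 * (18797992 / 15625) * x +
      3 * (-(6432768 / 15625)) * x ^ 2) * (2 - x)) -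
      0 := by
    rw [hs, ht]
    ring
  rw [e] at h
  linarith

theorem cre_b_7_p_0 (x : ℝ) (h1 : 127 / 128 ≤ x) (h2 : x ≤ 255 / 256) :
    ((266436249 / 250000) + (-(1620737657 / 500000)) * x +
      (10273184 / 3125) * x ^ 2 + (-(17366528 / 15625)) * x ^ 3) ^ 2 * (2 - x) ≤
      (103 / 100 - x ^ 2) *
      (x - ((266436249 / 250000) + (-(1620737657 / 500000)) * x +
      (10273184 / 3125) * x ^ 2 + (-(17366528 / 15625)) * x ^ 3) -
      ((-(1620737657 / 500000)) + 2 * (10273184 / 3125) * x +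
      3 * (-(17366528 / 15625)) * x ^ 2) * (2 - x)) := by
  obtain ⟨s, hs⟩ : ∃ s, s = x - 127 / 128 := ⟨_, rfl⟩
  obtain ⟨t, ht⟩ : ∃ t, t = 255 / 256 - x := ⟨_, rfl⟩
  have hs0 : 0 ≤ s := by linarith
  have ht0 : 0 ≤ t := by linarith
  have h : 0 ≤
      4010924035750219481088 / 244140625 * t ^ 7 +
      2714269409866602774528 / 48828125 * s * t ^ 6 +
      3456663580556398690304 / 48828125 * s ^ 2 * t ^ 5 +
      16652333795619255615488 / 244140625 * s ^ 3 * t ^ 4 +
      24816859902211686137856 / 244140625 * s ^ 4 * t ^ 3 +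
      28028265311037419421696 / 244140625 * s ^ 5 * t ^ 2 +
      15150235722246349389824 / 244140625 * s ^ 6 * t +
      3009391708596854325248 / 244140625 * s ^ 7 := by
    positivity
  have e :
      4010924035750219481088 / 244140625 * t ^ 7 +
      2714269409866602774528 / 48828125 * s * t ^ 6 +
      3456663580556398690304 / 48828125 * s ^ 2 * t ^ 5 +
      16652333795619255615488 / 244140625 * s ^ 3 * t ^ 4 +
      24816859902211686137856 / 244140625 * s ^ 4 * t ^ 3 +
      28028265311037419421696 / 244140625 * s ^ 5 * t ^ 2 +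
      15150235722246349389824 / 244140625 * s ^ 6 * t +
      3009391708596854325248 / 244140625 * s ^ 7 =
      (103 / 100 - x ^ 2) *
      (x - ((266436249 / 250000) + (-(1620737657 / 500000)) * x +
      (10273184 / 3125) * x ^ 2 + (-(17366528 / 15625)) * x ^ 3) -
      ((-(1620737657 / 500000)) + 2 * (10273184 / 3125) * x +
      3 * (-(17366528 / 15625)) * x ^ 2) * (2 - x)) -
      ((266436249 / 250000) + (-(1620737657 / 500000)) * x +
      (10273184 / 3125) * x ^ 2 + (-(17366528 / 15625)) * x ^ 3) ^ 2 * (2 - x) := by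
    rw [hs, ht]
    ring
  rw [e] at h
  linarith

theorem cre_b_7_p_1 (x : ℝ) (h1 : 255 / 256 ≤ x) (h2 : x ≤ 1) :
    ((266436249 / 250000) + (-(1620737657 / 500000)) * x +
      (10273184 / 3125) * x ^ 2 + (-(17366528 / 15625)) * x ^ 3) ^ 2 * (2 - x) ≤
      (103 / 100 - x ^ 2) *
      (x - ((266436249 / 250000) + (-(1620737657 / 500000)) * x +
      (10273184 / 3125) * x ^ 2 + (-(17366528 / 15625)) * x ^ 3) -
      ((-(1620737657 / 500000)) + 2 * (10273184 / 3125) * x +
      3 * (-(17366528 / 15625)) * x ^ 2) * (2 - x)) := by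
  obtain ⟨s, hs⟩ : ∃ s, s = x - 255 / 256 := ⟨_, rfl⟩
  obtain ⟨t, ht⟩ : ∃ t, t = 1 - x := ⟨_, rfl⟩
  have hs0 : 0 ≤ s := by linarith
  have ht0 : 0 ≤ t := by linarith
  have h : 0 ≤
      3009391708596854325248 / 244140625 * t ^ 7 +
      26981248198109611163648 / 244140625 * s * t ^ 6 +
      19802868033243398012928 / 48828125 * s ^ 2 * t ^ 5 +
      189081328280500755759104 / 244140625 * s ^ 3 * t ^ 4 +
      40093941654849012629504 / 48828125 * s ^ 4 * t ^ 3 +
      23108385387761775935488 / 48828125 * s ^ 5 * t ^ 2 +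
      1270000631117894385664 / 9765625 * s ^ 6 * t + 105558112447332614144 / 9765625 * s ^ 7 := by
    positivity
  have e :
      3009391708596854325248 / 244140625 * t ^ 7 +
      26981248198109611163648 / 244140625 * s * t ^ 6 +
      19802868033243398012928 / 48828125 * s ^ 2 * t ^ 5 +
      189081328280500755759104 / 244140625 * s ^ 3 * t ^ 4 +
      40093941654849012629504 / 48828125 * s ^ 4 * t ^ 3 +
      23108385387761775935488 / 48828125 * s ^ 5 * t ^ 2 +
      1270000631117894385664 / 9765625 * s ^ 6 * t + 105558112447332614144 / 9765625 * s ^ 7 =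
      (103 / 100 - x ^ 2) *
      (x - ((266436249 / 250000) + (-(1620737657 / 500000)) * x +
      (10273184 / 3125) * x ^ 2 + (-(17366528 / 15625)) * x ^ 3) -
      ((-(1620737657 / 500000)) + 2 * (10273184 / 3125) * x +
      3 * (-(17366528 / 15625)) * x ^ 2) * (2 - x)) -
      ((266436249 / 250000) + (-(1620737657 / 500000)) * x +
      (10273184 / 3125) * x ^ 2 + (-(17366528 / 15625)) * x ^ 3) ^ 2 * (2 - x) := by
    rw [hs, ht]
    ring
  rw [e] at h
  linarith

theorem cre_b_7_q_0 (x : ℝ) (h1 : 127 / 128 ≤ x) (h2 : x ≤ 1) :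
    0 ≤
      (x - ((266436249 / 250000) + (-(1620737657 / 500000)) * x +
      (10273184 / 3125) * x ^ 2 + (-(17366528 / 15625)) * x ^ 3) -
      ((-(1620737657 / 500000)) + 2 * (10273184 / 3125) * x +
      3 * (-(17366528 / 15625)) * x ^ 2) * (2 - x)) := by
  obtain ⟨s, hs⟩ : ∃ s, s = x - 127 / 128 := ⟨_, rfl⟩
  obtain ⟨t, ht⟩ : ∃ t, t = 1 - x := ⟨_, rfl⟩
  have hs0 : 0 ≤ s := by linarith
  have ht0 : 0 ≤ t := by linarith
  have h : 0 ≤
      40645151744 / 15625 * t ^ 3 + 132978282496 / 15625 * s * t ^ 2 +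
      150700146688 / 15625 * s ^ 2 * t + 11666456576 / 3125 * s ^ 3 := by
    positivity
  have e :
      40645151744 / 15625 * t ^ 3 + 132978282496 / 15625 * s * t ^ 2 +
      150700146688 / 15625 * s ^ 2 * t + 11666456576 / 3125 * s ^ 3 =
      (x - ((266436249 / 250000) + (-(1620737657 / 500000)) * x +
      (10273184 / 3125) * x ^ 2 + (-(17366528 / 15625)) * x ^ 3) -
      ((-(1620737657 / 500000)) + 2 * (10273184 / 3125) * x +
      3 * (-(17366528 / 15625)) * x ^ 2) * (2 - x)) -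
      0 := by
    rw [hs, ht]
    ring
  rw [e] at h
  linarith

/-- the pair `(103 / 100, 231 / 200)` -/
theorem cre_b : Cre (103 / 100) (231 / 200) := by
  have h0 := Up.zero (103 / 100)
  have h1 : Up (103 / 100) (1 / 2) (33707 / 500000) := by
    have h := h0.step (β := 1 / 2) (a := (0))
      (b := (0)) (c := (15553 / 62500))
      (d := (2601 / 62500)) (by norm_num) (by norm_num) (by norm_num) (by norm_num)
      (fun x i0 i1 => by
      exact cre_b_0_p_0 x (by linarith) (by linarith))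
      (fun x i0 i1 => by
      exact cre_b_0_q_0 x (by linarith) (by linarith))
    norm_num at h ⊢
    exact h
  have h2 : Up (103 / 100) (3 / 4) (31171 / 200000) := by
    have h := h1.step (β := 3 / 4) (a := (12331 / 500000))
      (b := (-(35121 / 250000))) (c := (12871 / 25000))
      (d := (-(3929 / 31250))) (by norm_num) (by norm_num) (by norm_num) (by norm_num)
      (fun x i0 i1 => by
      exact cre_b_1_p_0 x (by linarith) (by linarith))
      (fun x i0 i1 => by
      exact cre_b_1_q_0 x (by linarith) (by linarith))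
    norm_num at h ⊢
    exact h
  have h3 : Up (103 / 100) (7 / 8) (52431 / 250000) := by
    have h := h2.step (β := 7 / 8) (a := (230093 / 400000))
      (b := (-(1159287 / 500000))) (c := (211669 / 62500))
      (d := (-(21684 / 15625))) (by norm_num) (by norm_num) (by norm_num) (by norm_num)
      (fun x i0 i1 => by
      exact cre_b_2_p_0 x (by linarith) (by linarith))
      (fun x i0 i1 => by
      exact cre_b_2_q_0 x (by linarith) (by linarith))
    norm_num at h ⊢
    exact h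
  have h4 : Up (103 / 100) (15 / 16) (233219 / 1000000) := by
    have h := h3.step (β := 15 / 16) (a := (21468701 / 4000000))
      (b := (-(1868687 / 100000))) (c := (68823 / 3125))
      (d := (-(5288 / 625))) (by norm_num) (by norm_num) (by norm_num) (by norm_num)
      (fun x i0 i1 => by
      exact cre_b_3_p_0 x (by linarith) (by linarith))
      (fun x i0 i1 => by
      exact cre_b_3_q_0 x (by linarith) (by linarith))
    norm_num at h ⊢
    exact h
  have h5 : Up (103 / 100) (31 / 32) (239663 / 1000000) := by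
    have h := h4.step (β := 31 / 32) (a := (63901513 / 2000000))
      (b := (-(5183083 / 50000))) (c := (1758817 / 15625))
      (d := (-(634656 / 15625))) (by norm_num) (by norm_num) (by norm_num) (by norm_num)
      (fun x i0 i1 => by
      exact cre_b_4_p_0 x (by linarith) (by linarith))
      (fun x i0 i1 => by
      exact cre_b_4_q_0 x (by linarith) (by linarith))
    norm_num at h ⊢
    exact h
  have h6 : Up (103 / 100) (63 / 64) (238919 / 1000000) := by
    have h := h5.step (β := 63 / 64) (a := (2114330201 / 16000000))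
      (b := (-(206962487 / 500000))) (c := (1352556 / 3125))
      (d := (-(2356352 / 15625))) (by norm_num) (by norm_num) (by norm_num) (by norm_num)
      (fun x i0 i1 => by
      exact cre_b_5_p_0 x (by linarith) (by linarith))
      (fun x i0 i1 => by
      exact cre_b_5_q_0 x (by linarith) (by linarith))
    norm_num at h ⊢
    exact h
  have h7 : Up (103 / 100) (127 / 128) (59083 / 250000) := by
    have h := h6.step (β := 127 / 128) (a := (6093022499 / 16000000))
      (b := (-(292989307 / 250000))) (c := (18797992 / 15625))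
      (d := (-(6432768 / 15625))) (by norm_num) (by norm_num) (by norm_num) (by norm_num)
      (fun x i0 i1 => by
      exact cre_b_6_p_0 x (by linarith) (by linarith))
      (fun x i0 i1 => by
      exact cre_b_6_q_0 x (by linarith) (by linarith))
    norm_num at h ⊢
    exact h
  have h8 : Up (103 / 100) (1) (23077 / 100000) := by
    have h := h7.step (β := 1) (a := (266436249 / 250000))
      (b := (-(1620737657 / 500000))) (c := (10273184 / 3125))
      (d := (-(17366528 / 15625))) (by norm_num) (by norm_num) (by norm_num) (by norm_num)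
      (fun x i0 i1 => by
      rcases le_total x (255 / 256) with i2 | i2
      · exact cre_b_7_p_0 x (by linarith) i2
      exact cre_b_7_p_1 x (by linarith) (by linarith))
      (fun x i0 i1 => by
      exact cre_b_7_q_0 x (by linarith) (by linarith))
    norm_num at h ⊢
    exact h
  exact Up.cre (by simpa using h8) (by norm_num)

theorem cre_c_0_p_0 (x : ℝ) (h1 : 0 ≤ x) (h2 : x ≤ 1 / 2) :
    ((0) + (0) * x +
      (31089 / 125000) * x ^ 2 + (656 / 15625) * x ^ 3) ^ 2 * (2 - x) ≤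
      (21 / 20 - x ^ 2) *
      (x - ((0) + (0) * x +
      (31089 / 125000) * x ^ 2 + (656 / 15625) * x ^ 3) -
      ((0) + 2 * (31089 / 125000) * x +
      3 * (656 / 15625) * x ^ 2) * (2 - x)) := by
  obtain ⟨s, hs⟩ : ∃ s, s = x - 0 := ⟨_, rfl⟩
  obtain ⟨t, ht⟩ : ∃ t, t = 1 / 2 - x := ⟨_, rfl⟩
  have hs0 : 0 ≤ s := by linarith
  have ht0 : 0 ≤ t := by linarith
  have h : 0 ≤
      27048 / 78125 * s * t ^ 6 + 153909 / 78125 * s ^ 2 * t ^ 5 +
      467593 / 78125 * s ^ 3 * t ^ 4 + 9961436579 / 976562500 * s ^ 4 * t ^ 3 +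
      34929744581 / 3906250000 * s ^ 5 * t ^ 2 + 6806806891 / 1953125000 * s ^ 6 * t +
      1499900893 / 3906250000 * s ^ 7 := by
    positivity
  have e :
      27048 / 78125 * s * t ^ 6 + 153909 / 78125 * s ^ 2 * t ^ 5 +
      467593 / 78125 * s ^ 3 * t ^ 4 + 9961436579 / 976562500 * s ^ 4 * t ^ 3 +
      34929744581 / 3906250000 * s ^ 5 * t ^ 2 + 6806806891 / 1953125000 * s ^ 6 * t +
      1499900893 / 3906250000 * s ^ 7 =
      (21 / 20 - x ^ 2) *
      (x - ((0) + (0) * x +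
      (31089 / 125000) * x ^ 2 + (656 / 15625) * x ^ 3) -
      ((0) + 2 * (31089 / 125000) * x +
      3 * (656 / 15625) * x ^ 2) * (2 - x)) -
      ((0) + (0) * x +
      (31089 / 125000) * x ^ 2 + (656 / 15625) * x ^ 3) ^ 2 * (2 - x) := by
    rw [hs, ht]
    ring
  rw [e] at h
  linarith

theorem cre_c_0_q_0 (x : ℝ) (h1 : 0 ≤ x) (h2 : x ≤ 1 / 2) :
    0 ≤
      (x - ((0) + (0) * x +
      (31089 / 125000) * x ^ 2 + (656 / 15625) * x ^ 3) -
      ((0) + 2 * (31089 / 125000) * x +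
      3 * (656 / 15625) * x ^ 2) * (2 - x)) := by
  obtain ⟨s, hs⟩ : ∃ s, s = x - 0 := ⟨_, rfl⟩
  obtain ⟨t, ht⟩ : ∃ t, t = 1 / 2 - x := ⟨_, rfl⟩
  have hs0 : 0 ≤ s := by linarith
  have ht0 : 0 ≤ t := by linarith
  have h : 0 ≤
      322 / 15625 * s * t ^ 2 + 2177 / 62500 * s ^ 2 * t + 6137 / 62500 * s ^ 3 := by
    positivity
  have e :
      322 / 15625 * s * t ^ 2 + 2177 / 62500 * s ^ 2 * t + 6137 / 62500 * s ^ 3 =
      (x - ((0) + (0) * x +
      (31089 / 125000) * x ^ 2 + (656 / 15625) * x ^ 3) -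
      ((0) + 2 * (31089 / 125000) * x +
      3 * (656 / 15625) * x ^ 2) * (2 - x)) -
      0 := by
    rw [hs, ht]
    ring
  rw [e] at h
  linarith

theorem cre_c_1_p_0 (x : ℝ) (h1 : 1 / 2 ≤ x) (h2 : x ≤ 3 / 4) :
    ((2871 / 125000) + (-(16367 / 125000)) * x +
      (12421 / 25000) * x ^ 2 + (-(3571 / 31250)) * x ^ 3) ^ 2 * (2 - x) ≤
      (21 / 20 - x ^ 2) *
      (x - ((2871 / 125000) + (-(16367 / 125000)) * x +
      (12421 / 25000) * x ^ 2 + (-(3571 / 31250)) * x ^ 3) -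
      ((-(16367 / 125000)) + 2 * (12421 / 25000) * x +
      3 * (-(3571 / 31250)) * x ^ 2) * (2 - x)) := by
  obtain ⟨s, hs⟩ : ∃ s, s = x - 1 / 2 := ⟨_, rfl⟩
  obtain ⟨t, ht⟩ : ∃ t, t = 3 / 4 - x := ⟨_, rfl⟩
  have hs0 : 0 ≤ s := by linarith
  have ht0 : 0 ≤ t := by linarith
  have h : 0 ≤
      11999207144 / 244140625 * t ^ 7 + 38551619884 / 244140625 * s * t ^ 6 +
      101810503356 / 244140625 * s ^ 2 * t ^ 5 + 55472075818 / 48828125 * s ^ 3 * t ^ 4 +
      173790204353 / 97656250 * s ^ 4 * t ^ 3 + 53211269483 / 39062500 * s ^ 5 * t ^ 2 +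
      4373073774 / 9765625 * s ^ 6 * t + 73062564 / 1953125 * s ^ 7 := by
    positivity
  have e :
      11999207144 / 244140625 * t ^ 7 + 38551619884 / 244140625 * s * t ^ 6 +
      101810503356 / 244140625 * s ^ 2 * t ^ 5 + 55472075818 / 48828125 * s ^ 3 * t ^ 4 +
      173790204353 / 97656250 * s ^ 4 * t ^ 3 + 53211269483 / 39062500 * s ^ 5 * t ^ 2 +
      4373073774 / 9765625 * s ^ 6 * t + 73062564 / 1953125 * s ^ 7 =
      (21 / 20 - x ^ 2) *
      (x - ((2871 / 125000) + (-(16367 / 125000)) * x +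
      (12421 / 25000) * x ^ 2 + (-(3571 / 31250)) * x ^ 3) -
      ((-(16367 / 125000)) + 2 * (12421 / 25000) * x +
      3 * (-(3571 / 31250)) * x ^ 2) * (2 - x)) -
      ((2871 / 125000) + (-(16367 / 125000)) * x +
      (12421 / 25000) * x ^ 2 + (-(3571 / 31250)) * x ^ 3) ^ 2 * (2 - x) := by
    rw [hs, ht]
    ring
  rw [e] at h
  linarith

theorem cre_c_1_q_0 (x : ℝ) (h1 : 1 / 2 ≤ x) (h2 : x ≤ 3 / 4) :
    0 ≤
      (x - ((2871 / 125000) + (-(16367 / 125000)) * x +
      (12421 / 25000) * x ^ 2 + (-(3571 / 31250)) * x ^ 3) -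
      ((-(16367 / 125000)) + 2 * (12421 / 25000) * x +
      3 * (-(3571 / 31250)) * x ^ 2) * (2 - x)) := by
  obtain ⟨s, hs⟩ : ∃ s, s = x - 1 / 2 := ⟨_, rfl⟩
  obtain ⟨t, ht⟩ : ∃ t, t = 3 / 4 - x := ⟨_, rfl⟩
  have hs0 : 0 ≤ s := by linarith
  have ht0 : 0 ≤ t := by linarith
  have h : 0 ≤
      12274 / 15625 * t ^ 3 + 42748 / 15625 * s * t ^ 2 + 40461 / 6250 * s ^ 2 * t +
      26843 / 6250 * s ^ 3 := by
    positivity
  have e :
      12274 / 15625 * t ^ 3 + 42748 / 15625 * s * t ^ 2 + 40461 / 6250 * s ^ 2 * t +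
      26843 / 6250 * s ^ 3 =
      (x - ((2871 / 125000) + (-(16367 / 125000)) * x +
      (12421 / 25000) * x ^ 2 + (-(3571 / 31250)) * x ^ 3) -
      ((-(16367 / 125000)) + 2 * (12421 / 25000) * x +
      3 * (-(3571 / 31250)) * x ^ 2) * (2 - x)) -
      0 := by
    rw [hs, ht]
    ring
  rw [e] at h
  linarith

theorem cre_c_2_p_0 (x : ℝ) (h1 : 3 / 4 ≤ x) (h2 : x ≤ 7 / 8) :
    ((201609 / 400000) + (-(1018067 / 500000)) * x +
      (94117 / 31250) * x ^ 2 + (-(19074 / 15625)) * x ^ 3) ^ 2 * (2 - x) ≤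
      (21 / 20 - x ^ 2) *
      (x - ((201609 / 400000) + (-(1018067 / 500000)) * x +
      (94117 / 31250) * x ^ 2 + (-(19074 / 15625)) * x ^ 3) -
      ((-(1018067 / 500000)) + 2 * (94117 / 31250) * x +
      3 * (-(19074 / 15625)) * x ^ 2) * (2 - x)) := by
  obtain ⟨s, hs⟩ : ∃ s, s = x - 3 / 4 := ⟨_, rfl⟩
  obtain ⟨t, ht⟩ : ∃ t, t = 7 / 8 - x := ⟨_, rfl⟩
  have hs0 : 0 ≤ s := by linarith
  have ht0 : 0 ≤ t := by linarith
  have h : 0 ≤
      9352008192 / 1953125 * t ^ 7 + 131980508544 / 9765625 * s * t ^ 6 +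
      63995292152 / 1953125 * s ^ 2 * t ^ 5 + 4616971810956 / 48828125 * s ^ 3 * t ^ 4 +
      7480616929424 / 48828125 * s ^ 4 * t ^ 3 + 28786353317936 / 244140625 * s ^ 5 * t ^ 2 +
      9314998185344 / 244140625 * s ^ 6 * t + 716134106624 / 244140625 * s ^ 7 := by
    positivity
  have e :
      9352008192 / 1953125 * t ^ 7 + 131980508544 / 9765625 * s * t ^ 6 +
      63995292152 / 1953125 * s ^ 2 * t ^ 5 + 4616971810956 / 48828125 * s ^ 3 * t ^ 4 +
      7480616929424 / 48828125 * s ^ 4 * t ^ 3 + 28786353317936 / 244140625 * s ^ 5 * t ^ 2 +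
      9314998185344 / 244140625 * s ^ 6 * t + 716134106624 / 244140625 * s ^ 7 =
      (21 / 20 - x ^ 2) *
      (x - ((201609 / 400000) + (-(1018067 / 500000)) * x +
      (94117 / 31250) * x ^ 2 + (-(19074 / 15625)) * x ^ 3) -
      ((-(1018067 / 500000)) + 2 * (94117 / 31250) * x +
      3 * (-(19074 / 15625)) * x ^ 2) * (2 - x)) -
      ((201609 / 400000) + (-(1018067 / 500000)) * x +
      (94117 / 31250) * x ^ 2 + (-(19074 / 15625)) * x ^ 3) ^ 2 * (2 - x) := by
    rw [hs, ht]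
    ring
  rw [e] at h
  linarith

theorem cre_c_2_q_0 (x : ℝ) (h1 : 3 / 4 ≤ x) (h2 : x ≤ 7 / 8) :
    0 ≤
      (x - ((201609 / 400000) + (-(1018067 / 500000)) * x +
      (94117 / 31250) * x ^ 2 + (-(19074 / 15625)) * x ^ 3) -
      ((-(1018067 / 500000)) + 2 * (94117 / 31250) * x +
      3 * (-(19074 / 15625)) * x ^ 2) * (2 - x)) := by
  obtain ⟨s, hs⟩ : ∃ s, s = x - 3 / 4 := ⟨_, rfl⟩
  obtain ⟨t, ht⟩ : ∃ t, t = 7 / 8 - x := ⟨_, rfl⟩
  have hs0 : 0 ≤ s := by linarith
  have ht0 : 0 ≤ t := by linarith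
  have h : 0 ≤
      107372 / 3125 * t ^ 3 + 389572 / 3125 * s * t ^ 2 + 2890496 / 15625 * s ^ 2 * t +
      1441348 / 15625 * s ^ 3 := by
    positivity
  have e :
      107372 / 3125 * t ^ 3 + 389572 / 3125 * s * t ^ 2 + 2890496 / 15625 * s ^ 2 * t +
      1441348 / 15625 * s ^ 3 =
      (x - ((201609 / 400000) + (-(1018067 / 500000)) * x +
      (94117 / 31250) * x ^ 2 + (-(19074 / 15625)) * x ^ 3) -
      ((-(1018067 / 500000)) + 2 * (94117 / 31250) * x +
      3 * (-(19074 / 15625)) * x ^ 2) * (2 - x)) -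
      0 := by
    rw [hs, ht]
    ring
  rw [e] at h
  linarith

theorem cre_c_3_p_0 (x : ℝ) (h1 : 7 / 8 ≤ x) (h2 : x ≤ 15 / 16) :
    ((1678077 / 400000) + (-(732821 / 50000)) * x +
      (271793 / 15625) * x ^ 2 + (-(104448 / 15625)) * x ^ 3) ^ 2 * (2 - x) ≤
      (21 / 20 - x ^ 2) *
      (x - ((1678077 / 400000) + (-(732821 / 50000)) * x +
      (271793 / 15625) * x ^ 2 + (-(104448 / 15625)) * x ^ 3) -
      ((-(732821 / 50000)) + 2 * (271793 / 15625) * x +
      3 * (-(104448 / 15625)) * x ^ 2) * (2 - x)) := by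
  obtain ⟨s, hs⟩ : ∃ s, s = x - 7 / 8 := ⟨_, rfl⟩
  obtain ⟨t, ht⟩ : ∃ t, t = 15 / 16 - x := ⟨_, rfl⟩
  have hs0 : 0 ≤ s := by linarith
  have ht0 : 0 ≤ t := by linarith
  have h : 0 ≤
      91665165647872 / 244140625 * t ^ 7 + 52206218928128 / 48828125 * s * t ^ 6 +
      636184501505536 / 244140625 * s ^ 2 * t ^ 5 +
      1818937449673472 / 244140625 * s ^ 3 * t ^ 4 +
      586147625014272 / 48828125 * s ^ 4 * t ^ 3 +
      450054134094592 / 48828125 * s ^ 5 * t ^ 2 + 29099850442752 / 9765625 * s ^ 6 * t +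
      2234229915648 / 9765625 * s ^ 7 := by
    positivity
  have e :
      91665165647872 / 244140625 * t ^ 7 + 52206218928128 / 48828125 * s * t ^ 6 +
      636184501505536 / 244140625 * s ^ 2 * t ^ 5 +
      1818937449673472 / 244140625 * s ^ 3 * t ^ 4 +
      586147625014272 / 48828125 * s ^ 4 * t ^ 3 +
      450054134094592 / 48828125 * s ^ 5 * t ^ 2 + 29099850442752 / 9765625 * s ^ 6 * t +
      2234229915648 / 9765625 * s ^ 7 =
      (21 / 20 - x ^ 2) *
      (x - ((1678077 / 400000) + (-(732821 / 50000)) * x +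
      (271793 / 15625) * x ^ 2 + (-(104448 / 15625)) * x ^ 3) -
      ((-(732821 / 50000)) + 2 * (271793 / 15625) * x +
      3 * (-(104448 / 15625)) * x ^ 2) * (2 - x)) -
      ((1678077 / 400000) + (-(732821 / 50000)) * x +
      (271793 / 15625) * x ^ 2 + (-(104448 / 15625)) * x ^ 3) ^ 2 * (2 - x) := by
    rw [hs, ht]
    ring
  rw [e] at h
  linarith

theorem cre_c_3_q_0 (x : ℝ) (h1 : 7 / 8 ≤ x) (h2 : x ≤ 15 / 16) :
    0 ≤
      (x - ((1678077 / 400000) + (-(732821 / 50000)) * x +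
      (271793 / 15625) * x ^ 2 + (-(104448 / 15625)) * x ^ 3) -
      ((-(732821 / 50000)) + 2 * (271793 / 15625) * x +
      3 * (-(104448 / 15625)) * x ^ 2) * (2 - x)) := by
  obtain ⟨s, hs⟩ : ∃ s, s = x - 7 / 8 := ⟨_, rfl⟩
  obtain ⟨t, ht⟩ : ∃ t, t = 15 / 16 - x := ⟨_, rfl⟩
  have hs0 : 0 ≤ s := by linarith
  have ht0 : 0 ≤ t := by linarith
  have h : 0 ≤
      11530784 / 15625 * t ^ 3 + 7992992 / 3125 * s * t ^ 2 + 50939632 / 15625 * s ^ 2 * t +
      4459312 / 3125 * s ^ 3 := by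
    positivity
  have e :
      11530784 / 15625 * t ^ 3 + 7992992 / 3125 * s * t ^ 2 + 50939632 / 15625 * s ^ 2 * t +
      4459312 / 3125 * s ^ 3 =
      (x - ((1678077 / 400000) + (-(732821 / 50000)) * x +
      (271793 / 15625) * x ^ 2 + (-(104448 / 15625)) * x ^ 3) -
      ((-(732821 / 50000)) + 2 * (271793 / 15625) * x +
      3 * (-(104448 / 15625)) * x ^ 2) * (2 - x)) -
      0 := by
    rw [hs, ht]
    ring
  rw [e] at h
  linarith

theorem cre_c_4_p_0 (x : ℝ) (h1 : 15 / 16 ≤ x) (h2 : x ≤ 31 / 32) :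
    ((16838109 / 800000) + (-(137123 / 2000)) * x +
      (1169832 / 15625) * x ^ 2 + (-(423616 / 15625)) * x ^ 3) ^ 2 * (2 - x) ≤
      (21 / 20 - x ^ 2) *
      (x - ((16838109 / 800000) + (-(137123 / 2000)) * x +
      (1169832 / 15625) * x ^ 2 + (-(423616 / 15625)) * x ^ 3) -
      ((-(137123 / 2000)) + 2 * (1169832 / 15625) * x +
      3 * (-(423616 / 15625)) * x ^ 2) * (2 - x)) := by
  obtain ⟨s, hs⟩ : ∃ s, s = x - 15 / 16 := ⟨_, rfl⟩
  obtain ⟨t, ht⟩ : ∃ t, t = 31 / 32 - x := ⟨_, rfl⟩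
  have hs0 : 0 ≤ s := by linarith
  have ht0 : 0 ≤ t := by linarith
  have h : 0 ≤
      285981429202944 / 9765625 * t ^ 7 + 1047942168182784 / 9765625 * s * t ^ 6 +
      13780098651938816 / 48828125 * s ^ 2 * t ^ 5 +
      32227740965318656 / 48828125 * s ^ 3 * t ^ 4 +
      229448220678619136 / 244140625 * s ^ 4 * t ^ 3 +
      167668920356765696 / 244140625 * s ^ 5 * t ^ 2 +
      54184590766374912 / 244140625 * s ^ 6 * t + 4676840497348608 / 244140625 * s ^ 7 := by
    positivity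
  have e :
      285981429202944 / 9765625 * t ^ 7 + 1047942168182784 / 9765625 * s * t ^ 6 +
      13780098651938816 / 48828125 * s ^ 2 * t ^ 5 +
      32227740965318656 / 48828125 * s ^ 3 * t ^ 4 +
      229448220678619136 / 244140625 * s ^ 4 * t ^ 3 +
      167668920356765696 / 244140625 * s ^ 5 * t ^ 2 +
      54184590766374912 / 244140625 * s ^ 6 * t + 4676840497348608 / 244140625 * s ^ 7 =
      (21 / 20 - x ^ 2) *
      (x - ((16838109 / 800000) + (-(137123 / 2000)) * x +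
      (1169832 / 15625) * x ^ 2 + (-(423616 / 15625)) * x ^ 3) -
      ((-(137123 / 2000)) + 2 * (1169832 / 15625) * x +
      3 * (-(423616 / 15625)) * x ^ 2) * (2 - x)) -
      ((16838109 / 800000) + (-(137123 / 2000)) * x +
      (1169832 / 15625) * x ^ 2 + (-(423616 / 15625)) * x ^ 3) ^ 2 * (2 - x) := by
    rw [hs, ht]
    ring
  rw [e] at h
  linarith

theorem cre_c_4_q_0 (x : ℝ) (h1 : 15 / 16 ≤ x) (h2 : x ≤ 31 / 32) :
    0 ≤
      (x - ((16838109 / 800000) + (-(137123 / 2000)) * x +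
      (1169832 / 15625) * x ^ 2 + (-(423616 / 15625)) * x ^ 3) -
      ((-(137123 / 2000)) + 2 * (1169832 / 15625) * x +
      3 * (-(423616 / 15625)) * x ^ 2) * (2 - x)) := by
  obtain ⟨s, hs⟩ : ∃ s, s = x - 15 / 16 := ⟨_, rfl⟩
  obtain ⟨t, ht⟩ : ∃ t, t = 31 / 32 - x := ⟨_, rfl⟩
  have hs0 : 0 ≤ s := by linarith
  have ht0 : 0 ≤ t := by linarith
  have h : 0 ≤
      35674496 / 3125 * t ^ 3 + 598092928 / 15625 * s * t ^ 2 +
      703586432 / 15625 * s ^ 2 * t + 283018752 / 15625 * s ^ 3 := by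
    positivity
  have e :
      35674496 / 3125 * t ^ 3 + 598092928 / 15625 * s * t ^ 2 +
      703586432 / 15625 * s ^ 2 * t + 283018752 / 15625 * s ^ 3 =
      (x - ((16838109 / 800000) + (-(137123 / 2000)) * x +
      (1169832 / 15625) * x ^ 2 + (-(423616 / 15625)) * x ^ 3) -
      ((-(137123 / 2000)) + 2 * (1169832 / 15625) * x +
      3 * (-(423616 / 15625)) * x ^ 2) * (2 - x)) -
      0 := by
    rw [hs, ht]
    ring
  rw [e] at h
  linarith

theorem cre_c_5_p_0 (x : ℝ) (h1 : 31 / 32 ≤ x) (h2 : x ≤ 63 / 64) :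
    ((277743633 / 4000000) + (-(6827077 / 31250)) * x +
      (717716 / 3125) * x ^ 2 + (-(1256192 / 15625)) * x ^ 3) ^ 2 * (2 - x) ≤
      (21 / 20 - x ^ 2) *
      (x - ((277743633 / 4000000) + (-(6827077 / 31250)) * x +
      (717716 / 3125) * x ^ 2 + (-(1256192 / 15625)) * x ^ 3) -
      ((-(6827077 / 31250)) + 2 * (717716 / 3125) * x +
      3 * (-(1256192 / 15625)) * x ^ 2) * (2 - x)) := by
  obtain ⟨s, hs⟩ : ∃ s, s = x - 31 / 32 := ⟨_, rfl⟩
  obtain ⟨t, ht⟩ : ∃ t, t = 63 / 64 - x := ⟨_, rfl⟩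
  have hs0 : 0 ≤ s := by linarith
  have ht0 : 0 ≤ t := by linarith
  have h : 0 ≤
      598635583660621824 / 244140625 * t ^ 7 + 3046562345238134784 / 244140625 * s * t ^ 6 +
      8576235823857401856 / 244140625 * s ^ 2 * t ^ 5 +
      3248925260122161152 / 48828125 * s ^ 3 * t ^ 4 +
      30716099878060032 / 390625 * s ^ 4 * t ^ 3 +
      102077513160916992 / 1953125 * s ^ 5 * t ^ 2 + 6580556711067648 / 390625 * s ^ 6 * t +
      139009780088832 / 78125 * s ^ 7 := by
    positivity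
  have e :
      598635583660621824 / 244140625 * t ^ 7 + 3046562345238134784 / 244140625 * s * t ^ 6 +
      8576235823857401856 / 244140625 * s ^ 2 * t ^ 5 +
      3248925260122161152 / 48828125 * s ^ 3 * t ^ 4 +
      30716099878060032 / 390625 * s ^ 4 * t ^ 3 +
      102077513160916992 / 1953125 * s ^ 5 * t ^ 2 + 6580556711067648 / 390625 * s ^ 6 * t +
      139009780088832 / 78125 * s ^ 7 =
      (21 / 20 - x ^ 2) *
      (x - ((277743633 / 4000000) + (-(6827077 / 31250)) * x +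
      (717716 / 3125) * x ^ 2 + (-(1256192 / 15625)) * x ^ 3) -
      ((-(6827077 / 31250)) + 2 * (717716 / 3125) * x +
      3 * (-(1256192 / 15625)) * x ^ 2) * (2 - x)) -
      ((277743633 / 4000000) + (-(6827077 / 31250)) * x +
      (717716 / 3125) * x ^ 2 + (-(1256192 / 15625)) * x ^ 3) ^ 2 * (2 - x) := by
    rw [hs, ht]
    ring
  rw [e] at h
  linarith

theorem cre_c_5_q_0 (x : ℝ) (h1 : 31 / 32 ≤ x) (h2 : x ≤ 63 / 64) :
    0 ≤
      (x - ((277743633 / 4000000) + (-(6827077 / 31250)) * x +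
      (717716 / 3125) * x ^ 2 + (-(1256192 / 15625)) * x ^ 3) -
      ((-(6827077 / 31250)) + 2 * (717716 / 3125) * x +
      3 * (-(1256192 / 15625)) * x ^ 2) * (2 - x)) := by
  obtain ⟨s, hs⟩ : ∃ s, s = x - 31 / 32 := ⟨_, rfl⟩
  obtain ⟨t, ht⟩ : ∃ t, t = 63 / 64 - x := ⟨_, rfl⟩
  have hs0 : 0 ≤ s := by linarith
  have ht0 : 0 ≤ t := by linarith
  have h : 0 ≤
      2264150016 / 15625 * t ^ 3 + 7382152192 / 15625 * s * t ^ 2 +
      1643319552 / 3125 * s ^ 2 * t + 123843328 / 625 * s ^ 3 := by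
    positivity
  have e :
      2264150016 / 15625 * t ^ 3 + 7382152192 / 15625 * s * t ^ 2 +
      1643319552 / 3125 * s ^ 2 * t + 123843328 / 625 * s ^ 3 =
      (x - ((277743633 / 4000000) + (-(6827077 / 31250)) * x +
      (717716 / 3125) * x ^ 2 + (-(1256192 / 15625)) * x ^ 3) -
      ((-(6827077 / 31250)) + 2 * (717716 / 3125) * x +
      3 * (-(1256192 / 15625)) * x ^ 2) * (2 - x)) -
      0 := by
    rw [hs, ht]
    ring
  rw [e] at h
  linarith

theorem cre_c_6_p_0 (x : ℝ) (h1 : 63 / 64 ≤ x) (h2 : x ≤ 127 / 128) :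
    ((231501093 / 1000000) + (-(355802947 / 500000)) * x +
      (11403912 / 15625) * x ^ 2 + (-(3898496 / 15625)) * x ^ 3) ^ 2 * (2 - x) ≤
      (21 / 20 - x ^ 2) *
      (x - ((231501093 / 1000000) + (-(355802947 / 500000)) * x +
      (11403912 / 15625) * x ^ 2 + (-(3898496 / 15625)) * x ^ 3) -
      ((-(355802947 / 500000)) + 2 * (11403912 / 15625) * x +
      3 * (-(3898496 / 15625)) * x ^ 2) * (2 - x)) := by
  obtain ⟨s, hs⟩ : ∃ s, s = x - 63 / 64 := ⟨_, rfl⟩
  obtain ⟨t, ht⟩ : ∃ t, t = 127 / 128 - x := ⟨_, rfl⟩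
  have hs0 : 0 ≤ s := by linarith
  have ht0 : 0 ≤ t := by linarith
  have h : 0 ≤
      17793251851370496 / 78125 * t ^ 7 + 290860066582560768 / 390625 * s * t ^ 6 +
      1658799880528723968 / 1953125 * s ^ 2 * t ^ 5 +
      6525426740162985984 / 9765625 * s ^ 3 * t ^ 4 +
      2149458303994167296 / 1953125 * s ^ 4 * t ^ 3 +
      341589833826266578944 / 244140625 * s ^ 5 * t ^ 2 +
      194421550619163656192 / 244140625 * s ^ 6 * t + 39544706973887217664 / 244140625 * s ^ 7 := by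
    positivity
  have e :
      17793251851370496 / 78125 * t ^ 7 + 290860066582560768 / 390625 * s * t ^ 6 +
      1658799880528723968 / 1953125 * s ^ 2 * t ^ 5 +
      6525426740162985984 / 9765625 * s ^ 3 * t ^ 4 +
      2149458303994167296 / 1953125 * s ^ 4 * t ^ 3 +
      341589833826266578944 / 244140625 * s ^ 5 * t ^ 2 +
      194421550619163656192 / 244140625 * s ^ 6 * t + 39544706973887217664 / 244140625 * s ^ 7 =
      (21 / 20 - x ^ 2) *
      (x - ((231501093 / 1000000) + (-(355802947 / 500000)) * x +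
      (11403912 / 15625) * x ^ 2 + (-(3898496 / 15625)) * x ^ 3) -
      ((-(355802947 / 500000)) + 2 * (11403912 / 15625) * x +
      3 * (-(3898496 / 15625)) * x ^ 2) * (2 - x)) -
      ((231501093 / 1000000) + (-(355802947 / 500000)) * x +
      (11403912 / 15625) * x ^ 2 + (-(3898496 / 15625)) * x ^ 3) ^ 2 * (2 - x) := by
    rw [hs, ht]
    ring
  rw [e] at h
  linarith

theorem cre_c_6_p_1 (x : ℝ) (h1 : 127 / 128 ≤ x) (h2 : x ≤ 1) :
    ((231501093 / 1000000) + (-(355802947 / 500000)) * x +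
      (11403912 / 15625) * x ^ 2 + (-(3898496 / 15625)) * x ^ 3) ^ 2 * (2 - x) ≤
      (21 / 20 - x ^ 2) *
      (x - ((231501093 / 1000000) + (-(355802947 / 500000)) * x +
      (11403912 / 15625) * x ^ 2 + (-(3898496 / 15625)) * x ^ 3) -
      ((-(355802947 / 500000)) + 2 * (11403912 / 15625) * x +
      3 * (-(3898496 / 15625)) * x ^ 2) * (2 - x)) := by
  obtain ⟨s, hs⟩ : ∃ s, s = x - 127 / 128 := ⟨_, rfl⟩
  obtain ⟨t, ht⟩ : ∃ t, t = 1 - x := ⟨_, rfl⟩
  have hs0 : 0 ≤ s := by linarith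
  have ht0 : 0 ≤ t := by linarith
  have h : 0 ≤
      39544706973887217664 / 244140625 * t ^ 7 +
      359204347015257391104 / 244140625 * s * t ^ 6 +
      1330286612202828988416 / 244140625 * s ^ 2 * t ^ 5 +
      510888193160399290368 / 48828125 * s ^ 3 * t ^ 4 +
      542971704774245482496 / 48828125 * s ^ 4 * t ^ 3 +
      1563146757930114613248 / 244140625 * s ^ 5 * t ^ 2 +
      426460118945342947328 / 244140625 * s ^ 6 * t + 34357906444189171712 / 244140625 * s ^ 7 := by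
    positivity
  have e :
      39544706973887217664 / 244140625 * t ^ 7 +
      359204347015257391104 / 244140625 * s * t ^ 6 +
      1330286612202828988416 / 244140625 * s ^ 2 * t ^ 5 +
      510888193160399290368 / 48828125 * s ^ 3 * t ^ 4 +
      542971704774245482496 / 48828125 * s ^ 4 * t ^ 3 +
      1563146757930114613248 / 244140625 * s ^ 5 * t ^ 2 +
      426460118945342947328 / 244140625 * s ^ 6 * t + 34357906444189171712 / 244140625 * s ^ 7 =
      (21 / 20 - x ^ 2) *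
      (x - ((231501093 / 1000000) + (-(355802947 / 500000)) * x +
      (11403912 / 15625) * x ^ 2 + (-(3898496 / 15625)) * x ^ 3) -
      ((-(355802947 / 500000)) + 2 * (11403912 / 15625) * x +
      3 * (-(3898496 / 15625)) * x ^ 2) * (2 - x)) -
      ((231501093 / 1000000) + (-(355802947 / 500000)) * x +
      (11403912 / 15625) * x ^ 2 + (-(3898496 / 15625)) * x ^ 3) ^ 2 * (2 - x) := by
    rw [hs, ht]
    ring
  rw [e] at h
  linarith

theorem cre_c_6_q_0 (x : ℝ) (h1 : 63 / 64 ≤ x) (h2 : x ≤ 1) :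
    0 ≤
      (x - ((231501093 / 1000000) + (-(355802947 / 500000)) * x +
      (11403912 / 15625) * x ^ 2 + (-(3898496 / 15625)) * x ^ 3) -
      ((-(355802947 / 500000)) + 2 * (11403912 / 15625) * x +
      3 * (-(3898496 / 15625)) * x ^ 2) * (2 - x)) := by
  obtain ⟨s, hs⟩ : ∃ s, s = x - 63 / 64 := ⟨_, rfl⟩
  obtain ⟨t, ht⟩ : ∃ t, t = 1 - x := ⟨_, rfl⟩
  have hs0 : 0 ≤ s := by linarith
  have ht0 : 0 ≤ t := by linarith
  have h : 0 ≤
      123843328 / 625 * t ^ 3 + 2051549696 / 3125 * s * t ^ 2 +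
      11980488704 / 15625 * s ^ 2 * t + 4811026432 / 15625 * s ^ 3 := by
    positivity
  have e :
      123843328 / 625 * t ^ 3 + 2051549696 / 3125 * s * t ^ 2 +
      11980488704 / 15625 * s ^ 2 * t + 4811026432 / 15625 * s ^ 3 =
      (x - ((231501093 / 1000000) + (-(355802947 / 500000)) * x +
      (11403912 / 15625) * x ^ 2 + (-(3898496 / 15625)) * x ^ 3) -
      ((-(355802947 / 500000)) + 2 * (11403912 / 15625) * x +
      3 * (-(3898496 / 15625)) * x ^ 2) * (2 - x)) -
      0 := by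
    rw [hs, ht]
    ring
  rw [e] at h
  linarith

/-- the pair `(21 / 20, 569 / 500)` -/
theorem cre_c : Cre (21 / 20) (569 / 500) := by
  have h0 := Up.zero (21 / 20)
  have h1 : Up (21 / 20) (1 / 2) (33713 / 500000) := by
    have h := h0.step (β := 1 / 2) (a := (0))
      (b := (0)) (c := (31089 / 125000))
      (d := (656 / 15625)) (by norm_num) (by norm_num) (by norm_num) (by norm_num)
      (fun x i0 i1 => by
      exact cre_c_0_p_0 x (by linarith) (by linarith))
      (fun x i0 i1 => by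
      exact cre_c_0_q_0 x (by linarith) (by linarith))
    norm_num at h ⊢
    exact h
  have h2 : Up (21 / 20) (3 / 4) (15603 / 100000) := by
    have h := h1.step (β := 3 / 4) (a := (2871 / 125000))
      (b := (-(16367 / 125000))) (c := (12421 / 25000))
      (d := (-(3571 / 31250))) (by norm_num) (by norm_num) (by norm_num) (by norm_num)
      (fun x i0 i1 => by
      exact cre_c_1_p_0 x (by linarith) (by linarith))
      (fun x i0 i1 => by
      exact cre_c_1_q_0 x (by linarith) (by linarith))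
    norm_num at h ⊢
    exact h
  have h3 : Up (21 / 20) (7 / 8) (105237 / 500000) := by
    have h := h2.step (β := 7 / 8) (a := (201609 / 400000))
      (b := (-(1018067 / 500000))) (c := (94117 / 31250))
      (d := (-(19074 / 15625))) (by norm_num) (by norm_num) (by norm_num) (by norm_num)
      (fun x i0 i1 => by
      exact cre_c_2_p_0 x (by linarith) (by linarith))
      (fun x i0 i1 => by
      exact cre_c_2_q_0 x (by linarith) (by linarith))
    norm_num at h ⊢
    exact h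
  have h4 : Up (21 / 20) (15 / 16) (47031 / 200000) := by
    have h := h3.step (β := 15 / 16) (a := (1678077 / 400000))
      (b := (-(732821 / 50000))) (c := (271793 / 15625))
      (d := (-(104448 / 15625))) (by norm_num) (by norm_num) (by norm_num) (by norm_num)
      (fun x i0 i1 => by
      exact cre_c_3_p_0 x (by linarith) (by linarith))
      (fun x i0 i1 => by
      exact cre_c_3_q_0 x (by linarith) (by linarith))
    norm_num at h ⊢
    exact h
  have h5 : Up (21 / 20) (31 / 32) (243389 / 1000000) := by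
    have h := h4.step (β := 31 / 32) (a := (16838109 / 800000))
      (b := (-(137123 / 2000))) (c := (1169832 / 15625))
      (d := (-(423616 / 15625))) (by norm_num) (by norm_num) (by norm_num) (by norm_num)
      (fun x i0 i1 => by
      exact cre_c_4_p_0 x (by linarith) (by linarith))
      (fun x i0 i1 => by
      exact cre_c_4_q_0 x (by linarith) (by linarith))
    norm_num at h ⊢
    exact h
  have h6 : Up (21 / 20) (63 / 64) (9789 / 40000) := by
    have h := h5.step (β := 63 / 64) (a := (277743633 / 4000000))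
      (b := (-(6827077 / 31250))) (c := (717716 / 3125))
      (d := (-(1256192 / 15625))) (by norm_num) (by norm_num) (by norm_num) (by norm_num)
      (fun x i0 i1 => by
      exact cre_c_5_p_0 x (by linarith) (by linarith))
      (fun x i0 i1 => by
      exact cre_c_5_q_0 x (by linarith) (by linarith))
    norm_num at h ⊢
    exact h
  have h7 : Up (21 / 20) (1) (241823 / 1000000) := by
    have h := h6.step (β := 1) (a := (231501093 / 1000000))
      (b := (-(355802947 / 500000))) (c := (11403912 / 15625))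
      (d := (-(3898496 / 15625))) (by norm_num) (by norm_num) (by norm_num) (by norm_num)
      (fun x i0 i1 => by
      rcases le_total x (127 / 128) with i2 | i2
      · exact cre_c_6_p_0 x (by linarith) i2
      exact cre_c_6_p_1 x (by linarith) (by linarith))
      (fun x i0 i1 => by
      exact cre_c_6_q_0 x (by linarith) (by linarith))
    norm_num at h ⊢
    exact h
  exact Up.cre (by simpa using h7) (by norm_num)

theorem cre_c2_0_p_0 (x : ℝ) (h1 : 0 ≤ x) (h2 : x ≤ 1 / 2) :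
    ((0) + (0) * x +
      (31073 / 125000) * x ^ 2 + (5291 / 125000) * x ^ 3) ^ 2 * (2 - x) ≤
      (107 / 100 - x ^ 2) *
      (x - ((0) + (0) * x +
      (31073 / 125000) * x ^ 2 + (5291 / 125000) * x ^ 3) -
      ((0) + 2 * (31073 / 125000) * x +
      3 * (5291 / 125000) * x ^ 2) * (2 - x)) := by
  obtain ⟨s, hs⟩ : ∃ s, s = x - 0 := ⟨_, rfl⟩
  obtain ⟨t, ht⟩ : ∃ t, t = 1 / 2 - x := ⟨_, rfl⟩
  have hs0 : 0 ≤ s := by linarith
  have ht0 : 0 ≤ t := by linarith
  have h : 0 ≤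
      151512 / 390625 * s * t ^ 6 + 837061 / 390625 * s ^ 2 * t ^ 5 +
      2443362 / 390625 * s ^ 3 * t ^ 4 + 10159226171 / 976562500 * s ^ 4 * t ^ 3 +
      35273446409 / 3906250000 * s ^ 5 * t ^ 2 + 859046333 / 244140625 * s ^ 6 * t +
      6148273093 / 15625000000 * s ^ 7 := by
    positivity
  have e :
      151512 / 390625 * s * t ^ 6 + 837061 / 390625 * s ^ 2 * t ^ 5 +
      2443362 / 390625 * s ^ 3 * t ^ 4 + 10159226171 / 976562500 * s ^ 4 * t ^ 3 +
      35273446409 / 3906250000 * s ^ 5 * t ^ 2 + 859046333 / 244140625 * s ^ 6 * t +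
      6148273093 / 15625000000 * s ^ 7 =
      (107 / 100 - x ^ 2) *
      (x - ((0) + (0) * x +
      (31073 / 125000) * x ^ 2 + (5291 / 125000) * x ^ 3) -
      ((0) + 2 * (31073 / 125000) * x +
      3 * (5291 / 125000) * x ^ 2) * (2 - x)) -
      ((0) + (0) * x +
      (31073 / 125000) * x ^ 2 + (5291 / 125000) * x ^ 3) ^ 2 * (2 - x) := by
    rw [hs, ht]
    ring
  rw [e] at h
  linarith

theorem cre_c2_0_q_0 (x : ℝ) (h1 : 0 ≤ x) (h2 : x ≤ 1 / 2) :
    0 ≤
      (x - ((0) + (0) * x +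
      (31073 / 125000) * x ^ 2 + (5291 / 125000) * x ^ 3) -
      ((0) + 2 * (31073 / 125000) * x +
      3 * (5291 / 125000) * x ^ 2) * (2 - x)) := by
  obtain ⟨s, hs⟩ : ∃ s, s = x - 0 := ⟨_, rfl⟩
  obtain ⟨t, ht⟩ : ∃ t, t = 1 / 2 - x := ⟨_, rfl⟩
  have hs0 : 0 ≤ s := by linarith
  have ht0 : 0 ≤ t := by linarith
  have h : 0 ≤
      354 / 15625 * s * t ^ 2 + 2159 / 62500 * s ^ 2 * t + 3017 / 31250 * s ^ 3 := by
    positivity
  have e :
      354 / 15625 * s * t ^ 2 + 2159 / 62500 * s ^ 2 * t + 3017 / 31250 * s ^ 3 =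
      (x - ((0) + (0) * x +
      (31073 / 125000) * x ^ 2 + (5291 / 125000) * x ^ 3) -
      ((0) + 2 * (31073 / 125000) * x +
      3 * (5291 / 125000) * x ^ 2) * (2 - x)) -
      0 := by
    rw [hs, ht]
    ring
  rw [e] at h
  linarith

theorem cre_c2_1_p_0 (x : ℝ) (h1 : 1 / 2 ≤ x) (h2 : x ≤ 3 / 4) :
    ((1343 / 62500) + (-(61279 / 500000)) * x +
      (1503 / 3125) * x ^ 2 + (-(3253 / 31250)) * x ^ 3) ^ 2 * (2 - x) ≤
      (107 / 100 - x ^ 2) *
      (x - ((1343 / 62500) + (-(61279 / 500000)) * x +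
      (1503 / 3125) * x ^ 2 + (-(3253 / 31250)) * x ^ 3) -
      ((-(61279 / 500000)) + 2 * (1503 / 3125) * x +
      3 * (-(3253 / 31250)) * x ^ 2) * (2 - x)) := by
  obtain ⟨s, hs⟩ : ∃ s, s = x - 1 / 2 := ⟨_, rfl⟩
  obtain ⟨t, ht⟩ : ∃ t, t = 3 / 4 - x := ⟨_, rfl⟩
  have hs0 : 0 ≤ s := by linarith
  have ht0 : 0 ≤ t := by linarith
  have h : 0 ≤
      12296546186 / 244140625 * t ^ 7 + 42794369641 / 244140625 * s * t ^ 6 +
      230608183527 / 488281250 * s ^ 2 * t ^ 5 + 9441027903 / 7812500 * s ^ 3 * t ^ 4 +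
      444975550283 / 244140625 * s ^ 4 * t ^ 3 + 335480399109 / 244140625 * s ^ 5 * t ^ 2 +
      110250658804 / 244140625 * s ^ 6 * t + 1904520364 / 48828125 * s ^ 7 := by
    positivity
  have e :
      12296546186 / 244140625 * t ^ 7 + 42794369641 / 244140625 * s * t ^ 6 +
      230608183527 / 488281250 * s ^ 2 * t ^ 5 + 9441027903 / 7812500 * s ^ 3 * t ^ 4 +
      444975550283 / 244140625 * s ^ 4 * t ^ 3 + 335480399109 / 244140625 * s ^ 5 * t ^ 2 +
      110250658804 / 244140625 * s ^ 6 * t + 1904520364 / 48828125 * s ^ 7 =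
      (107 / 100 - x ^ 2) *
      (x - ((1343 / 62500) + (-(61279 / 500000)) * x +
      (1503 / 3125) * x ^ 2 + (-(3253 / 31250)) * x ^ 3) -
      ((-(61279 / 500000)) + 2 * (1503 / 3125) * x +
      3 * (-(3253 / 31250)) * x ^ 2) * (2 - x)) -
      ((1343 / 62500) + (-(61279 / 500000)) * x +
      (1503 / 3125) * x ^ 2 + (-(3253 / 31250)) * x ^ 3) ^ 2 * (2 - x) := by
    rw [hs, ht]
    ring
  rw [e] at h
  linarith

theorem cre_c2_1_q_0 (x : ℝ) (h1 : 1 / 2 ≤ x) (h2 : x ≤ 3 / 4) :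
    0 ≤
      (x - ((1343 / 62500) + (-(61279 / 500000)) * x +
      (1503 / 3125) * x ^ 2 + (-(3253 / 31250)) * x ^ 3) -
      ((-(61279 / 500000)) + 2 * (1503 / 3125) * x +
      3 * (-(3253 / 31250)) * x ^ 2) * (2 - x)) := by
  obtain ⟨s, hs⟩ : ∃ s, s = x - 1 / 2 := ⟨_, rfl⟩
  obtain ⟨t, ht⟩ : ∃ t, t = 3 / 4 - x := ⟨_, rfl⟩
  have hs0 : 0 ≤ s := by linarith
  have ht0 : 0 ≤ t := by linarith
  have h : 0 ≤
      12068 / 15625 * t ^ 3 + 42592 / 15625 * s * t ^ 2 + 98558 / 15625 * s ^ 2 * t +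
      64781 / 15625 * s ^ 3 := by
    positivity
  have e :
      12068 / 15625 * t ^ 3 + 42592 / 15625 * s * t ^ 2 + 98558 / 15625 * s ^ 2 * t +
      64781 / 15625 * s ^ 3 =
      (x - ((1343 / 62500) + (-(61279 / 500000)) * x +
      (1503 / 3125) * x ^ 2 + (-(3253 / 31250)) * x ^ 3) -
      ((-(61279 / 500000)) + 2 * (1503 / 3125) * x +
      3 * (-(3253 / 31250)) * x ^ 2) * (2 - x)) -
      0 := by
    rw [hs, ht]
    ring
  rw [e] at h
  linarith

theorem cre_c2_2_p_0 (x : ℝ) (h1 : 3 / 4 ≤ x) (h2 : x ≤ 7 / 8) :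
    ((222757 / 500000) + (-(3607 / 2000)) * x +
      (1351 / 500) * x ^ 2 + (-(3382 / 3125)) * x ^ 3) ^ 2 * (2 - x) ≤
      (107 / 100 - x ^ 2) *
      (x - ((222757 / 500000) + (-(3607 / 2000)) * x +
      (1351 / 500) * x ^ 2 + (-(3382 / 3125)) * x ^ 3) -
      ((-(3607 / 2000)) + 2 * (1351 / 500) * x +
      3 * (-(3382 / 3125)) * x ^ 2) * (2 - x)) := by
  obtain ⟨s, hs⟩ : ∃ s, s = x - 3 / 4 := ⟨_, rfl⟩
  obtain ⟨t, ht⟩ : ∃ t, t = 7 / 8 - x := ⟨_, rfl⟩
  have hs0 : 0 ≤ s := by linarith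
  have ht0 : 0 ≤ t := by linarith
  have h : 0 ≤
      243778606592 / 48828125 * t ^ 7 + 4100795482624 / 244140625 * s * t ^ 6 +
      10492100909664 / 244140625 * s ^ 2 * t ^ 5 + 5218673317968 / 48828125 * s ^ 3 * t ^ 4 +
      7758052810152 / 48828125 * s ^ 4 * t ^ 3 + 5769665830636 / 48828125 * s ^ 5 * t ^ 2 +
      9307361575744 / 244140625 * s ^ 6 * t + 766414291584 / 244140625 * s ^ 7 := by
    positivity
  have e :
      243778606592 / 48828125 * t ^ 7 + 4100795482624 / 244140625 * s * t ^ 6 +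
      10492100909664 / 244140625 * s ^ 2 * t ^ 5 + 5218673317968 / 48828125 * s ^ 3 * t ^ 4 +
      7758052810152 / 48828125 * s ^ 4 * t ^ 3 + 5769665830636 / 48828125 * s ^ 5 * t ^ 2 +
      9307361575744 / 244140625 * s ^ 6 * t + 766414291584 / 244140625 * s ^ 7 =
      (107 / 100 - x ^ 2) *
      (x - ((222757 / 500000) + (-(3607 / 2000)) * x +
      (1351 / 500) * x ^ 2 + (-(3382 / 3125)) * x ^ 3) -
      ((-(3607 / 2000)) + 2 * (1351 / 500) * x +
      3 * (-(3382 / 3125)) * x ^ 2) * (2 - x)) -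
      ((222757 / 500000) + (-(3607 / 2000)) * x +
      (1351 / 500) * x ^ 2 + (-(3382 / 3125)) * x ^ 3) ^ 2 * (2 - x) := by
    rw [hs, ht]
    ring
  rw [e] at h
  linarith

theorem cre_c2_2_q_0 (x : ℝ) (h1 : 3 / 4 ≤ x) (h2 : x ≤ 7 / 8) :
    0 ≤
      (x - ((222757 / 500000) + (-(3607 / 2000)) * x +
      (1351 / 500) * x ^ 2 + (-(3382 / 3125)) * x ^ 3) -
      ((-(3607 / 2000)) + 2 * (1351 / 500) * x +
      3 * (-(3382 / 3125)) * x ^ 2) * (2 - x)) := by
  obtain ⟨s, hs⟩ : ∃ s, s = x - 3 / 4 := ⟨_, rfl⟩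
  obtain ⟨t, ht⟩ : ∃ t, t = 7 / 8 - x := ⟨_, rfl⟩
  have hs0 : 0 ≤ s := by linarith
  have ht0 : 0 ≤ t := by linarith
  have h : 0 ≤
      518248 / 15625 * t ^ 3 + 1887344 / 15625 * s * t ^ 2 + 2760614 / 15625 * s ^ 2 * t +
      1357698 / 15625 * s ^ 3 := by
    positivity
  have e :
      518248 / 15625 * t ^ 3 + 1887344 / 15625 * s * t ^ 2 + 2760614 / 15625 * s ^ 2 * t +
      1357698 / 15625 * s ^ 3 =
      (x - ((222757 / 500000) + (-(3607 / 2000)) * x +
      (1351 / 500) * x ^ 2 + (-(3382 / 3125)) * x ^ 3) -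
      ((-(3607 / 2000)) + 2 * (1351 / 500) * x +
      3 * (-(3382 / 3125)) * x ^ 2) * (2 - x)) -
      0 := by
    rw [hs, ht]
    ring
  rw [e] at h
  linarith

theorem cre_c2_3_p_0 (x : ℝ) (h1 : 7 / 8 ≤ x) (h2 : x ≤ 15 / 16) :
    ((2692349 / 800000) + (-(1179481 / 100000)) * x +
      (440561 / 31250) * x ^ 2 + (-(84608 / 15625)) * x ^ 3) ^ 2 * (2 - x) ≤
      (107 / 100 - x ^ 2) *
      (x - ((2692349 / 800000) + (-(1179481 / 100000)) * x +
      (440561 / 31250) * x ^ 2 + (-(84608 / 15625)) * x ^ 3) -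
      ((-(1179481 / 100000)) + 2 * (440561 / 31250) * x +
      3 * (-(84608 / 15625)) * x ^ 2) * (2 - x)) := by
  obtain ⟨s, hs⟩ : ∃ s, s = x - 7 / 8 := ⟨_, rfl⟩
  obtain ⟨t, ht⟩ : ∃ t, t = 15 / 16 - x := ⟨_, rfl⟩
  have hs0 : 0 ≤ s := by linarith
  have ht0 : 0 ≤ t := by linarith
  have h : 0 ≤
      98101029322752 / 244140625 * t ^ 7 + 74149420896256 / 48828125 * s * t ^ 6 +
      976808539648896 / 244140625 * s ^ 2 * t ^ 5 +
      2220292813611712 / 244140625 * s ^ 3 * t ^ 4 +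
      619646467999488 / 48828125 * s ^ 4 * t ^ 3 +
      448046503045312 / 48828125 * s ^ 5 * t ^ 2 + 5764384403456 / 1953125 * s ^ 6 * t +
      2496987383808 / 9765625 * s ^ 7 := by
    positivity
  have e :
      98101029322752 / 244140625 * t ^ 7 + 74149420896256 / 48828125 * s * t ^ 6 +
      976808539648896 / 244140625 * s ^ 2 * t ^ 5 +
      2220292813611712 / 244140625 * s ^ 3 * t ^ 4 +
      619646467999488 / 48828125 * s ^ 4 * t ^ 3 +
      448046503045312 / 48828125 * s ^ 5 * t ^ 2 + 5764384403456 / 1953125 * s ^ 6 * t +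
      2496987383808 / 9765625 * s ^ 7 =
      (107 / 100 - x ^ 2) *
      (x - ((2692349 / 800000) + (-(1179481 / 100000)) * x +
      (440561 / 31250) * x ^ 2 + (-(84608 / 15625)) * x ^ 3) -
      ((-(1179481 / 100000)) + 2 * (440561 / 31250) * x +
      3 * (-(84608 / 15625)) * x ^ 2) * (2 - x)) -
      ((2692349 / 800000) + (-(1179481 / 100000)) * x +
      (440561 / 31250) * x ^ 2 + (-(84608 / 15625)) * x ^ 3) ^ 2 * (2 - x) := by
    rw [hs, ht]
    ring
  rw [e] at h
  linarith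

theorem cre_c2_3_q_0 (x : ℝ) (h1 : 7 / 8 ≤ x) (h2 : x ≤ 15 / 16) :
    0 ≤
      (x - ((2692349 / 800000) + (-(1179481 / 100000)) * x +
      (440561 / 31250) * x ^ 2 + (-(84608 / 15625)) * x ^ 3) -
      ((-(1179481 / 100000)) + 2 * (440561 / 31250) * x +
      3 * (-(84608 / 15625)) * x ^ 2) * (2 - x)) := by
  obtain ⟨s, hs⟩ : ∃ s, s = x - 7 / 8 := ⟨_, rfl⟩
  obtain ⟨t, ht⟩ : ∃ t, t = 15 / 16 - x := ⟨_, rfl⟩
  have hs0 : 0 ≤ s := by linarith
  have ht0 : 0 ≤ t := by linarith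
  have h : 0 ≤
      10861584 / 15625 * t ^ 3 + 7526096 / 3125 * s * t ^ 2 + 47215992 / 15625 * s ^ 2 * t +
      4055576 / 3125 * s ^ 3 := by
    positivity
  have e :
      10861584 / 15625 * t ^ 3 + 7526096 / 3125 * s * t ^ 2 + 47215992 / 15625 * s ^ 2 * t +
      4055576 / 3125 * s ^ 3 =
      (x - ((2692349 / 800000) + (-(1179481 / 100000)) * x +
      (440561 / 31250) * x ^ 2 + (-(84608 / 15625)) * x ^ 3) -
      ((-(1179481 / 100000)) + 2 * (440561 / 31250) * x +
      3 * (-(84608 / 15625)) * x ^ 2) * (2 - x)) -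
      0 := by
    rw [hs, ht]
    ring
  rw [e] at h
  linarith

theorem cre_c2_4_p_0 (x : ℝ) (h1 : 15 / 16 ≤ x) (h2 : x ≤ 31 / 32) :
    ((23623513 / 1600000) + (-(4827583 / 100000)) * x +
      (828354 / 15625) * x ^ 2 + (-(300832 / 15625)) * x ^ 3) ^ 2 * (2 - x) ≤
      (107 / 100 - x ^ 2) *
      (x - ((23623513 / 1600000) + (-(4827583 / 100000)) * x +
      (828354 / 15625) * x ^ 2 + (-(300832 / 15625)) * x ^ 3) -
      ((-(4827583 / 100000)) + 2 * (828354 / 15625) * x +
      3 * (-(300832 / 15625)) * x ^ 2) * (2 - x)) := by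
  obtain ⟨s, hs⟩ : ∃ s, s = x - 15 / 16 := ⟨_, rfl⟩
  obtain ⟨t, ht⟩ : ∃ t, t = 31 / 32 - x := ⟨_, rfl⟩
  have hs0 : 0 ≤ s := by linarith
  have ht0 : 0 ≤ t := by linarith
  have h : 0 ≤
      319614385127424 / 9765625 * t ^ 7 + 1526744951160832 / 9765625 * s * t ^ 6 +
      21089619357079552 / 48828125 * s ^ 2 * t ^ 5 +
      41060640468675584 / 48828125 * s ^ 3 * t ^ 4 +
      250565220802760704 / 244140625 * s ^ 4 * t ^ 3 +
      169620472659308544 / 244140625 * s ^ 5 * t ^ 2 +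
      54594098112954368 / 244140625 * s ^ 6 * t + 5505567047483392 / 244140625 * s ^ 7 := by
    positivity
  have e :
      319614385127424 / 9765625 * t ^ 7 + 1526744951160832 / 9765625 * s * t ^ 6 +
      21089619357079552 / 48828125 * s ^ 2 * t ^ 5 +
      41060640468675584 / 48828125 * s ^ 3 * t ^ 4 +
      250565220802760704 / 244140625 * s ^ 4 * t ^ 3 +
      169620472659308544 / 244140625 * s ^ 5 * t ^ 2 +
      54594098112954368 / 244140625 * s ^ 6 * t + 5505567047483392 / 244140625 * s ^ 7 =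
      (107 / 100 - x ^ 2) *
      (x - ((23623513 / 1600000) + (-(4827583 / 100000)) * x +
      (828354 / 15625) * x ^ 2 + (-(300832 / 15625)) * x ^ 3) -
      ((-(4827583 / 100000)) + 2 * (828354 / 15625) * x +
      3 * (-(300832 / 15625)) * x ^ 2) * (2 - x)) -
      ((23623513 / 1600000) + (-(4827583 / 100000)) * x +
      (828354 / 15625) * x ^ 2 + (-(300832 / 15625)) * x ^ 3) ^ 2 * (2 - x) := by
    rw [hs, ht]
    ring
  rw [e] at h
  linarith

theorem cre_c2_4_q_0 (x : ℝ) (h1 : 15 / 16 ≤ x) (h2 : x ≤ 31 / 32) :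
    0 ≤
      (x - ((23623513 / 1600000) + (-(4827583 / 100000)) * x +
      (828354 / 15625) * x ^ 2 + (-(300832 / 15625)) * x ^ 3) -
      ((-(4827583 / 100000)) + 2 * (828354 / 15625) * x +
      3 * (-(300832 / 15625)) * x ^ 2) * (2 - x)) := by
  obtain ⟨s, hs⟩ : ∃ s, s = x - 15 / 16 := ⟨_, rfl⟩
  obtain ⟨t, ht⟩ : ∃ t, t = 31 / 32 - x := ⟨_, rfl⟩
  have hs0 : 0 ≤ s := by linarith
  have ht0 : 0 ≤ t := by linarith
  have h : 0 ≤
      32444608 / 3125 * t ^ 3 + 541262656 / 15625 * s * t ^ 2 +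
      625973504 / 15625 * s ^ 2 * t + 246332224 / 15625 * s ^ 3 := by
    positivity
  have e :
      32444608 / 3125 * t ^ 3 + 541262656 / 15625 * s * t ^ 2 +
      625973504 / 15625 * s ^ 2 * t + 246332224 / 15625 * s ^ 3 =
      (x - ((23623513 / 1600000) + (-(4827583 / 100000)) * x +
      (828354 / 15625) * x ^ 2 + (-(300832 / 15625)) * x ^ 3) -
      ((-(4827583 / 100000)) + 2 * (828354 / 15625) * x +
      3 * (-(300832 / 15625)) * x ^ 2) * (2 - x)) -
      0 := by
    rw [hs, ht]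
    ring
  rw [e] at h
  linarith

theorem cre_c2_5_p_0 (x : ℝ) (h1 : 31 / 32 ≤ x) (h2 : x ≤ 63 / 64) :
    ((333591063 / 8000000) + (-(32935321 / 250000)) * x +
      (435096 / 3125) * x ^ 2 + (-(764672 / 15625)) * x ^ 3) ^ 2 * (2 - x) ≤
      (107 / 100 - x ^ 2) *
      (x - ((333591063 / 8000000) + (-(32935321 / 250000)) * x +
      (435096 / 3125) * x ^ 2 + (-(764672 / 15625)) * x ^ 3) -
      ((-(32935321 / 250000)) + 2 * (435096 / 3125) * x +
      3 * (-(764672 / 15625)) * x ^ 2) * (2 - x)) := by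
  obtain ⟨s, hs⟩ : ∃ s, s = x - 31 / 32 := ⟨_, rfl⟩
  obtain ⟨t, ht⟩ : ∃ t, t = 63 / 64 - x := ⟨_, rfl⟩
  have hs0 : 0 ≤ s := by linarith
  have ht0 : 0 ≤ t := by linarith
  have h : 0 ≤
      704712582077874176 / 244140625 * t ^ 7 + 4170225007823159296 / 244140625 * s * t ^ 6 +
      11979195907004301312 / 244140625 * s ^ 2 * t ^ 5 +
      4169922132059553792 / 48828125 * s ^ 3 * t ^ 4 +
      22347966453766160384 / 244140625 * s ^ 4 * t ^ 3 +
      13983564914132516864 / 244140625 * s ^ 5 * t ^ 2 +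
      4514021539183591424 / 244140625 * s ^ 6 * t + 108499296900349952 / 48828125 * s ^ 7 := by
    positivity
  have e :
      704712582077874176 / 244140625 * t ^ 7 + 4170225007823159296 / 244140625 * s * t ^ 6 +
      11979195907004301312 / 244140625 * s ^ 2 * t ^ 5 +
      4169922132059553792 / 48828125 * s ^ 3 * t ^ 4 +
      22347966453766160384 / 244140625 * s ^ 4 * t ^ 3 +
      13983564914132516864 / 244140625 * s ^ 5 * t ^ 2 +
      4514021539183591424 / 244140625 * s ^ 6 * t + 108499296900349952 / 48828125 * s ^ 7 =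
      (107 / 100 - x ^ 2) *
      (x - ((333591063 / 8000000) + (-(32935321 / 250000)) * x +
      (435096 / 3125) * x ^ 2 + (-(764672 / 15625)) * x ^ 3) -
      ((-(32935321 / 250000)) + 2 * (435096 / 3125) * x +
      3 * (-(764672 / 15625)) * x ^ 2) * (2 - x)) -
      ((333591063 / 8000000) + (-(32935321 / 250000)) * x +
      (435096 / 3125) * x ^ 2 + (-(764672 / 15625)) * x ^ 3) ^ 2 * (2 - x) := by
    rw [hs, ht]
    ring
  rw [e] at h
  linarith

theorem cre_c2_5_q_0 (x : ℝ) (h1 : 31 / 32 ≤ x) (h2 : x ≤ 63 / 64) :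
    0 ≤
      (x - ((333591063 / 8000000) + (-(32935321 / 250000)) * x +
      (435096 / 3125) * x ^ 2 + (-(764672 / 15625)) * x ^ 3) -
      ((-(32935321 / 250000)) + 2 * (435096 / 3125) * x +
      3 * (-(764672 / 15625)) * x ^ 2) * (2 - x)) := by
  obtain ⟨s, hs⟩ : ∃ s, s = x - 31 / 32 := ⟨_, rfl⟩
  obtain ⟨t, ht⟩ : ∃ t, t = 63 / 64 - x := ⟨_, rfl⟩
  have hs0 : 0 ≤ s := by linarith
  have ht0 : 0 ≤ t := by linarith
  have h : 0 ≤
      1970657792 / 15625 * t ^ 3 + 1274349056 / 3125 * s * t ^ 2 +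
      6979923968 / 15625 * s ^ 2 * t + 2577307136 / 15625 * s ^ 3 := by
    positivity
  have e :
      1970657792 / 15625 * t ^ 3 + 1274349056 / 3125 * s * t ^ 2 +
      6979923968 / 15625 * s ^ 2 * t + 2577307136 / 15625 * s ^ 3 =
      (x - ((333591063 / 8000000) + (-(32935321 / 250000)) * x +
      (435096 / 3125) * x ^ 2 + (-(764672 / 15625)) * x ^ 3) -
      ((-(32935321 / 250000)) + 2 * (435096 / 3125) * x +
      3 * (-(764672 / 15625)) * x ^ 2) * (2 - x)) -
      0 := by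
    rw [hs, ht]
    ring
  rw [e] at h
  linarith

theorem cre_c2_6_p_0 (x : ℝ) (h1 : 63 / 64 ≤ x) (h2 : x ≤ 1) :
    ((21956721 / 200000) + (-(84743497 / 250000)) * x +
      (5460704 / 15625) * x ^ 2 + (-(1875712 / 15625)) * x ^ 3) ^ 2 * (2 - x) ≤
      (107 / 100 - x ^ 2) *
      (x - ((21956721 / 200000) + (-(84743497 / 250000)) * x +
      (5460704 / 15625) * x ^ 2 + (-(1875712 / 15625)) * x ^ 3) -
      ((-(84743497 / 250000)) + 2 * (5460704 / 15625) * x +
      3 * (-(1875712 / 15625)) * x ^ 2) * (2 - x)) := by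
  obtain ⟨s, hs⟩ : ∃ s, s = x - 63 / 64 := ⟨_, rfl⟩
  obtain ⟨t, ht⟩ : ∃ t, t = 1 - x := ⟨_, rfl⟩
  have hs0 : 0 ≤ s := by linarith
  have ht0 : 0 ≤ t := by linarith
  have h : 0 ≤
      108499296900349952 / 48828125 * t ^ 7 + 2159203978330505216 / 244140625 * s * t ^ 6 +
      5843488423479607296 / 244140625 * s ^ 2 * t ^ 5 +
      13005533506974777344 / 244140625 * s ^ 3 * t ^ 4 +
      3557441715461881856 / 48828125 * s ^ 4 * t ^ 3 +
      2553338103106371584 / 48828125 * s ^ 5 * t ^ 2 +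
      165359433918971904 / 9765625 * s ^ 6 * t + 15030194028937216 / 9765625 * s ^ 7 := by
    positivity
  have e :
      108499296900349952 / 48828125 * t ^ 7 + 2159203978330505216 / 244140625 * s * t ^ 6 +
      5843488423479607296 / 244140625 * s ^ 2 * t ^ 5 +
      13005533506974777344 / 244140625 * s ^ 3 * t ^ 4 +
      3557441715461881856 / 48828125 * s ^ 4 * t ^ 3 +
      2553338103106371584 / 48828125 * s ^ 5 * t ^ 2 +
      165359433918971904 / 9765625 * s ^ 6 * t + 15030194028937216 / 9765625 * s ^ 7 =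
      (107 / 100 - x ^ 2) *
      (x - ((21956721 / 200000) + (-(84743497 / 250000)) * x +
      (5460704 / 15625) * x ^ 2 + (-(1875712 / 15625)) * x ^ 3) -
      ((-(84743497 / 250000)) + 2 * (5460704 / 15625) * x +
      3 * (-(1875712 / 15625)) * x ^ 2) * (2 - x)) -
      ((21956721 / 200000) + (-(84743497 / 250000)) * x +
      (5460704 / 15625) * x ^ 2 + (-(1875712 / 15625)) * x ^ 3) ^ 2 * (2 - x) := by
    rw [hs, ht]
    ring
  rw [e] at h
  linarith

theorem cre_c2_6_q_0 (x : ℝ) (h1 : 63 / 64 ≤ x) (h2 : x ≤ 1) :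
    0 ≤
      (x - ((21956721 / 200000) + (-(84743497 / 250000)) * x +
      (5460704 / 15625) * x ^ 2 + (-(1875712 / 15625)) * x ^ 3) -
      ((-(84743497 / 250000)) + 2 * (5460704 / 15625) * x +
      3 * (-(1875712 / 15625)) * x ^ 2) * (2 - x)) := by
  obtain ⟨s, hs⟩ : ∃ s, s = x - 63 / 64 := ⟨_, rfl⟩
  obtain ⟨t, ht⟩ : ∃ t, t = 1 - x := ⟨_, rfl⟩
  have hs0 : 0 ≤ s := by linarith
  have ht0 : 0 ≤ t := by linarith
  have h : 0 ≤
      2577307136 / 15625 * t ^ 3 + 8449107968 / 15625 * s * t ^ 2 +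
      9527033856 / 15625 * s ^ 2 * t + 146059264 / 625 * s ^ 3 := by
    positivity
  have e :
      2577307136 / 15625 * t ^ 3 + 8449107968 / 15625 * s * t ^ 2 +
      9527033856 / 15625 * s ^ 2 * t + 146059264 / 625 * s ^ 3 =
      (x - ((21956721 / 200000) + (-(84743497 / 250000)) * x +
      (5460704 / 15625) * x ^ 2 + (-(1875712 / 15625)) * x ^ 3) -
      ((-(84743497 / 250000)) + 2 * (5460704 / 15625) * x +
      3 * (-(1875712 / 15625)) * x ^ 2) * (2 - x)) -
      0 := by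
    rw [hs, ht]
    ring
  rw [e] at h
  linarith

/-- the pair `(107 / 100, 1127 / 1000)` -/
theorem cre_c2 : Cre (107 / 100) (1127 / 1000) := by
  have h0 := Up.zero (107 / 100)
  have h1 : Up (107 / 100) (1 / 2) (67437 / 1000000) := by
    have h := h0.step (β := 1 / 2) (a := (0))
      (b := (0)) (c := (31073 / 125000))
      (d := (5291 / 125000)) (by norm_num) (by norm_num) (by norm_num) (by norm_num)
      (fun x i0 i1 => by
      exact cre_c2_0_p_0 x (by linarith) (by linarith))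
      (fun x i0 i1 => by
      exact cre_c2_0_q_0 x (by linarith) (by linarith))
    norm_num at h ⊢
    exact h
  have h2 : Up (107 / 100) (3 / 4) (78097 / 500000) := by
    have h := h1.step (β := 3 / 4) (a := (1343 / 62500))
      (b := (-(61279 / 500000))) (c := (1503 / 3125))
      (d := (-(3253 / 31250))) (by norm_num) (by norm_num) (by norm_num) (by norm_num)
      (fun x i0 i1 => by
      exact cre_c2_1_p_0 x (by linarith) (by linarith))
      (fun x i0 i1 => by
      exact cre_c2_1_q_0 x (by linarith) (by linarith))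
    norm_num at h ⊢
    exact h
  have h3 : Up (107 / 100) (7 / 8) (105577 / 500000) := by
    have h := h2.step (β := 7 / 8) (a := (222757 / 500000))
      (b := (-(3607 / 2000))) (c := (1351 / 500))
      (d := (-(3382 / 3125))) (by norm_num) (by norm_num) (by norm_num) (by norm_num)
      (fun x i0 i1 => by
      exact cre_c2_2_p_0 x (by linarith) (by linarith))
      (fun x i0 i1 => by
      exact cre_c2_2_q_0 x (by linarith) (by linarith))
    norm_num at h ⊢
    exact h
  have h4 : Up (107 / 100) (15 / 16) (23683 / 100000) := by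
    have h := h3.step (β := 15 / 16) (a := (2692349 / 800000))
      (b := (-(1179481 / 100000))) (c := (440561 / 31250))
      (d := (-(84608 / 15625))) (by norm_num) (by norm_num) (by norm_num) (by norm_num)
      (fun x i0 i1 => by
      exact cre_c2_3_p_0 x (by linarith) (by linarith))
      (fun x i0 i1 => by
      exact cre_c2_3_q_0 x (by linarith) (by linarith))
    norm_num at h ⊢
    exact h
  have h5 : Up (107 / 100) (31 / 32) (246423 / 1000000) := by
    have h := h4.step (β := 31 / 32) (a := (23623513 / 1600000))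
      (b := (-(4827583 / 100000))) (c := (828354 / 15625))
      (d := (-(300832 / 15625))) (by norm_num) (by norm_num) (by norm_num) (by norm_num)
      (fun x i0 i1 => by
      exact cre_c2_4_p_0 x (by linarith) (by linarith))
      (fun x i0 i1 => by
      exact cre_c2_4_q_0 x (by linarith) (by linarith))
    norm_num at h ⊢
    exact h
  have h6 : Up (107 / 100) (63 / 64) (249159 / 1000000) := by
    have h := h5.step (β := 63 / 64) (a := (333591063 / 8000000))
      (b := (-(32935321 / 250000))) (c := (435096 / 3125))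
      (d := (-(764672 / 15625))) (by norm_num) (by norm_num) (by norm_num) (by norm_num)
      (fun x i0 i1 => by
      exact cre_c2_5_p_0 x (by linarith) (by linarith))
      (fun x i0 i1 => by
      exact cre_c2_5_q_0 x (by linarith) (by linarith))
    norm_num at h ⊢
    exact h
  have h7 : Up (107 / 100) (1) (49821 / 200000) := by
    have h := h6.step (β := 1) (a := (21956721 / 200000))
      (b := (-(84743497 / 250000))) (c := (5460704 / 15625))
      (d := (-(1875712 / 15625))) (by norm_num) (by norm_num) (by norm_num) (by norm_num)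
      (fun x i0 i1 => by
      exact cre_c2_6_p_0 x (by linarith) (by linarith))
      (fun x i0 i1 => by
      exact cre_c2_6_q_0 x (by linarith) (by linarith))
    norm_num at h ⊢
    exact h
  exact Up.cre (by simpa using h7) (by norm_num)

theorem cre_d_0_p_0 (x : ℝ) (h1 : 0 ≤ x) (h2 : x ≤ 1 / 2) :
    ((0) + (0) * x +
      (62101 / 250000) * x ^ 2 + (5351 / 125000) * x ^ 3) ^ 2 * (2 - x) ≤
      (11 / 10 - x ^ 2) *
      (x - ((0) + (0) * x +
      (62101 / 250000) * x ^ 2 + (5351 / 125000) * x ^ 3) -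
      ((0) + 2 * (62101 / 250000) * x +
      3 * (5351 / 125000) * x ^ 2) * (2 - x)) := by
  obtain ⟨s, hs⟩ : ∃ s, s = x - 0 := ⟨_, rfl⟩
  obtain ⟨t, ht⟩ : ∃ t, t = 1 / 2 - x := ⟨_, rfl⟩
  have hs0 : 0 ≤ s := by linarith
  have ht0 : 0 ≤ t := by linarith
  have h : 0 ≤
      35112 / 78125 * s * t ^ 6 + 187451 / 78125 * s ^ 2 * t ^ 5 +
      520317 / 78125 * s ^ 3 * t ^ 4 + 41857240799 / 3906250000 * s ^ 4 * t ^ 3 +
      143319604181 / 15625000000 * s ^ 5 * t ^ 2 + 6979923859 / 1953125000 * s ^ 6 * t +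
      398861443 / 976562500 * s ^ 7 := by
    positivity
  have e :
      35112 / 78125 * s * t ^ 6 + 187451 / 78125 * s ^ 2 * t ^ 5 +
      520317 / 78125 * s ^ 3 * t ^ 4 + 41857240799 / 3906250000 * s ^ 4 * t ^ 3 +
      143319604181 / 15625000000 * s ^ 5 * t ^ 2 + 6979923859 / 1953125000 * s ^ 6 * t +
      398861443 / 976562500 * s ^ 7 =
      (11 / 10 - x ^ 2) *
      (x - ((0) + (0) * x +
      (62101 / 250000) * x ^ 2 + (5351 / 125000) * x ^ 3) -
      ((0) + 2 * (62101 / 250000) * x +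
      3 * (5351 / 125000) * x ^ 2) * (2 - x)) -
      ((0) + (0) * x +
      (62101 / 250000) * x ^ 2 + (5351 / 125000) * x ^ 3) ^ 2 * (2 - x) := by
    rw [hs, ht]
    ring
  rw [e] at h
  linarith

theorem cre_d_0_q_0 (x : ℝ) (h1 : 0 ≤ x) (h2 : x ≤ 1 / 2) :
    0 ≤
      (x - ((0) + (0) * x +
      (62101 / 250000) * x ^ 2 + (5351 / 125000) * x ^ 3) -
      ((0) + 2 * (62101 / 250000) * x +
      3 * (5351 / 125000) * x ^ 2) * (2 - x)) := by
  obtain ⟨s, hs⟩ : ∃ s, s = x - 0 := ⟨_, rfl⟩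
  obtain ⟨t, ht⟩ : ∃ t, t = 1 / 2 - x := ⟨_, rfl⟩
  have hs0 : 0 ≤ s := by linarith
  have ht0 : 0 ≤ t := by linarith
  have h : 0 ≤
      399 / 15625 * s * t ^ 2 + 4273 / 125000 * s ^ 2 * t + 11783 / 125000 * s ^ 3 := by
    positivity
  have e :
      399 / 15625 * s * t ^ 2 + 4273 / 125000 * s ^ 2 * t + 11783 / 125000 * s ^ 3 =
      (x - ((0) + (0) * x +
      (62101 / 250000) * x ^ 2 + (5351 / 125000) * x ^ 3) -
      ((0) + 2 * (62101 / 250000) * x +
      3 * (5351 / 125000) * x ^ 2) * (2 - x)) -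
      0 := by
    rw [hs, ht]
    ring
  rw [e] at h
  linarith

theorem cre_d_1_p_0 (x : ℝ) (h1 : 1 / 2 ≤ x) (h2 : x ≤ 3 / 4) :
    ((19491 / 1000000) + (-(55621 / 500000)) * x +
      (11487 / 25000) * x ^ 2 + (-(1411 / 15625)) * x ^ 3) ^ 2 * (2 - x) ≤
      (11 / 10 - x ^ 2) *
      (x - ((19491 / 1000000) + (-(55621 / 500000)) * x +
      (11487 / 25000) * x ^ 2 + (-(1411 / 15625)) * x ^ 3) -
      ((-(55621 / 500000)) + 2 * (11487 / 25000) * x +
      3 * (-(1411 / 15625)) * x ^ 2) * (2 - x)) := by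
  obtain ⟨s, hs⟩ : ∃ s, s = x - 1 / 2 := ⟨_, rfl⟩
  obtain ⟨t, ht⟩ : ∃ t, t = 3 / 4 - x := ⟨_, rfl⟩
  have hs0 : 0 ≤ s := by linarith
  have ht0 : 0 ≤ t := by linarith
  have h : 0 ≤
      12763566176 / 244140625 * t ^ 7 + 49087653976 / 244140625 * s * t ^ 6 +
      270665633493 / 488281250 * s ^ 2 * t ^ 5 + 257467213867 / 195312500 * s ^ 3 * t ^ 4 +
      92364494827 / 48828125 * s ^ 4 * t ^ 3 + 54523550043 / 39062500 * s ^ 5 * t ^ 2 +
      4474432164 / 9765625 * s ^ 6 * t + 80702344 / 1953125 * s ^ 7 := by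
    positivity
  have e :
      12763566176 / 244140625 * t ^ 7 + 49087653976 / 244140625 * s * t ^ 6 +
      270665633493 / 488281250 * s ^ 2 * t ^ 5 + 257467213867 / 195312500 * s ^ 3 * t ^ 4 +
      92364494827 / 48828125 * s ^ 4 * t ^ 3 + 54523550043 / 39062500 * s ^ 5 * t ^ 2 +
      4474432164 / 9765625 * s ^ 6 * t + 80702344 / 1953125 * s ^ 7 =
      (11 / 10 - x ^ 2) *
      (x - ((19491 / 1000000) + (-(55621 / 500000)) * x +
      (11487 / 25000) * x ^ 2 + (-(1411 / 15625)) * x ^ 3) -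
      ((-(55621 / 500000)) + 2 * (11487 / 25000) * x +
      3 * (-(1411 / 15625)) * x ^ 2) * (2 - x)) -
      ((19491 / 1000000) + (-(55621 / 500000)) * x +
      (11487 / 25000) * x ^ 2 + (-(1411 / 15625)) * x ^ 3) ^ 2 * (2 - x) := by
    rw [hs, ht]
    ring
  rw [e] at h
  linarith

theorem cre_d_1_q_0 (x : ℝ) (h1 : 1 / 2 ≤ x) (h2 : x ≤ 3 / 4) :
    0 ≤
      (x - ((19491 / 1000000) + (-(55621 / 500000)) * x +
      (11487 / 25000) * x ^ 2 + (-(1411 / 15625)) * x ^ 3) -
      ((-(55621 / 500000)) + 2 * (11487 / 25000) * x +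
      3 * (-(1411 / 15625)) * x ^ 2) * (2 - x)) := by
  obtain ⟨s, hs⟩ : ∃ s, s = x - 1 / 2 := ⟨_, rfl⟩
  obtain ⟨t, ht⟩ : ∃ t, t = 3 / 4 - x := ⟨_, rfl⟩
  have hs0 : 0 ≤ s := by linarith
  have ht0 : 0 ≤ t := by linarith
  have h : 0 ≤
      11783 / 15625 * t ^ 3 + 42331 / 15625 * s * t ^ 2 + 7597 / 1250 * s ^ 2 * t +
      24637 / 6250 * s ^ 3 := by
    positivity
  have e :
      11783 / 15625 * t ^ 3 + 42331 / 15625 * s * t ^ 2 + 7597 / 1250 * s ^ 2 * t +
      24637 / 6250 * s ^ 3 =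
      (x - ((19491 / 1000000) + (-(55621 / 500000)) * x +
      (11487 / 25000) * x ^ 2 + (-(1411 / 15625)) * x ^ 3) -
      ((-(55621 / 500000)) + 2 * (11487 / 25000) * x +
      3 * (-(1411 / 15625)) * x ^ 2) * (2 - x)) -
      0 := by
    rw [hs, ht]
    ring
  rw [e] at h
  linarith

theorem cre_d_2_p_0 (x : ℝ) (h1 : 3 / 4 ≤ x) (h2 : x ≤ 7 / 8) :
    ((150117 / 400000) + (-(761809 / 500000)) * x +
      (145513 / 62500) * x ^ 2 + (-(14288 / 15625)) * x ^ 3) ^ 2 * (2 - x) ≤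
      (11 / 10 - x ^ 2) *
      (x - ((150117 / 400000) + (-(761809 / 500000)) * x +
      (145513 / 62500) * x ^ 2 + (-(14288 / 15625)) * x ^ 3) -
      ((-(761809 / 500000)) + 2 * (145513 / 62500) * x +
      3 * (-(14288 / 15625)) * x ^ 2) * (2 - x)) := by
  obtain ⟨s, hs⟩ : ∃ s, s = x - 3 / 4 := ⟨_, rfl⟩
  obtain ⟨t, ht⟩ : ∃ t, t = 7 / 8 - x := ⟨_, rfl⟩
  have hs0 : 0 ≤ s := by linarith
  have ht0 : 0 ≤ t := by linarith
  have h : 0 ≤
      10329900032 / 1953125 * t ^ 7 + 206282493184 / 9765625 * s * t ^ 6 +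
      22035201304 / 390625 * s ^ 2 * t ^ 5 + 6035355913468 / 48828125 * s ^ 3 * t ^ 4 +
      8183736926064 / 48828125 * s ^ 4 * t ^ 3 + 29202667587964 / 244140625 * s ^ 5 * t ^ 2 +
      9397098390496 / 244140625 * s ^ 6 * t + 842716001856 / 244140625 * s ^ 7 := by
    positivity
  have e :
      10329900032 / 1953125 * t ^ 7 + 206282493184 / 9765625 * s * t ^ 6 +
      22035201304 / 390625 * s ^ 2 * t ^ 5 + 6035355913468 / 48828125 * s ^ 3 * t ^ 4 +
      8183736926064 / 48828125 * s ^ 4 * t ^ 3 + 29202667587964 / 244140625 * s ^ 5 * t ^ 2 +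
      9397098390496 / 244140625 * s ^ 6 * t + 842716001856 / 244140625 * s ^ 7 =
      (11 / 10 - x ^ 2) *
      (x - ((150117 / 400000) + (-(761809 / 500000)) * x +
      (145513 / 62500) * x ^ 2 + (-(14288 / 15625)) * x ^ 3) -
      ((-(761809 / 500000)) + 2 * (145513 / 62500) * x +
      3 * (-(14288 / 15625)) * x ^ 2) * (2 - x)) -
      ((150117 / 400000) + (-(761809 / 500000)) * x +
      (145513 / 62500) * x ^ 2 + (-(14288 / 15625)) * x ^ 3) ^ 2 * (2 - x) := by
    rw [hs, ht]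
    ring
  rw [e] at h
  linarith

theorem cre_d_2_q_0 (x : ℝ) (h1 : 3 / 4 ≤ x) (h2 : x ≤ 7 / 8) :
    0 ≤
      (x - ((150117 / 400000) + (-(761809 / 500000)) * x +
      (145513 / 62500) * x ^ 2 + (-(14288 / 15625)) * x ^ 3) -
      ((-(761809 / 500000)) + 2 * (145513 / 62500) * x +
      3 * (-(14288 / 15625)) * x ^ 2) * (2 - x)) := by
  obtain ⟨s, hs⟩ : ∃ s, s = x - 3 / 4 := ⟨_, rfl⟩
  obtain ⟨t, ht⟩ : ∃ t, t = 7 / 8 - x := ⟨_, rfl⟩
  have hs0 : 0 ≤ s := by linarith
  have ht0 : 0 ≤ t := by linarith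
  have h : 0 ≤
      98548 / 3125 * t ^ 3 + 360276 / 3125 * s * t ^ 2 + 2587022 / 15625 * s ^ 2 * t +
      1249806 / 15625 * s ^ 3 := by
    positivity
  have e :
      98548 / 3125 * t ^ 3 + 360276 / 3125 * s * t ^ 2 + 2587022 / 15625 * s ^ 2 * t +
      1249806 / 15625 * s ^ 3 =
      (x - ((150117 / 400000) + (-(761809 / 500000)) * x +
      (145513 / 62500) * x ^ 2 + (-(14288 / 15625)) * x ^ 3) -
      ((-(761809 / 500000)) + 2 * (145513 / 62500) * x +
      3 * (-(14288 / 15625)) * x ^ 2) * (2 - x)) -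
      0 := by
    rw [hs, ht]
    ring
  rw [e] at h
  linarith

theorem cre_d_3_p_0 (x : ℝ) (h1 : 7 / 8 ≤ x) (h2 : x ≤ 15 / 16) :
    ((2006757 / 800000) + (-(883019 / 100000)) * x +
      (166726 / 15625) * x ^ 2 + (-(63896 / 15625)) * x ^ 3) ^ 2 * (2 - x) ≤
      (11 / 10 - x ^ 2) *
      (x - ((2006757 / 800000) + (-(883019 / 100000)) * x +
      (166726 / 15625) * x ^ 2 + (-(63896 / 15625)) * x ^ 3) -
      ((-(883019 / 100000)) + 2 * (166726 / 15625) * x +
      3 * (-(63896 / 15625)) * x ^ 2) * (2 - x)) := by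
  obtain ⟨s, hs⟩ : ∃ s, s = x - 7 / 8 := ⟨_, rfl⟩
  obtain ⟨t, ht⟩ : ∃ t, t = 15 / 16 - x := ⟨_, rfl⟩
  have hs0 : 0 ≤ s := by linarith
  have ht0 : 0 ≤ t := by linarith
  have h : 0 ≤
      107867648237568 / 244140625 * t ^ 7 + 101239614060544 / 48828125 * s * t ^ 6 +
      1393627927001984 / 244140625 * s ^ 2 * t ^ 5 +
      2738893865769408 / 244140625 * s ^ 3 * t ^ 4 +
      674162530310144 / 48828125 * s ^ 4 * t ^ 3 +
      457569587387392 / 48828125 * s ^ 5 * t ^ 2 + 29309487583232 / 9765625 * s ^ 6 * t +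
      2884385042432 / 9765625 * s ^ 7 := by
    positivity
  have e :
      107867648237568 / 244140625 * t ^ 7 + 101239614060544 / 48828125 * s * t ^ 6 +
      1393627927001984 / 244140625 * s ^ 2 * t ^ 5 +
      2738893865769408 / 244140625 * s ^ 3 * t ^ 4 +
      674162530310144 / 48828125 * s ^ 4 * t ^ 3 +
      457569587387392 / 48828125 * s ^ 5 * t ^ 2 + 29309487583232 / 9765625 * s ^ 6 * t +
      2884385042432 / 9765625 * s ^ 7 =
      (11 / 10 - x ^ 2) *
      (x - ((2006757 / 800000) + (-(883019 / 100000)) * x +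
      (166726 / 15625) * x ^ 2 + (-(63896 / 15625)) * x ^ 3) -
      ((-(883019 / 100000)) + 2 * (166726 / 15625) * x +
      3 * (-(63896 / 15625)) * x ^ 2) * (2 - x)) -
      ((2006757 / 800000) + (-(883019 / 100000)) * x +
      (166726 / 15625) * x ^ 2 + (-(63896 / 15625)) * x ^ 3) ^ 2 * (2 - x) := by
    rw [hs, ht]
    ring
  rw [e] at h
  linarith

theorem cre_d_3_q_0 (x : ℝ) (h1 : 7 / 8 ≤ x) (h2 : x ≤ 15 / 16) :
    0 ≤
      (x - ((2006757 / 800000) + (-(883019 / 100000)) * x +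
      (166726 / 15625) * x ^ 2 + (-(63896 / 15625)) * x ^ 3) -
      ((-(883019 / 100000)) + 2 * (166726 / 15625) * x +
      3 * (-(63896 / 15625)) * x ^ 2) * (2 - x)) := by
  obtain ⟨s, hs⟩ : ∃ s, s = x - 7 / 8 := ⟨_, rfl⟩
  obtain ⟨t, ht⟩ : ∃ t, t = 15 / 16 - x := ⟨_, rfl⟩
  have hs0 : 0 ≤ s := by linarith
  have ht0 : 0 ≤ t := by linarith
  have h : 0 ≤
      9998448 / 15625 * t ^ 3 + 6914384 / 3125 * s * t ^ 2 + 42582864 / 15625 * s ^ 2 * t +
      715264 / 625 * s ^ 3 := by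
    positivity
  have e :
      9998448 / 15625 * t ^ 3 + 6914384 / 3125 * s * t ^ 2 + 42582864 / 15625 * s ^ 2 * t +
      715264 / 625 * s ^ 3 =
      (x - ((2006757 / 800000) + (-(883019 / 100000)) * x +
      (166726 / 15625) * x ^ 2 + (-(63896 / 15625)) * x ^ 3) -
      ((-(883019 / 100000)) + 2 * (166726 / 15625) * x +
      3 * (-(63896 / 15625)) * x ^ 2) * (2 - x)) -
      0 := by
    rw [hs, ht]
    ring
  rw [e] at h
  linarith

theorem cre_d_4_p_0 (x : ℝ) (h1 : 15 / 16 ≤ x) (h2 : x ≤ 31 / 32) :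
    ((7503957 / 800000) + (-(96367 / 3125)) * x +
      (533821 / 15625) * x ^ 2 + (-(194528 / 15625)) * x ^ 3) ^ 2 * (2 - x) ≤
      (11 / 10 - x ^ 2) *
      (x - ((7503957 / 800000) + (-(96367 / 3125)) * x +
      (533821 / 15625) * x ^ 2 + (-(194528 / 15625)) * x ^ 3) -
      ((-(96367 / 3125)) + 2 * (533821 / 15625) * x +
      3 * (-(194528 / 15625)) * x ^ 2) * (2 - x)) := by
  obtain ⟨s, hs⟩ : ∃ s, s = x - 15 / 16 := ⟨_, rfl⟩
  obtain ⟨t, ht⟩ : ∃ t, t = 31 / 32 - x := ⟨_, rfl⟩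
  have hs0 : 0 ≤ s := by linarith
  have ht0 : 0 ≤ t := by linarith
  have h : 0 ≤
      369201285431296 / 9765625 * t ^ 7 + 419551820644352 / 1953125 * s * t ^ 6 +
      29897371718057984 / 48828125 * s ^ 2 * t ^ 5 +
      52958910438572032 / 48828125 * s ^ 3 * t ^ 4 +
      290225250545547264 / 244140625 * s ^ 4 * t ^ 3 +
      183946360520817664 / 244140625 * s ^ 5 * t ^ 2 +
      59013404604203008 / 244140625 * s ^ 6 * t + 6770693422743552 / 244140625 * s ^ 7 := by
    positivity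
  have e :
      369201285431296 / 9765625 * t ^ 7 + 419551820644352 / 1953125 * s * t ^ 6 +
      29897371718057984 / 48828125 * s ^ 2 * t ^ 5 +
      52958910438572032 / 48828125 * s ^ 3 * t ^ 4 +
      290225250545547264 / 244140625 * s ^ 4 * t ^ 3 +
      183946360520817664 / 244140625 * s ^ 5 * t ^ 2 +
      59013404604203008 / 244140625 * s ^ 6 * t + 6770693422743552 / 244140625 * s ^ 7 =
      (11 / 10 - x ^ 2) *
      (x - ((7503957 / 800000) + (-(96367 / 3125)) * x +
      (533821 / 15625) * x ^ 2 + (-(194528 / 15625)) * x ^ 3) -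
      ((-(96367 / 3125)) + 2 * (533821 / 15625) * x +
      3 * (-(194528 / 15625)) * x ^ 2) * (2 - x)) -
      ((7503957 / 800000) + (-(96367 / 3125)) * x +
      (533821 / 15625) * x ^ 2 + (-(194528 / 15625)) * x ^ 3) ^ 2 * (2 - x) := by
    rw [hs, ht]
    ring
  rw [e] at h
  linarith

theorem cre_d_4_q_0 (x : ℝ) (h1 : 15 / 16 ≤ x) (h2 : x ≤ 31 / 32) :
    0 ≤
      (x - ((7503957 / 800000) + (-(96367 / 3125)) * x +
      (533821 / 15625) * x ^ 2 + (-(194528 / 15625)) * x ^ 3) -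
      ((-(96367 / 3125)) + 2 * (533821 / 15625) * x +
      3 * (-(194528 / 15625)) * x ^ 2) * (2 - x)) := by
  obtain ⟨s, hs⟩ : ∃ s, s = x - 15 / 16 := ⟨_, rfl⟩
  obtain ⟨t, ht⟩ : ∃ t, t = 31 / 32 - x := ⟨_, rfl⟩
  have hs0 : 0 ≤ s := by linarith
  have ht0 : 0 ≤ t := by linarith
  have h : 0 ≤
      5722112 / 625 * t ^ 3 + 474075264 / 15625 * s * t ^ 2 + 538408736 / 15625 * s ^ 2 * t +
      206997216 / 15625 * s ^ 3 := by
    positivity
  have e :
      5722112 / 625 * t ^ 3 + 474075264 / 15625 * s * t ^ 2 + 538408736 / 15625 * s ^ 2 * t +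
      206997216 / 15625 * s ^ 3 =
      (x - ((7503957 / 800000) + (-(96367 / 3125)) * x +
      (533821 / 15625) * x ^ 2 + (-(194528 / 15625)) * x ^ 3) -
      ((-(96367 / 3125)) + 2 * (533821 / 15625) * x +
      3 * (-(194528 / 15625)) * x ^ 2) * (2 - x)) -
      0 := by
    rw [hs, ht]
    ring
  rw [e] at h
  linarith

theorem cre_d_5_p_0 (x : ℝ) (h1 : 31 / 32 ≤ x) (h2 : x ≤ 1) :
    ((33953437 / 1000000) + (-(6668387 / 62500)) * x +
      (1753417 / 15625) * x ^ 2 + (-(612832 / 15625)) * x ^ 3) ^ 2 * (2 - x) ≤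
      (11 / 10 - x ^ 2) *
      (x - ((33953437 / 1000000) + (-(6668387 / 62500)) * x +
      (1753417 / 15625) * x ^ 2 + (-(612832 / 15625)) * x ^ 3) -
      ((-(6668387 / 62500)) + 2 * (1753417 / 15625) * x +
      3 * (-(612832 / 15625)) * x ^ 2) * (2 - x)) := by
  obtain ⟨s, hs⟩ : ∃ s, s = x - 31 / 32 := ⟨_, rfl⟩
  obtain ⟨t, ht⟩ : ∃ t, t = 1 - x := ⟨_, rfl⟩
  have hs0 : 0 ≤ s := by linarith
  have ht0 : 0 ≤ t := by linarith
  have h : 0 ≤
      6770693422743552 / 244140625 * t ^ 7 + 2795687158841344 / 48828125 * s * t ^ 6 +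
      30776038621428736 / 244140625 * s ^ 2 * t ^ 5 +
      122697642090872832 / 244140625 * s ^ 3 * t ^ 4 +
      45177967826599936 / 48828125 * s ^ 4 * t ^ 3 +
      36346146701180928 / 48828125 * s ^ 5 * t ^ 2 + 2366671024816128 / 9765625 * s ^ 6 * t +
      167876438786048 / 9765625 * s ^ 7 := by
    positivity
  have e :
      6770693422743552 / 244140625 * t ^ 7 + 2795687158841344 / 48828125 * s * t ^ 6 +
      30776038621428736 / 244140625 * s ^ 2 * t ^ 5 +
      122697642090872832 / 244140625 * s ^ 3 * t ^ 4 +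
      45177967826599936 / 48828125 * s ^ 4 * t ^ 3 +
      36346146701180928 / 48828125 * s ^ 5 * t ^ 2 + 2366671024816128 / 9765625 * s ^ 6 * t +
      167876438786048 / 9765625 * s ^ 7 =
      (11 / 10 - x ^ 2) *
      (x - ((33953437 / 1000000) + (-(6668387 / 62500)) * x +
      (1753417 / 15625) * x ^ 2 + (-(612832 / 15625)) * x ^ 3) -
      ((-(6668387 / 62500)) + 2 * (1753417 / 15625) * x +
      3 * (-(612832 / 15625)) * x ^ 2) * (2 - x)) -
      ((33953437 / 1000000) + (-(6668387 / 62500)) * x +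
      (1753417 / 15625) * x ^ 2 + (-(612832 / 15625)) * x ^ 3) ^ 2 * (2 - x) := by
    rw [hs, ht]
    ring
  rw [e] at h
  linarith

theorem cre_d_5_q_0 (x : ℝ) (h1 : 31 / 32 ≤ x) (h2 : x ≤ 1) :
    0 ≤
      (x - ((33953437 / 1000000) + (-(6668387 / 62500)) * x +
      (1753417 / 15625) * x ^ 2 + (-(612832 / 15625)) * x ^ 3) -
      ((-(6668387 / 62500)) + 2 * (1753417 / 15625) * x +
      3 * (-(612832 / 15625)) * x ^ 2) * (2 - x)) := by
  obtain ⟨s, hs⟩ : ∃ s, s = x - 31 / 32 := ⟨_, rfl⟩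
  obtain ⟨t, ht⟩ : ∃ t, t = 1 - x := ⟨_, rfl⟩
  have hs0 : 0 ≤ s := by linarith
  have ht0 : 0 ≤ t := by linarith
  have h : 0 ≤
      206997216 / 15625 * t ^ 3 + 139067552 / 3125 * s * t ^ 2 +
      829470208 / 15625 * s ^ 2 * t + 2719232 / 125 * s ^ 3 := by
    positivity
  have e :
      206997216 / 15625 * t ^ 3 + 139067552 / 3125 * s * t ^ 2 +
      829470208 / 15625 * s ^ 2 * t + 2719232 / 125 * s ^ 3 =
      (x - ((33953437 / 1000000) + (-(6668387 / 62500)) * x +
      (1753417 / 15625) * x ^ 2 + (-(612832 / 15625)) * x ^ 3) -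
      ((-(6668387 / 62500)) + 2 * (1753417 / 15625) * x +
      3 * (-(612832 / 15625)) * x ^ 2) * (2 - x)) -
      0 := by
    rw [hs, ht]
    ring
  rw [e] at h
  linarith

/-- the pair `(11 / 10, 279 / 250)` -/
theorem cre_d : Cre (11 / 10) (279 / 250) := by
  have h0 := Up.zero (11 / 10)
  have h1 : Up (11 / 10) (1 / 2) (16863 / 250000) := by
    have h := h0.step (β := 1 / 2) (a := (0))
      (b := (0)) (c := (62101 / 250000))
      (d := (5351 / 125000)) (by norm_num) (by norm_num) (by norm_num) (by norm_num)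
      (fun x i0 i1 => by
      exact cre_d_0_p_0 x (by linarith) (by linarith))
      (fun x i0 i1 => by
      exact cre_d_0_q_0 x (by linarith) (by linarith))
    norm_num at h ⊢
    exact h
  have h2 : Up (11 / 10) (3 / 4) (7821 / 50000) := by
    have h := h1.step (β := 3 / 4) (a := (19491 / 1000000))
      (b := (-(55621 / 500000))) (c := (11487 / 25000))
      (d := (-(1411 / 15625))) (by norm_num) (by norm_num) (by norm_num) (by norm_num)
      (fun x i0 i1 => by
      exact cre_d_1_p_0 x (by linarith) (by linarith))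
      (fun x i0 i1 => by
      exact cre_d_1_q_0 x (by linarith) (by linarith))
    norm_num at h ⊢
    exact h
  have h3 : Up (11 / 10) (7 / 8) (212063 / 1000000) := by
    have h := h2.step (β := 7 / 8) (a := (150117 / 400000))
      (b := (-(761809 / 500000))) (c := (145513 / 62500))
      (d := (-(14288 / 15625))) (by norm_num) (by norm_num) (by norm_num) (by norm_num)
      (fun x i0 i1 => by
      exact cre_d_2_p_0 x (by linarith) (by linarith))
      (fun x i0 i1 => by
      exact cre_d_2_q_0 x (by linarith) (by linarith))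
    norm_num at h ⊢
    exact h
  have h4 : Up (11 / 10) (15 / 16) (47793 / 200000) := by
    have h := h3.step (β := 15 / 16) (a := (2006757 / 800000))
      (b := (-(883019 / 100000))) (c := (166726 / 15625))
      (d := (-(63896 / 15625))) (by norm_num) (by norm_num) (by norm_num) (by norm_num)
      (fun x i0 i1 => by
      exact cre_d_3_p_0 x (by linarith) (by linarith))
      (fun x i0 i1 => by
      exact cre_d_3_q_0 x (by linarith) (by linarith))
    norm_num at h ⊢
    exact h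
  have h5 : Up (11 / 10) (31 / 32) (125041 / 500000) := by
    have h := h4.step (β := 31 / 32) (a := (7503957 / 800000))
      (b := (-(96367 / 3125))) (c := (533821 / 15625))
      (d := (-(194528 / 15625))) (by norm_num) (by norm_num) (by norm_num) (by norm_num)
      (fun x i0 i1 => by
      exact cre_d_4_p_0 x (by linarith) (by linarith))
      (fun x i0 i1 => by
      exact cre_d_4_q_0 x (by linarith) (by linarith))
    norm_num at h ⊢
    exact h
  have h6 : Up (11 / 10) (1) (51337 / 200000) := by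
    have h := h5.step (β := 1) (a := (33953437 / 1000000))
      (b := (-(6668387 / 62500))) (c := (1753417 / 15625))
      (d := (-(612832 / 15625))) (by norm_num) (by norm_num) (by norm_num) (by norm_num)
      (fun x i0 i1 => by
      exact cre_d_5_p_0 x (by linarith) (by linarith))
      (fun x i0 i1 => by
      exact cre_d_5_q_0 x (by linarith) (by linarith))
    norm_num at h ⊢
    exact h
  exact Up.cre (by simpa using h6) (by norm_num)

theorem cre_e_0_p_0 (x : ℝ) (h1 : 0 ≤ x) (h2 : x ≤ 1 / 2) :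
    ((0) + (0) * x +
      (61971 / 250000) * x ^ 2 + (2763 / 62500) * x ^ 3) ^ 2 * (2 - x) ≤
      (6 / 5 - x ^ 2) *
      (x - ((0) + (0) * x +
      (61971 / 250000) * x ^ 2 + (2763 / 62500) * x ^ 3) -
      ((0) + 2 * (61971 / 250000) * x +
      3 * (2763 / 62500) * x ^ 2) * (2 - x)) := by
  obtain ⟨s, hs⟩ : ∃ s, s = x - 0 := ⟨_, rfl⟩
  obtain ⟨t, ht⟩ : ∃ t, t = 1 / 2 - x := ⟨_, rfl⟩
  have hs0 : 0 ≤ s := by linarith
  have ht0 : 0 ≤ t := by linarith
  have h : 0 ≤
      50784 / 78125 * s * t ^ 6 + 252612 / 78125 * s ^ 2 * t ^ 5 +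
      623344 / 78125 * s ^ 3 * t ^ 4 + 45849020159 / 3906250000 * s ^ 4 * t ^ 3 +
      150622232781 / 15625000000 * s ^ 5 * t ^ 2 + 29311490221 / 7812500000 * s ^ 6 * t +
      7124164973 / 15625000000 * s ^ 7 := by
    positivity
  have e :
      50784 / 78125 * s * t ^ 6 + 252612 / 78125 * s ^ 2 * t ^ 5 +
      623344 / 78125 * s ^ 3 * t ^ 4 + 45849020159 / 3906250000 * s ^ 4 * t ^ 3 +
      150622232781 / 15625000000 * s ^ 5 * t ^ 2 + 29311490221 / 7812500000 * s ^ 6 * t +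
      7124164973 / 15625000000 * s ^ 7 =
      (6 / 5 - x ^ 2) *
      (x - ((0) + (0) * x +
      (61971 / 250000) * x ^ 2 + (2763 / 62500) * x ^ 3) -
      ((0) + 2 * (61971 / 250000) * x +
      3 * (2763 / 62500) * x ^ 2) * (2 - x)) -
      ((0) + (0) * x +
      (61971 / 250000) * x ^ 2 + (2763 / 62500) * x ^ 3) ^ 2 * (2 - x) := by
    rw [hs, ht]
    ring
  rw [e] at h
  linarith

theorem cre_e_0_q_0 (x : ℝ) (h1 : 0 ≤ x) (h2 : x ≤ 1 / 2) :
    0 ≤
      (x - ((0) + (0) * x +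
      (61971 / 250000) * x ^ 2 + (2763 / 62500) * x ^ 3) -
      ((0) + 2 * (61971 / 250000) * x +
      3 * (2763 / 62500) * x ^ 2) * (2 - x)) := by
  obtain ⟨s, hs⟩ : ∃ s, s = x - 0 := ⟨_, rfl⟩
  obtain ⟨t, ht⟩ : ∃ t, t = 1 / 2 - x := ⟨_, rfl⟩
  have hs0 : 0 ≤ s := by linarith
  have ht0 : 0 ≤ t := by linarith
  have h : 0 ≤
      529 / 15625 * s * t ^ 2 + 4123 / 125000 * s ^ 2 * t + 10943 / 125000 * s ^ 3 := by
    positivity
  have e :
      529 / 15625 * s * t ^ 2 + 4123 / 125000 * s ^ 2 * t + 10943 / 125000 * s ^ 3 =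
      (x - ((0) + (0) * x +
      (61971 / 250000) * x ^ 2 + (2763 / 62500) * x ^ 3) -
      ((0) + 2 * (61971 / 250000) * x +
      3 * (2763 / 62500) * x ^ 2) * (2 - x)) -
      0 := by
    rw [hs, ht]
    ring
  rw [e] at h
  linarith

theorem cre_e_1_p_0 (x : ℝ) (h1 : 1 / 2 ≤ x) (h2 : x ≤ 3 / 4) :
    ((2897 / 200000) + (-(2587 / 31250)) * x +
      (1013 / 2500) * x ^ 2 + (-(862 / 15625)) * x ^ 3) ^ 2 * (2 - x) ≤
      (6 / 5 - x ^ 2) *
      (x - ((2897 / 200000) + (-(2587 / 31250)) * x +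
      (1013 / 2500) * x ^ 2 + (-(862 / 15625)) * x ^ 3) -
      ((-(2587 / 31250)) + 2 * (1013 / 2500) * x +
      3 * (-(862 / 15625)) * x ^ 2) * (2 - x)) := by
  obtain ⟨s, hs⟩ : ∃ s, s = x - 1 / 2 := ⟨_, rfl⟩
  obtain ⟨t, ht⟩ : ∃ t, t = 3 / 4 - x := ⟨_, rfl⟩
  have hs0 : 0 ≤ s := by linarith
  have ht0 : 0 ≤ t := by linarith
  have h : 0 ≤
      14248329946 / 244140625 * t ^ 7 + 67466283991 / 244140625 * s * t ^ 6 +
      193767893428 / 244140625 * s ^ 2 * t ^ 5 + 16105573947 / 9765625 * s ^ 3 * t ^ 4 +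
      517324785848 / 244140625 * s ^ 4 * t ^ 3 + 361962346576 / 244140625 * s ^ 5 * t ^ 2 +
      118688455456 / 244140625 * s ^ 6 * t + 2392445696 / 48828125 * s ^ 7 := by
    positivity
  have e :
      14248329946 / 244140625 * t ^ 7 + 67466283991 / 244140625 * s * t ^ 6 +
      193767893428 / 244140625 * s ^ 2 * t ^ 5 + 16105573947 / 9765625 * s ^ 3 * t ^ 4 +
      517324785848 / 244140625 * s ^ 4 * t ^ 3 + 361962346576 / 244140625 * s ^ 5 * t ^ 2 +
      118688455456 / 244140625 * s ^ 6 * t + 2392445696 / 48828125 * s ^ 7 =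
      (6 / 5 - x ^ 2) *
      (x - ((2897 / 200000) + (-(2587 / 31250)) * x +
      (1013 / 2500) * x ^ 2 + (-(862 / 15625)) * x ^ 3) -
      ((-(2587 / 31250)) + 2 * (1013 / 2500) * x +
      3 * (-(862 / 15625)) * x ^ 2) * (2 - x)) -
      ((2897 / 200000) + (-(2587 / 31250)) * x +
      (1013 / 2500) * x ^ 2 + (-(862 / 15625)) * x ^ 3) ^ 2 * (2 - x) := by
    rw [hs, ht]
    ring
  rw [e] at h
  linarith

theorem cre_e_1_q_0 (x : ℝ) (h1 : 1 / 2 ≤ x) (h2 : x ≤ 3 / 4) :
    0 ≤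
      (x - ((2897 / 200000) + (-(2587 / 31250)) * x +
      (1013 / 2500) * x ^ 2 + (-(862 / 15625)) * x ^ 3) -
      ((-(2587 / 31250)) + 2 * (1013 / 2500) * x +
      3 * (-(862 / 15625)) * x ^ 2) * (2 - x)) := by
  obtain ⟨s, hs⟩ : ∃ s, s = x - 1 / 2 := ⟨_, rfl⟩
  obtain ⟨t, ht⟩ : ∃ t, t = 3 / 4 - x := ⟨_, rfl⟩
  have hs0 : 0 ≤ s := by linarith
  have ht0 : 0 ≤ t := by linarith
  have h : 0 ≤
      10943 / 15625 * t ^ 3 + 40993 / 15625 * s * t ^ 2 + 84826 / 15625 * s ^ 2 * t +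
      53052 / 15625 * s ^ 3 := by
    positivity
  have e :
      10943 / 15625 * t ^ 3 + 40993 / 15625 * s * t ^ 2 + 84826 / 15625 * s ^ 2 * t +
      53052 / 15625 * s ^ 3 =
      (x - ((2897 / 200000) + (-(2587 / 31250)) * x +
      (1013 / 2500) * x ^ 2 + (-(862 / 15625)) * x ^ 3) -
      ((-(2587 / 31250)) + 2 * (1013 / 2500) * x +
      3 * (-(862 / 15625)) * x ^ 2) * (2 - x)) -
      0 := by
    rw [hs, ht]
    ring
  rw [e] at h
  linarith

theorem cre_e_2_p_0 (x : ℝ) (h1 : 3 / 4 ≤ x) (h2 : x ≤ 7 / 8) :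
    ((231043 / 1000000) + (-(14774 / 15625)) * x +
      (96931 / 62500) * x ^ 2 + (-(8786 / 15625)) * x ^ 3) ^ 2 * (2 - x) ≤
      (6 / 5 - x ^ 2) *
      (x - ((231043 / 1000000) + (-(14774 / 15625)) * x +
      (96931 / 62500) * x ^ 2 + (-(8786 / 15625)) * x ^ 3) -
      ((-(14774 / 15625)) + 2 * (96931 / 62500) * x +
      3 * (-(8786 / 15625)) * x ^ 2) * (2 - x)) := by
  obtain ⟨s, hs⟩ : ∃ s, s = x - 3 / 4 := ⟨_, rfl⟩
  obtain ⟨t, ht⟩ : ∃ t, t = 7 / 8 - x := ⟨_, rfl⟩
  have hs0 : 0 ≤ s := by linarith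
  have ht0 : 0 ≤ t := by linarith
  have h : 0 ≤
      306233049088 / 48828125 * t ^ 7 + 8007893927936 / 244140625 * s * t ^ 6 +
      22573388540416 / 244140625 * s ^ 2 * t ^ 5 +
      41933687635072 / 244140625 * s ^ 3 * t ^ 4 + 388411569528 / 1953125 * s ^ 4 * t ^ 3 +
      31839692857564 / 244140625 * s ^ 5 * t ^ 2 + 10220662325504 / 244140625 * s ^ 6 * t +
      1095465075584 / 244140625 * s ^ 7 := by
    positivity
  have e :
      306233049088 / 48828125 * t ^ 7 + 8007893927936 / 244140625 * s * t ^ 6 +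
      22573388540416 / 244140625 * s ^ 2 * t ^ 5 +
      41933687635072 / 244140625 * s ^ 3 * t ^ 4 + 388411569528 / 1953125 * s ^ 4 * t ^ 3 +
      31839692857564 / 244140625 * s ^ 5 * t ^ 2 + 10220662325504 / 244140625 * s ^ 6 * t +
      1095465075584 / 244140625 * s ^ 7 =
      (6 / 5 - x ^ 2) *
      (x - ((231043 / 1000000) + (-(14774 / 15625)) * x +
      (96931 / 62500) * x ^ 2 + (-(8786 / 15625)) * x ^ 3) -
      ((-(14774 / 15625)) + 2 * (96931 / 62500) * x +
      3 * (-(8786 / 15625)) * x ^ 2) * (2 - x)) -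
      ((231043 / 1000000) + (-(14774 / 15625)) * x +
      (96931 / 62500) * x ^ 2 + (-(8786 / 15625)) * x ^ 3) ^ 2 * (2 - x) := by
    rw [hs, ht]
    ring
  rw [e] at h
  linarith

theorem cre_e_2_q_0 (x : ℝ) (h1 : 3 / 4 ≤ x) (h2 : x ≤ 7 / 8) :
    0 ≤
      (x - ((231043 / 1000000) + (-(14774 / 15625)) * x +
      (96931 / 62500) * x ^ 2 + (-(8786 / 15625)) * x ^ 3) -
      ((-(14774 / 15625)) + 2 * (96931 / 62500) * x +
      3 * (-(8786 / 15625)) * x ^ 2) * (2 - x)) := by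
  obtain ⟨s, hs⟩ : ∃ s, s = x - 3 / 4 := ⟨_, rfl⟩
  obtain ⟨t, ht⟩ : ∃ t, t = 7 / 8 - x := ⟨_, rfl⟩
  have hs0 : 0 ≤ s := by linarith
  have ht0 : 0 ≤ t := by linarith
  have h : 0 ≤
      424416 / 15625 * t ^ 3 + 1558968 / 15625 * s * t ^ 2 + 2143982 / 15625 * s ^ 2 * t +
      991858 / 15625 * s ^ 3 := by
    positivity
  have e :
      424416 / 15625 * t ^ 3 + 1558968 / 15625 * s * t ^ 2 + 2143982 / 15625 * s ^ 2 * t +
      991858 / 15625 * s ^ 3 =
      (x - ((231043 / 1000000) + (-(14774 / 15625)) * x +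
      (96931 / 62500) * x ^ 2 + (-(8786 / 15625)) * x ^ 3) -
      ((-(14774 / 15625)) + 2 * (96931 / 62500) * x +
      3 * (-(8786 / 15625)) * x ^ 2) * (2 - x)) -
      0 := by
    rw [hs, ht]
    ring
  rw [e] at h
  linarith

theorem cre_e_3_p_0 (x : ℝ) (h1 : 7 / 8 ≤ x) (h2 : x ≤ 15 / 16) :
    ((4703003 / 4000000) + (-(83773 / 20000)) * x +
      (82219 / 15625) * x ^ 2 + (-(30904 / 15625)) * x ^ 3) ^ 2 * (2 - x) ≤
      (6 / 5 - x ^ 2) *
      (x - ((4703003 / 4000000) + (-(83773 / 20000)) * x +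
      (82219 / 15625) * x ^ 2 + (-(30904 / 15625)) * x ^ 3) -
      ((-(83773 / 20000)) + 2 * (82219 / 15625) * x +
      3 * (-(30904 / 15625)) * x ^ 2) * (2 - x)) := by
  obtain ⟨s, hs⟩ : ∃ s, s = x - 7 / 8 := ⟨_, rfl⟩
  obtain ⟨t, ht⟩ : ∃ t, t = 15 / 16 - x := ⟨_, rfl⟩
  have hs0 : 0 ≤ s := by linarith
  have ht0 : 0 ≤ t := by linarith
  have h : 0 ≤
      140219529674752 / 244140625 * t ^ 7 + 167402745110528 / 48828125 * s * t ^ 6 +
      2396700643179392 / 244140625 * s ^ 2 * t ^ 5 +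
      4124325678164416 / 244140625 * s ^ 3 * t ^ 4 +
      4364400291044608 / 244140625 * s ^ 4 * t ^ 3 +
      540761319542528 / 48828125 * s ^ 5 * t ^ 2 + 173747837949952 / 48828125 * s ^ 6 * t +
      104914607276032 / 244140625 * s ^ 7 := by
    positivity
  have e :
      140219529674752 / 244140625 * t ^ 7 + 167402745110528 / 48828125 * s * t ^ 6 +
      2396700643179392 / 244140625 * s ^ 2 * t ^ 5 +
      4124325678164416 / 244140625 * s ^ 3 * t ^ 4 +
      4364400291044608 / 244140625 * s ^ 4 * t ^ 3 +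
      540761319542528 / 48828125 * s ^ 5 * t ^ 2 + 173747837949952 / 48828125 * s ^ 6 * t +
      104914607276032 / 244140625 * s ^ 7 =
      (6 / 5 - x ^ 2) *
      (x - ((4703003 / 4000000) + (-(83773 / 20000)) * x +
      (82219 / 15625) * x ^ 2 + (-(30904 / 15625)) * x ^ 3) -
      ((-(83773 / 20000)) + 2 * (82219 / 15625) * x +
      3 * (-(30904 / 15625)) * x ^ 2) * (2 - x)) -
      ((4703003 / 4000000) + (-(83773 / 20000)) * x +
      (82219 / 15625) * x ^ 2 + (-(30904 / 15625)) * x ^ 3) ^ 2 * (2 - x) := by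
    rw [hs, ht]
    ring
  rw [e] at h
  linarith

theorem cre_e_3_q_0 (x : ℝ) (h1 : 7 / 8 ≤ x) (h2 : x ≤ 15 / 16) :
    0 ≤
      (x - ((4703003 / 4000000) + (-(83773 / 20000)) * x +
      (82219 / 15625) * x ^ 2 + (-(30904 / 15625)) * x ^ 3) -
      ((-(83773 / 20000)) + 2 * (82219 / 15625) * x +
      3 * (-(30904 / 15625)) * x ^ 2) * (2 - x)) := by
  obtain ⟨s, hs⟩ : ∃ s, s = x - 7 / 8 := ⟨_, rfl⟩
  obtain ⟨t, ht⟩ : ∃ t, t = 15 / 16 - x := ⟨_, rfl⟩
  have hs0 : 0 ≤ s := by linarith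
  have ht0 : 0 ≤ t := by linarith
  have h : 0 ≤
      7934864 / 15625 * t ^ 3 + 27173296 / 15625 * s * t ^ 2 + 32228352 / 15625 * s ^ 2 * t +
      12928112 / 15625 * s ^ 3 := by
    positivity
  have e :
      7934864 / 15625 * t ^ 3 + 27173296 / 15625 * s * t ^ 2 + 32228352 / 15625 * s ^ 2 * t +
      12928112 / 15625 * s ^ 3 =
      (x - ((4703003 / 4000000) + (-(83773 / 20000)) * x +
      (82219 / 15625) * x ^ 2 + (-(30904 / 15625)) * x ^ 3) -
      ((-(83773 / 20000)) + 2 * (82219 / 15625) * x +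
      3 * (-(30904 / 15625)) * x ^ 2) * (2 - x)) -
      0 := by
    rw [hs, ht]
    ring
  rw [e] at h
  linarith

theorem cre_e_4_p_0 (x : ℝ) (h1 : 15 / 16 ≤ x) (h2 : x ≤ 1) :
    ((5065157 / 1000000) + (-(331027 / 20000)) * x +
      (286874 / 15625) * x ^ 2 + (-(103176 / 15625)) * x ^ 3) ^ 2 * (2 - x) ≤
      (6 / 5 - x ^ 2) *
      (x - ((5065157 / 1000000) + (-(331027 / 20000)) * x +
      (286874 / 15625) * x ^ 2 + (-(103176 / 15625)) * x ^ 3) -
      ((-(331027 / 20000)) + 2 * (286874 / 15625) * x +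
      3 * (-(103176 / 15625)) * x ^ 2) * (2 - x)) := by
  obtain ⟨s, hs⟩ : ∃ s, s = x - 15 / 16 := ⟨_, rfl⟩
  obtain ⟨t, ht⟩ : ∃ t, t = 1 - x := ⟨_, rfl⟩
  have hs0 : 0 ≤ s := by linarith
  have ht0 : 0 ≤ t := by linarith
  have h : 0 ≤
      104914607276032 / 244140625 * t ^ 7 + 351439904114688 / 244140625 * s * t ^ 6 +
      898168776182528 / 244140625 * s ^ 2 * t ^ 5 +
      2235006779837696 / 244140625 * s ^ 3 * t ^ 4 +
      3322077138014656 / 244140625 * s ^ 4 * t ^ 3 +
      2469747382265856 / 244140625 * s ^ 5 * t ^ 2 +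
      796513716252672 / 244140625 * s ^ 6 * t + 65490816794624 / 244140625 * s ^ 7 := by
    positivity
  have e :
      104914607276032 / 244140625 * t ^ 7 + 351439904114688 / 244140625 * s * t ^ 6 +
      898168776182528 / 244140625 * s ^ 2 * t ^ 5 +
      2235006779837696 / 244140625 * s ^ 3 * t ^ 4 +
      3322077138014656 / 244140625 * s ^ 4 * t ^ 3 +
      2469747382265856 / 244140625 * s ^ 5 * t ^ 2 +
      796513716252672 / 244140625 * s ^ 6 * t + 65490816794624 / 244140625 * s ^ 7 =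
      (6 / 5 - x ^ 2) *
      (x - ((5065157 / 1000000) + (-(331027 / 20000)) * x +
      (286874 / 15625) * x ^ 2 + (-(103176 / 15625)) * x ^ 3) -
      ((-(331027 / 20000)) + 2 * (286874 / 15625) * x +
      3 * (-(103176 / 15625)) * x ^ 2) * (2 - x)) -
      ((5065157 / 1000000) + (-(331027 / 20000)) * x +
      (286874 / 15625) * x ^ 2 + (-(103176 / 15625)) * x ^ 3) ^ 2 * (2 - x) := by
    rw [hs, ht]
    ring
  rw [e] at h
  linarith

theorem cre_e_4_q_0 (x : ℝ) (h1 : 15 / 16 ≤ x) (h2 : x ≤ 1) :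
    0 ≤
      (x - ((5065157 / 1000000) + (-(331027 / 20000)) * x +
      (286874 / 15625) * x ^ 2 + (-(103176 / 15625)) * x ^ 3) -
      ((-(331027 / 20000)) + 2 * (286874 / 15625) * x +
      3 * (-(103176 / 15625)) * x ^ 2) * (2 - x)) := by
  obtain ⟨s, hs⟩ : ∃ s, s = x - 15 / 16 := ⟨_, rfl⟩
  obtain ⟨t, ht⟩ : ∃ t, t = 1 - x := ⟨_, rfl⟩
  have hs0 : 0 ≤ s := by linarith
  have ht0 : 0 ≤ t := by linarith
  have h : 0 ≤
      12928112 / 15625 * t ^ 3 + 8916832 / 3125 * s * t ^ 2 + 55593024 / 15625 * s ^ 2 * t +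
      23730624 / 15625 * s ^ 3 := by
    positivity
  have e :
      12928112 / 15625 * t ^ 3 + 8916832 / 3125 * s * t ^ 2 + 55593024 / 15625 * s ^ 2 * t +
      23730624 / 15625 * s ^ 3 =
      (x - ((5065157 / 1000000) + (-(331027 / 20000)) * x +
      (286874 / 15625) * x ^ 2 + (-(103176 / 15625)) * x ^ 3) -
      ((-(331027 / 20000)) + 2 * (286874 / 15625) * x +
      3 * (-(103176 / 15625)) * x ^ 2) * (2 - x)) -
      0 := by
    rw [hs, ht]
    ring
  rw [e] at h
  linarith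

/-- the pair `(6 / 5, 219 / 200)` -/
theorem cre_e : Cre (6 / 5) (219 / 200) := by
  have h0 := Up.zero (6 / 5)
  have h1 : Up (6 / 5) (1 / 2) (67497 / 1000000) := by
    have h := h0.step (β := 1 / 2) (a := (0))
      (b := (0)) (c := (61971 / 250000))
      (d := (2763 / 62500)) (by norm_num) (by norm_num) (by norm_num) (by norm_num)
      (fun x i0 i1 => by
      exact cre_e_0_p_0 x (by linarith) (by linarith))
      (fun x i0 i1 => by
      exact cre_e_0_q_0 x (by linarith) (by linarith))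
    norm_num at h ⊢
    exact h
  have h2 : Up (6 / 5) (3 / 4) (19631 / 125000) := by
    have h := h1.step (β := 3 / 4) (a := (2897 / 200000))
      (b := (-(2587 / 31250))) (c := (1013 / 2500))
      (d := (-(862 / 15625))) (by norm_num) (by norm_num) (by norm_num) (by norm_num)
      (fun x i0 i1 => by
      exact cre_e_1_p_0 x (by linarith) (by linarith))
      (fun x i0 i1 => by
      exact cre_e_1_q_0 x (by linarith) (by linarith))
    norm_num at h ⊢
    exact h
  have h3 : Up (6 / 5) (7 / 8) (53601 / 250000) := by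
    have h := h2.step (β := 7 / 8) (a := (231043 / 1000000))
      (b := (-(14774 / 15625))) (c := (96931 / 62500))
      (d := (-(8786 / 15625))) (by norm_num) (by norm_num) (by norm_num) (by norm_num)
      (fun x i0 i1 => by
      exact cre_e_2_p_0 x (by linarith) (by linarith))
      (fun x i0 i1 => by
      exact cre_e_2_q_0 x (by linarith) (by linarith))
    norm_num at h ⊢
    exact h
  have h4 : Up (6 / 5) (15 / 16) (244007 / 1000000) := by
    have h := h3.step (β := 15 / 16) (a := (4703003 / 4000000))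
      (b := (-(83773 / 20000))) (c := (82219 / 15625))
      (d := (-(30904 / 15625))) (by norm_num) (by norm_num) (by norm_num) (by norm_num)
      (fun x i0 i1 => by
      exact cre_e_3_p_0 x (by linarith) (by linarith))
      (fun x i0 i1 => by
      exact cre_e_3_q_0 x (by linarith) (by linarith))
    norm_num at h ⊢
    exact h
  have h5 : Up (6 / 5) (1) (270479 / 1000000) := by
    have h := h4.step (β := 1) (a := (5065157 / 1000000))
      (b := (-(331027 / 20000))) (c := (286874 / 15625))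
      (d := (-(103176 / 15625))) (by norm_num) (by norm_num) (by norm_num) (by norm_num)
      (fun x i0 i1 => by
      exact cre_e_4_p_0 x (by linarith) (by linarith))
      (fun x i0 i1 => by
      exact cre_e_4_q_0 x (by linarith) (by linarith))
    norm_num at h ⊢
    exact h
  exact Up.cre (by simpa using h5) (by norm_num)

theorem cre_f_0_p_0 (x : ℝ) (h1 : 0 ≤ x) (h2 : x ≤ 1 / 2) :
    ((0) + (0) * x +
      (12357 / 50000) * x ^ 2 + (289 / 6250) * x ^ 3) ^ 2 * (2 - x) ≤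
      (7 / 5 - x ^ 2) *
      (x - ((0) + (0) * x +
      (12357 / 50000) * x ^ 2 + (289 / 6250) * x ^ 3) -
      ((0) + 2 * (12357 / 50000) * x +
      3 * (289 / 6250) * x ^ 2) * (2 - x)) := by
  obtain ⟨s, hs⟩ : ∃ s, s = x - 0 := ⟨_, rfl⟩
  obtain ⟨t, ht⟩ : ∃ t, t = 1 / 2 - x := ⟨_, rfl⟩
  have hs0 : 0 ≤ s := by linarith
  have ht0 : 0 ≤ t := by linarith
  have h : 0 ≤
      16016 / 15625 * s * t ^ 6 + 74886 / 15625 * s ^ 2 * t ^ 5 +
      163698 / 15625 * s ^ 3 * t ^ 4 + 2147699551 / 156250000 * s ^ 4 * t ^ 3 +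
      265475701 / 25000000 * s ^ 5 * t ^ 2 + 1291467239 / 312500000 * s ^ 6 * t +
      345056493 / 625000000 * s ^ 7 := by
    positivity
  have e :
      16016 / 15625 * s * t ^ 6 + 74886 / 15625 * s ^ 2 * t ^ 5 +
      163698 / 15625 * s ^ 3 * t ^ 4 + 2147699551 / 156250000 * s ^ 4 * t ^ 3 +
      265475701 / 25000000 * s ^ 5 * t ^ 2 + 1291467239 / 312500000 * s ^ 6 * t +
      345056493 / 625000000 * s ^ 7 =
      (7 / 5 - x ^ 2) *
      (x - ((0) + (0) * x +
      (12357 / 50000) * x ^ 2 + (289 / 6250) * x ^ 3) -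
      ((0) + 2 * (12357 / 50000) * x +
      3 * (289 / 6250) * x ^ 2) * (2 - x)) -
      ((0) + (0) * x +
      (12357 / 50000) * x ^ 2 + (289 / 6250) * x ^ 3) ^ 2 * (2 - x) := by
    rw [hs, ht]
    ring
  rw [e] at h
  linarith

theorem cre_f_0_q_0 (x : ℝ) (h1 : 0 ≤ x) (h2 : x ≤ 1 / 2) :
    0 ≤
      (x - ((0) + (0) * x +
      (12357 / 50000) * x ^ 2 + (289 / 6250) * x ^ 3) -
      ((0) + 2 * (12357 / 50000) * x +
      3 * (289 / 6250) * x ^ 2) * (2 - x)) := by
  obtain ⟨s, hs⟩ : ∃ s, s = x - 0 := ⟨_, rfl⟩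
  obtain ⟨t, ht⟩ : ∃ t, t = 1 / 2 - x := ⟨_, rfl⟩
  have hs0 : 0 ≤ s := by linarith
  have ht0 : 0 ≤ t := by linarith
  have h : 0 ≤
      143 / 3125 * s * t ^ 2 + 773 / 25000 * s ^ 2 * t + 1941 / 25000 * s ^ 3 := by
    positivity
  have e :
      143 / 3125 * s * t ^ 2 + 773 / 25000 * s ^ 2 * t + 1941 / 25000 * s ^ 3 =
      (x - ((0) + (0) * x +
      (12357 / 50000) * x ^ 2 + (289 / 6250) * x ^ 3) -
      ((0) + 2 * (12357 / 50000) * x +
      3 * (289 / 6250) * x ^ 2) * (2 - x)) -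
      0 := by
    rw [hs, ht]
    ring
  rw [e] at h
  linarith

theorem cre_f_1_p_0 (x : ℝ) (h1 : 1 / 2 ≤ x) (h2 : x ≤ 3 / 4) :
    ((8699 / 1000000) + (-(12413 / 250000)) * x +
      (4267 / 12500) * x ^ 2 + (-(206 / 15625)) * x ^ 3) ^ 2 * (2 - x) ≤
      (7 / 5 - x ^ 2) *
      (x - ((8699 / 1000000) + (-(12413 / 250000)) * x +
      (4267 / 12500) * x ^ 2 + (-(206 / 15625)) * x ^ 3) -
      ((-(12413 / 250000)) + 2 * (4267 / 12500) * x +
      3 * (-(206 / 15625)) * x ^ 2) * (2 - x)) := by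
  obtain ⟨s, hs⟩ : ∃ s, s = x - 1 / 2 := ⟨_, rfl⟩
  obtain ⟨t, ht⟩ : ∃ t, t = 3 / 4 - x := ⟨_, rfl⟩
  have hs0 : 0 ≤ s := by linarith
  have ht0 : 0 ≤ t := by linarith
  have h : 0 ≤
      690112986 / 9765625 * t ^ 7 + 31693279 / 78125 * s * t ^ 6 +
      58730977676 / 48828125 * s ^ 2 * t ^ 5 + 109889931312 / 48828125 * s ^ 3 * t ^ 4 +
      633245726454 / 244140625 * s ^ 4 * t ^ 3 + 416802615396 / 244140625 * s ^ 5 * t ^ 2 +
      136862909066 / 244140625 * s ^ 6 * t + 3144524431 / 48828125 * s ^ 7 := by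
    positivity
  have e :
      690112986 / 9765625 * t ^ 7 + 31693279 / 78125 * s * t ^ 6 +
      58730977676 / 48828125 * s ^ 2 * t ^ 5 + 109889931312 / 48828125 * s ^ 3 * t ^ 4 +
      633245726454 / 244140625 * s ^ 4 * t ^ 3 + 416802615396 / 244140625 * s ^ 5 * t ^ 2 +
      136862909066 / 244140625 * s ^ 6 * t + 3144524431 / 48828125 * s ^ 7 =
      (7 / 5 - x ^ 2) *
      (x - ((8699 / 1000000) + (-(12413 / 250000)) * x +
      (4267 / 12500) * x ^ 2 + (-(206 / 15625)) * x ^ 3) -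
      ((-(12413 / 250000)) + 2 * (4267 / 12500) * x +
      3 * (-(206 / 15625)) * x ^ 2) * (2 - x)) -
      ((8699 / 1000000) + (-(12413 / 250000)) * x +
      (4267 / 12500) * x ^ 2 + (-(206 / 15625)) * x ^ 3) ^ 2 * (2 - x) := by
    rw [hs, ht]
    ring
  rw [e] at h
  linarith

theorem cre_f_1_q_0 (x : ℝ) (h1 : 1 / 2 ≤ x) (h2 : x ≤ 3 / 4) :
    0 ≤
      (x - ((8699 / 1000000) + (-(12413 / 250000)) * x +
      (4267 / 12500) * x ^ 2 + (-(206 / 15625)) * x ^ 3) -
      ((-(12413 / 250000)) + 2 * (4267 / 12500) * x +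
      3 * (-(206 / 15625)) * x ^ 2) * (2 - x)) := by
  obtain ⟨s, hs⟩ : ∃ s, s = x - 1 / 2 := ⟨_, rfl⟩
  obtain ⟨t, ht⟩ : ∃ t, t = 3 / 4 - x := ⟨_, rfl⟩
  have hs0 : 0 ≤ s := by linarith
  have ht0 : 0 ≤ t := by linarith
  have h : 0 ≤
      1941 / 3125 * t ^ 3 + 37927 / 15625 * s * t ^ 2 + 70546 / 15625 * s ^ 2 * t +
      41912 / 15625 * s ^ 3 := by
    positivity
  have e :
      1941 / 3125 * t ^ 3 + 37927 / 15625 * s * t ^ 2 + 70546 / 15625 * s ^ 2 * t +
      41912 / 15625 * s ^ 3 =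
      (x - ((8699 / 1000000) + (-(12413 / 250000)) * x +
      (4267 / 12500) * x ^ 2 + (-(206 / 15625)) * x ^ 3) -
      ((-(12413 / 250000)) + 2 * (4267 / 12500) * x +
      3 * (-(206 / 15625)) * x ^ 2) * (2 - x)) -
      0 := by
    rw [hs, ht]
    ring
  rw [e] at h
  linarith

theorem cre_f_2_p_0 (x : ℝ) (h1 : 3 / 4 ≤ x) (h2 : x ≤ 7 / 8) :
    ((112163 / 1000000) + (-(115949 / 250000)) * x +
      (55871 / 62500) * x ^ 2 + (-(4046 / 15625)) * x ^ 3) ^ 2 * (2 - x) ≤
      (7 / 5 - x ^ 2) *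
      (x - ((112163 / 1000000) + (-(115949 / 250000)) * x +
      (55871 / 62500) * x ^ 2 + (-(4046 / 15625)) * x ^ 3) -
      ((-(115949 / 250000)) + 2 * (55871 / 62500) * x +
      3 * (-(4046 / 15625)) * x ^ 2) * (2 - x)) := by
  obtain ⟨s, hs⟩ : ∃ s, s = x - 3 / 4 := ⟨_, rfl⟩
  obtain ⟨t, ht⟩ : ∃ t, t = 7 / 8 - x := ⟨_, rfl⟩
  have hs0 : 0 ≤ s := by linarith
  have ht0 : 0 ≤ t := by linarith
  have h : 0 ≤
      402499127168 / 48828125 * t ^ 7 + 12423433996096 / 244140625 * s * t ^ 6 +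
      36065642835936 / 244140625 * s ^ 2 * t ^ 5 +
      61886790336432 / 244140625 * s ^ 3 * t ^ 4 +
      12980676269736 / 48828125 * s ^ 4 * t ^ 3 +
      39965922405404 / 244140625 * s ^ 5 * t ^ 2 + 12893303863264 / 244140625 * s ^ 6 * t +
      1598693315904 / 244140625 * s ^ 7 := by
    positivity
  have e :
      402499127168 / 48828125 * t ^ 7 + 12423433996096 / 244140625 * s * t ^ 6 +
      36065642835936 / 244140625 * s ^ 2 * t ^ 5 +
      61886790336432 / 244140625 * s ^ 3 * t ^ 4 +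
      12980676269736 / 48828125 * s ^ 4 * t ^ 3 +
      39965922405404 / 244140625 * s ^ 5 * t ^ 2 + 12893303863264 / 244140625 * s ^ 6 * t +
      1598693315904 / 244140625 * s ^ 7 =
      (7 / 5 - x ^ 2) *
      (x - ((112163 / 1000000) + (-(115949 / 250000)) * x +
      (55871 / 62500) * x ^ 2 + (-(4046 / 15625)) * x ^ 3) -
      ((-(115949 / 250000)) + 2 * (55871 / 62500) * x +
      3 * (-(4046 / 15625)) * x ^ 2) * (2 - x)) -
      ((112163 / 1000000) + (-(115949 / 250000)) * x +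
      (55871 / 62500) * x ^ 2 + (-(4046 / 15625)) * x ^ 3) ^ 2 * (2 - x) := by
    rw [hs, ht]
    ring
  rw [e] at h
  linarith

theorem cre_f_2_q_0 (x : ℝ) (h1 : 3 / 4 ≤ x) (h2 : x ≤ 7 / 8) :
    0 ≤
      (x - ((112163 / 1000000) + (-(115949 / 250000)) * x +
      (55871 / 62500) * x ^ 2 + (-(4046 / 15625)) * x ^ 3) -
      ((-(115949 / 250000)) + 2 * (55871 / 62500) * x +
      3 * (-(4046 / 15625)) * x ^ 2) * (2 - x)) := by
  obtain ⟨s, hs⟩ : ∃ s, s = x - 3 / 4 := ⟨_, rfl⟩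
  obtain ⟨t, ht⟩ : ∃ t, t = 7 / 8 - x := ⟨_, rfl⟩
  have hs0 : 0 ≤ s := by linarith
  have ht0 : 0 ≤ t := by linarith
  have h : 0 ≤
      335296 / 15625 * t ^ 3 + 1227608 / 15625 * s * t ^ 2 + 1609622 / 15625 * s ^ 2 * t +
      709218 / 15625 * s ^ 3 := by
    positivity
  have e :
      335296 / 15625 * t ^ 3 + 1227608 / 15625 * s * t ^ 2 + 1609622 / 15625 * s ^ 2 * t +
      709218 / 15625 * s ^ 3 =
      (x - ((112163 / 1000000) + (-(115949 / 250000)) * x +
      (55871 / 62500) * x ^ 2 + (-(4046 / 15625)) * x ^ 3) -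
      ((-(115949 / 250000)) + 2 * (55871 / 62500) * x +
      3 * (-(4046 / 15625)) * x ^ 2) * (2 - x)) -
      0 := by
    rw [hs, ht]
    ring
  rw [e] at h
  linarith

theorem cre_f_3_p_0 (x : ℝ) (h1 : 7 / 8 ≤ x) (h2 : x ≤ 1) :
    ((74833 / 100000) + (-(1306503 / 500000)) * x +
      (41421 / 12500) * x ^ 2 + (-(18232 / 15625)) * x ^ 3) ^ 2 * (2 - x) ≤
      (7 / 5 - x ^ 2) *
      (x - ((74833 / 100000) + (-(1306503 / 500000)) * x +
      (41421 / 12500) * x ^ 2 + (-(18232 / 15625)) * x ^ 3) -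
      ((-(1306503 / 500000)) + 2 * (41421 / 12500) * x +
      3 * (-(18232 / 15625)) * x ^ 2) * (2 - x)) := by
  obtain ⟨s, hs⟩ : ∃ s, s = x - 7 / 8 := ⟨_, rfl⟩
  obtain ⟨t, ht⟩ : ∃ t, t = 1 - x := ⟨_, rfl⟩
  have hs0 : 0 ≤ s := by linarith
  have ht0 : 0 ≤ t := by linarith
  have h : 0 ≤
      1598693315904 / 244140625 * t ^ 7 + 6154492959392 / 244140625 * s * t ^ 6 +
      3255169630796 / 48828125 * s ^ 2 * t ^ 5 + 36419286136664 / 244140625 * s ^ 3 * t ^ 4 +
      50166630364252 / 244140625 * s ^ 4 * t ^ 3 +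
      36027106920288 / 244140625 * s ^ 5 * t ^ 2 + 11584196708352 / 244140625 * s ^ 6 * t +
      1024814931968 / 244140625 * s ^ 7 := by
    positivity
  have e :
      1598693315904 / 244140625 * t ^ 7 + 6154492959392 / 244140625 * s * t ^ 6 +
      3255169630796 / 48828125 * s ^ 2 * t ^ 5 + 36419286136664 / 244140625 * s ^ 3 * t ^ 4 +
      50166630364252 / 244140625 * s ^ 4 * t ^ 3 +
      36027106920288 / 244140625 * s ^ 5 * t ^ 2 + 11584196708352 / 244140625 * s ^ 6 * t +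
      1024814931968 / 244140625 * s ^ 7 =
      (7 / 5 - x ^ 2) *
      (x - ((74833 / 100000) + (-(1306503 / 500000)) * x +
      (41421 / 12500) * x ^ 2 + (-(18232 / 15625)) * x ^ 3) -
      ((-(1306503 / 500000)) + 2 * (41421 / 12500) * x +
      3 * (-(18232 / 15625)) * x ^ 2) * (2 - x)) -
      ((74833 / 100000) + (-(1306503 / 500000)) * x +
      (41421 / 12500) * x ^ 2 + (-(18232 / 15625)) * x ^ 3) ^ 2 * (2 - x) := by
    rw [hs, ht]
    ring
  rw [e] at h
  linarith

theorem cre_f_3_q_0 (x : ℝ) (h1 : 7 / 8 ≤ x) (h2 : x ≤ 1) :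
    0 ≤
      (x - ((74833 / 100000) + (-(1306503 / 500000)) * x +
      (41421 / 12500) * x ^ 2 + (-(18232 / 15625)) * x ^ 3) -
      ((-(1306503 / 500000)) + 2 * (41421 / 12500) * x +
      3 * (-(18232 / 15625)) * x ^ 2) * (2 - x)) := by
  obtain ⟨s, hs⟩ : ∃ s, s = x - 7 / 8 := ⟨_, rfl⟩
  obtain ⟨t, ht⟩ : ∃ t, t = 1 - x := ⟨_, rfl⟩
  have hs0 : 0 ≤ s := by linarith
  have ht0 : 0 ≤ t := by linarith
  have h : 0 ≤
      709218 / 15625 * t ^ 3 + 512714 / 3125 * s * t ^ 2 + 3523088 / 15625 * s ^ 2 * t +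
      1632272 / 15625 * s ^ 3 := by
    positivity
  have e :
      709218 / 15625 * t ^ 3 + 512714 / 3125 * s * t ^ 2 + 3523088 / 15625 * s ^ 2 * t +
      1632272 / 15625 * s ^ 3 =
      (x - ((74833 / 100000) + (-(1306503 / 500000)) * x +
      (41421 / 12500) * x ^ 2 + (-(18232 / 15625)) * x ^ 3) -
      ((-(1306503 / 500000)) + 2 * (41421 / 12500) * x +
      3 * (-(18232 / 15625)) * x ^ 2) * (2 - x)) -
      0 := by
    rw [hs, ht]
    ring
  rw [e] at h
  linarith

/-- the pair `(7 / 5, 1077 / 1000)` -/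
theorem cre_f : Cre (7 / 5) (1077 / 1000) := by
  have h0 := Up.zero (7 / 5)
  have h1 : Up (7 / 5) (1 / 2) (13513 / 200000) := by
    have h := h0.step (β := 1 / 2) (a := (0))
      (b := (0)) (c := (12357 / 50000))
      (d := (289 / 6250)) (by norm_num) (by norm_num) (by norm_num) (by norm_num)
      (fun x i0 i1 => by
      exact cre_f_0_p_0 x (by linarith) (by linarith))
      (fun x i0 i1 => by
      exact cre_f_0_q_0 x (by linarith) (by linarith))
    norm_num at h ⊢
    exact h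
  have h2 : Up (7 / 5) (3 / 4) (157913 / 1000000) := by
    have h := h1.step (β := 3 / 4) (a := (8699 / 1000000))
      (b := (-(12413 / 250000))) (c := (4267 / 12500))
      (d := (-(206 / 15625))) (by norm_num) (by norm_num) (by norm_num) (by norm_num)
      (fun x i0 i1 => by
      exact cre_f_1_p_0 x (by linarith) (by linarith))
      (fun x i0 i1 => by
      exact cre_f_1_q_0 x (by linarith) (by linarith))
    norm_num at h ⊢
    exact h
  have h3 : Up (7 / 5) (7 / 8) (217289 / 1000000) := by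
    have h := h2.step (β := 7 / 8) (a := (112163 / 1000000))
      (b := (-(115949 / 250000))) (c := (55871 / 62500))
      (d := (-(4046 / 15625))) (by norm_num) (by norm_num) (by norm_num) (by norm_num)
      (fun x i0 i1 => by
      exact cre_f_2_p_0 x (by linarith) (by linarith))
      (fun x i0 i1 => by
      exact cre_f_2_q_0 x (by linarith) (by linarith))
    norm_num at h ⊢
    exact h
  have h4 : Up (7 / 5) (1) (70539 / 250000) := by
    have h := h3.step (β := 1) (a := (74833 / 100000))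
      (b := (-(1306503 / 500000))) (c := (41421 / 12500))
      (d := (-(18232 / 15625))) (by norm_num) (by norm_num) (by norm_num) (by norm_num)
      (fun x i0 i1 => by
      exact cre_f_3_p_0 x (by linarith) (by linarith))
      (fun x i0 i1 => by
      exact cre_f_3_q_0 x (by linarith) (by linarith))
    norm_num at h ⊢
    exact h
  exact Up.cre (by simpa using h4) (by norm_num)

theorem cre_g_0_p_0 (x : ℝ) (h1 : 0 ≤ x) (h2 : x ≤ 1 / 2) :
    ((0) + (0) * x +
      (61487 / 250000) * x ^ 2 + (774 / 15625) * x ^ 3) ^ 2 * (2 - x) ≤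
      (2 - x ^ 2) *
      (x - ((0) + (0) * x +
      (61487 / 250000) * x ^ 2 + (774 / 15625) * x ^ 3) -
      ((0) + 2 * (61487 / 250000) * x +
      3 * (774 / 15625) * x ^ 2) * (2 - x)) := by
  obtain ⟨s, hs⟩ : ∃ s, s = x - 0 := ⟨_, rfl⟩
  obtain ⟨t, ht⟩ : ∃ t, t = 1 / 2 - x := ⟨_, rfl⟩
  have hs0 : 0 ≤ s := by linarith
  have ht0 : 0 ≤ t := by linarith
  have h : 0 ≤
      32416 / 15625 * s * t ^ 6 + 143228 / 15625 * s ^ 2 * t ^ 5 +
      275384 / 15625 * s ^ 3 * t ^ 4 + 77215473831 / 3906250000 * s ^ 4 * t ^ 3 +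
      214864517109 / 15625000000 * s ^ 5 * t ^ 2 + 41821719899 / 7812500000 * s ^ 6 * t +
      13107158877 / 15625000000 * s ^ 7 := by
    positivity
  have e :
      32416 / 15625 * s * t ^ 6 + 143228 / 15625 * s ^ 2 * t ^ 5 +
      275384 / 15625 * s ^ 3 * t ^ 4 + 77215473831 / 3906250000 * s ^ 4 * t ^ 3 +
      214864517109 / 15625000000 * s ^ 5 * t ^ 2 + 41821719899 / 7812500000 * s ^ 6 * t +
      13107158877 / 15625000000 * s ^ 7 =
      (2 - x ^ 2) *
      (x - ((0) + (0) * x +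
      (61487 / 250000) * x ^ 2 + (774 / 15625) * x ^ 3) -
      ((0) + 2 * (61487 / 250000) * x +
      3 * (774 / 15625) * x ^ 2) * (2 - x)) -
      ((0) + (0) * x +
      (61487 / 250000) * x ^ 2 + (774 / 15625) * x ^ 3) ^ 2 * (2 - x) := by
    rw [hs, ht]
    ring
  rw [e] at h
  linarith

theorem cre_g_0_q_0 (x : ℝ) (h1 : 0 ≤ x) (h2 : x ≤ 1 / 2) :
    0 ≤
      (x - ((0) + (0) * x +
      (61487 / 250000) * x ^ 2 + (774 / 15625) * x ^ 3) -
      ((0) + 2 * (61487 / 250000) * x +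
      3 * (774 / 15625) * x ^ 2) * (2 - x)) := by
  obtain ⟨s, hs⟩ : ∃ s, s = x - 0 := ⟨_, rfl⟩
  obtain ⟨t, ht⟩ : ∃ t, t = 1 / 2 - x := ⟨_, rfl⟩
  have hs0 : 0 ≤ s := by linarith
  have ht0 : 0 ≤ t := by linarith
  have h : 0 ≤
      1013 / 15625 * s * t ^ 2 + 3391 / 125000 * s ^ 2 * t + 7671 / 125000 * s ^ 3 := by
    positivity
  have e :
      1013 / 15625 * s * t ^ 2 + 3391 / 125000 * s ^ 2 * t + 7671 / 125000 * s ^ 3 =
      (x - ((0) + (0) * x +
      (61487 / 250000) * x ^ 2 + (774 / 15625) * x ^ 3) -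
      ((0) + 2 * (61487 / 250000) * x +
      3 * (774 / 15625) * x ^ 2) * (2 - x)) -
      0 := by
    rw [hs, ht]
    ring
  rw [e] at h
  linarith

theorem cre_g_1_p_0 (x : ℝ) (h1 : 1 / 2 ≤ x) (h2 : x ≤ 5 / 8) :
    ((13479 / 1000000) + (-(17411 / 250000)) * x +
      (45347 / 125000) * x ^ 2 + (-(209 / 15625)) * x ^ 3) ^ 2 * (2 - x) ≤
      (2 - x ^ 2) *
      (x - ((13479 / 1000000) + (-(17411 / 250000)) * x +
      (45347 / 125000) * x ^ 2 + (-(209 / 15625)) * x ^ 3) -
      ((-(17411 / 250000)) + 2 * (45347 / 125000) * x +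
      3 * (-(209 / 15625)) * x ^ 2) * (2 - x)) := by
  obtain ⟨s, hs⟩ : ∃ s, s = x - 1 / 2 := ⟨_, rfl⟩
  obtain ⟨t, ht⟩ : ∃ t, t = 5 / 8 - x := ⟨_, rfl⟩
  have hs0 : 0 ≤ s := by linarith
  have ht0 : 0 ≤ t := by linarith
  have h : 0 ≤
      3355432672512 / 244140625 * t ^ 7 + 16460295737408 / 244140625 * s * t ^ 6 +
      32890210049344 / 244140625 * s ^ 2 * t ^ 5 +
      34403358665728 / 244140625 * s ^ 3 * t ^ 4 +
      20433513373484 / 244140625 * s ^ 4 * t ^ 3 +
      7344488405701 / 244140625 * s ^ 5 * t ^ 2 + 1824548393132 / 244140625 * s ^ 6 * t +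
      295561723316 / 244140625 * s ^ 7 := by
    positivity
  have e :
      3355432672512 / 244140625 * t ^ 7 + 16460295737408 / 244140625 * s * t ^ 6 +
      32890210049344 / 244140625 * s ^ 2 * t ^ 5 +
      34403358665728 / 244140625 * s ^ 3 * t ^ 4 +
      20433513373484 / 244140625 * s ^ 4 * t ^ 3 +
      7344488405701 / 244140625 * s ^ 5 * t ^ 2 + 1824548393132 / 244140625 * s ^ 6 * t +
      295561723316 / 244140625 * s ^ 7 =
      (2 - x ^ 2) *
      (x - ((13479 / 1000000) + (-(17411 / 250000)) * x +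
      (45347 / 125000) * x ^ 2 + (-(209 / 15625)) * x ^ 3) -
      ((-(17411 / 250000)) + 2 * (45347 / 125000) * x +
      3 * (-(209 / 15625)) * x ^ 2) * (2 - x)) -
      ((13479 / 1000000) + (-(17411 / 250000)) * x +
      (45347 / 125000) * x ^ 2 + (-(209 / 15625)) * x ^ 3) ^ 2 * (2 - x) := by
    rw [hs, ht]
    ring
  rw [e] at h
  linarith

theorem cre_g_1_p_1 (x : ℝ) (h1 : 5 / 8 ≤ x) (h2 : x ≤ 3 / 4) :
    ((13479 / 1000000) + (-(17411 / 250000)) * x +
      (45347 / 125000) * x ^ 2 + (-(209 / 15625)) * x ^ 3) ^ 2 * (2 - x) ≤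
      (2 - x ^ 2) *
      (x - ((13479 / 1000000) + (-(17411 / 250000)) * x +
      (45347 / 125000) * x ^ 2 + (-(209 / 15625)) * x ^ 3) -
      ((-(17411 / 250000)) + 2 * (45347 / 125000) * x +
      3 * (-(209 / 15625)) * x ^ 2) * (2 - x)) := by
  obtain ⟨s, hs⟩ : ∃ s, s = x - 5 / 8 := ⟨_, rfl⟩
  obtain ⟨t, ht⟩ : ∃ t, t = 3 / 4 - x := ⟨_, rfl⟩
  have hs0 : 0 ≤ s := by linarith
  have ht0 : 0 ≤ t := by linarith
  have h : 0 ≤
      295561723316 / 244140625 * t ^ 7 + 2313315733292 / 244140625 * s * t ^ 6 +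
      10277092446661 / 244140625 * s ^ 2 * t ^ 5 +
      26295749624086 / 244140625 * s ^ 3 * t ^ 4 +
      38301610061736 / 244140625 * s ^ 4 * t ^ 3 + 6282111430832 / 48828125 * s ^ 5 * t ^ 2 +
      13524764597584 / 244140625 * s ^ 6 * t + 475881272288 / 48828125 * s ^ 7 := by
    positivity
  have e :
      295561723316 / 244140625 * t ^ 7 + 2313315733292 / 244140625 * s * t ^ 6 +
      10277092446661 / 244140625 * s ^ 2 * t ^ 5 +
      26295749624086 / 244140625 * s ^ 3 * t ^ 4 +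
      38301610061736 / 244140625 * s ^ 4 * t ^ 3 + 6282111430832 / 48828125 * s ^ 5 * t ^ 2 +
      13524764597584 / 244140625 * s ^ 6 * t + 475881272288 / 48828125 * s ^ 7 =
      (2 - x ^ 2) *
      (x - ((13479 / 1000000) + (-(17411 / 250000)) * x +
      (45347 / 125000) * x ^ 2 + (-(209 / 15625)) * x ^ 3) -
      ((-(17411 / 250000)) + 2 * (45347 / 125000) * x +
      3 * (-(209 / 15625)) * x ^ 2) * (2 - x)) -
      ((13479 / 1000000) + (-(17411 / 250000)) * x +
      (45347 / 125000) * x ^ 2 + (-(209 / 15625)) * x ^ 3) ^ 2 * (2 - x) := by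
    rw [hs, ht]
    ring
  rw [e] at h
  linarith

theorem cre_g_1_p_2 (x : ℝ) (h1 : 3 / 4 ≤ x) (h2 : x ≤ 1) :
    ((13479 / 1000000) + (-(17411 / 250000)) * x +
      (45347 / 125000) * x ^ 2 + (-(209 / 15625)) * x ^ 3) ^ 2 * (2 - x) ≤
      (2 - x ^ 2) *
      (x - ((13479 / 1000000) + (-(17411 / 250000)) * x +
      (45347 / 125000) * x ^ 2 + (-(209 / 15625)) * x ^ 3) -
      ((-(17411 / 250000)) + 2 * (45347 / 125000) * x +
      3 * (-(209 / 15625)) * x ^ 2) * (2 - x)) := by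
  obtain ⟨s, hs⟩ : ∃ s, s = x - 3 / 4 := ⟨_, rfl⟩
  obtain ⟨t, ht⟩ : ∃ t, t = 1 - x := ⟨_, rfl⟩
  have hs0 : 0 ≤ s := by linarith
  have ht0 : 0 ≤ t := by linarith
  have h : 0 ≤
      14871289759 / 195312500 * t ^ 7 + 358093818673 / 488281250 * s * t ^ 6 +
      2764328294243 / 976562500 * s ^ 2 * t ^ 5 + 1367758741944 / 244140625 * s ^ 3 * t ^ 4 +
      11903079553 / 1953125 * s ^ 4 * t ^ 3 + 174624777652 / 48828125 * s ^ 5 * t ^ 2 +
      9694652203 / 9765625 * s ^ 6 * t + 799717564 / 9765625 * s ^ 7 := by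
    positivity
  have e :
      14871289759 / 195312500 * t ^ 7 + 358093818673 / 488281250 * s * t ^ 6 +
      2764328294243 / 976562500 * s ^ 2 * t ^ 5 + 1367758741944 / 244140625 * s ^ 3 * t ^ 4 +
      11903079553 / 1953125 * s ^ 4 * t ^ 3 + 174624777652 / 48828125 * s ^ 5 * t ^ 2 +
      9694652203 / 9765625 * s ^ 6 * t + 799717564 / 9765625 * s ^ 7 =
      (2 - x ^ 2) *
      (x - ((13479 / 1000000) + (-(17411 / 250000)) * x +
      (45347 / 125000) * x ^ 2 + (-(209 / 15625)) * x ^ 3) -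
      ((-(17411 / 250000)) + 2 * (45347 / 125000) * x +
      3 * (-(209 / 15625)) * x ^ 2) * (2 - x)) -
      ((13479 / 1000000) + (-(17411 / 250000)) * x +
      (45347 / 125000) * x ^ 2 + (-(209 / 15625)) * x ^ 3) ^ 2 * (2 - x) := by
    rw [hs, ht]
    ring
  rw [e] at h
  linarith

theorem cre_g_1_q_0 (x : ℝ) (h1 : 1 / 2 ≤ x) (h2 : x ≤ 1) :
    0 ≤
      (x - ((13479 / 1000000) + (-(17411 / 250000)) * x +
      (45347 / 125000) * x ^ 2 + (-(209 / 15625)) * x ^ 3) -
      ((-(17411 / 250000)) + 2 * (45347 / 125000) * x +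
      3 * (-(209 / 15625)) * x ^ 2) * (2 - x)) := by
  obtain ⟨s, hs⟩ : ∃ s, s = x - 1 / 2 := ⟨_, rfl⟩
  obtain ⟨t, ht⟩ : ∃ t, t = 1 - x := ⟨_, rfl⟩
  have hs0 : 0 ≤ s := by linarith
  have ht0 : 0 ≤ t := by linarith
  have h : 0 ≤
      7671 / 125000 * t ^ 3 + 1789 / 25000 * s * t ^ 2 + 95603 / 125000 * s ^ 2 * t +
      18197 / 25000 * s ^ 3 := by
    positivity
  have e :
      7671 / 125000 * t ^ 3 + 1789 / 25000 * s * t ^ 2 + 95603 / 125000 * s ^ 2 * t +
      18197 / 25000 * s ^ 3 =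
      (x - ((13479 / 1000000) + (-(17411 / 250000)) * x +
      (45347 / 125000) * x ^ 2 + (-(209 / 15625)) * x ^ 3) -
      ((-(17411 / 250000)) + 2 * (45347 / 125000) * x +
      3 * (-(209 / 15625)) * x ^ 2) * (2 - x)) -
      0 := by
    rw [hs, ht]
    ring
  rw [e] at h
  linarith

/-- the pair `(2, 1061 / 1000)` -/
theorem cre_g : Cre (2) (1061 / 1000) := by
  have h0 := Up.zero (2)
  have h1 : Up (2) (1 / 2) (67679 / 1000000) := by
    have h := h0.step (β := 1 / 2) (a := (0))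
      (b := (0)) (c := (61487 / 250000))
      (d := (774 / 15625)) (by norm_num) (by norm_num) (by norm_num) (by norm_num)
      (fun x i0 i1 => by
      exact cre_g_0_p_0 x (by linarith) (by linarith))
      (fun x i0 i1 => by
      exact cre_g_0_q_0 x (by linarith) (by linarith))
    norm_num at h ⊢
    exact h
  have h2 : Up (2) (1) (58647 / 200000) := by
    have h := h1.step (β := 1) (a := (13479 / 1000000))
      (b := (-(17411 / 250000))) (c := (45347 / 125000))
      (d := (-(209 / 15625))) (by norm_num) (by norm_num) (by norm_num) (by norm_num)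
      (fun x i0 i1 => by
      rcases le_total x (5 / 8) with i2 | i2
      · exact cre_g_1_p_0 x (by linarith) i2
      rcases le_total x (3 / 4) with i2 | i2
      · exact cre_g_1_p_1 x (by linarith) i2
      exact cre_g_1_p_2 x (by linarith) (by linarith))
      (fun x i0 i1 => by
      exact cre_g_1_q_0 x (by linarith) (by linarith))
    norm_num at h ⊢
    exact h
  exact Up.cre (by simpa using h2) (by norm_num)

theorem cre_h_0_p_0 (x : ℝ) (h1 : 0 ≤ x) (h2 : x ≤ 1 / 2) :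
    ((0) + (0) * x +
      (30599 / 125000) * x ^ 2 + (6603 / 125000) * x ^ 3) ^ 2 * (2 - x) ≤
      (4 - x ^ 2) *
      (x - ((0) + (0) * x +
      (30599 / 125000) * x ^ 2 + (6603 / 125000) * x ^ 3) -
      ((0) + 2 * (30599 / 125000) * x +
      3 * (6603 / 125000) * x ^ 2) * (2 - x)) := by
  obtain ⟨s, hs⟩ : ∃ s, s = x - 0 := ⟨_, rfl⟩
  obtain ⟨t, ht⟩ : ∃ t, t = 1 / 2 - x := ⟨_, rfl⟩
  have hs0 : 0 ≤ s := by linarith
  have ht0 : 0 ≤ t := by linarith
  have h : 0 ≤
      83328 / 15625 * s * t ^ 6 + 355664 / 15625 * s ^ 2 * t ^ 5 +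
      125768 / 3125 * s ^ 3 * t ^ 4 + 38707388699 / 976562500 * s ^ 4 * t ^ 3 +
      96386032401 / 3906250000 * s ^ 5 * t ^ 2 + 18846923001 / 1953125000 * s ^ 6 * t +
      28089073197 / 15625000000 * s ^ 7 := by
    positivity
  have e :
      83328 / 15625 * s * t ^ 6 + 355664 / 15625 * s ^ 2 * t ^ 5 +
      125768 / 3125 * s ^ 3 * t ^ 4 + 38707388699 / 976562500 * s ^ 4 * t ^ 3 +
      96386032401 / 3906250000 * s ^ 5 * t ^ 2 + 18846923001 / 1953125000 * s ^ 6 * t +
      28089073197 / 15625000000 * s ^ 7 =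
      (4 - x ^ 2) *
      (x - ((0) + (0) * x +
      (30599 / 125000) * x ^ 2 + (6603 / 125000) * x ^ 3) -
      ((0) + 2 * (30599 / 125000) * x +
      3 * (6603 / 125000) * x ^ 2) * (2 - x)) -
      ((0) + (0) * x +
      (30599 / 125000) * x ^ 2 + (6603 / 125000) * x ^ 3) ^ 2 * (2 - x) := by
    rw [hs, ht]
    ring
  rw [e] at h
  linarith

theorem cre_h_0_q_0 (x : ℝ) (h1 : 0 ≤ x) (h2 : x ≤ 1 / 2) :
    0 ≤
      (x - ((0) + (0) * x +
      (30599 / 125000) * x ^ 2 + (6603 / 125000) * x ^ 3) -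
      ((0) + 2 * (30599 / 125000) * x +
      3 * (6603 / 125000) * x ^ 2) * (2 - x)) := by
  obtain ⟨s, hs⟩ : ∃ s, s = x - 0 := ⟨_, rfl⟩
  obtain ⟨t, ht⟩ : ∃ t, t = 1 / 2 - x := ⟨_, rfl⟩
  have hs0 : 0 ≤ s := by linarith
  have ht0 : 0 ≤ t := by linarith
  have h : 0 ≤
      1302 / 15625 * s * t ^ 2 + 1397 / 62500 * s ^ 2 * t + 698 / 15625 * s ^ 3 := by
    positivity
  have e :
      1302 / 15625 * s * t ^ 2 + 1397 / 62500 * s ^ 2 * t + 698 / 15625 * s ^ 3 =
      (x - ((0) + (0) * x +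
      (30599 / 125000) * x ^ 2 + (6603 / 125000) * x ^ 3) -
      ((0) + 2 * (30599 / 125000) * x +
      3 * (6603 / 125000) * x ^ 2) * (2 - x)) -
      0 := by
    rw [hs, ht]
    ring
  rw [e] at h
  linarith

theorem cre_h_1_p_0 (x : ℝ) (h1 : 1 / 2 ≤ x) (h2 : x ≤ 1) :
    ((-(2699 / 1000000)) + (8127 / 500000) * x +
      (53041 / 250000) * x ^ 2 + (2333 / 31250) * x ^ 3) ^ 2 * (2 - x) ≤
      (4 - x ^ 2) *
      (x - ((-(2699 / 1000000)) + (8127 / 500000) * x +
      (53041 / 250000) * x ^ 2 + (2333 / 31250) * x ^ 3) -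
      ((8127 / 500000) + 2 * (53041 / 250000) * x +
      3 * (2333 / 31250) * x ^ 2) * (2 - x)) := by
  obtain ⟨s, hs⟩ : ∃ s, s = x - 1 / 2 := ⟨_, rfl⟩
  obtain ⟨t, ht⟩ : ∃ t, t = 1 - x := ⟨_, rfl⟩
  have hs0 : 0 ≤ s := by linarith
  have ht0 : 0 ≤ t := by linarith
  have h : 0 ≤
      28089073197 / 15625000000 * t ^ 7 + 964486563 / 62500000 * s * t ^ 6 +
      185951741469 / 3906250000 * s ^ 2 * t ^ 5 + 589820654111 / 7812500000 * s ^ 3 * t ^ 4 +
      5496360849 / 78125000 * s ^ 4 * t ^ 3 + 1252871861 / 31250000 * s ^ 5 * t ^ 2 +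
      65901857 / 5000000 * s ^ 6 * t + 959991 / 500000 * s ^ 7 := by
    positivity
  have e :
      28089073197 / 15625000000 * t ^ 7 + 964486563 / 62500000 * s * t ^ 6 +
      185951741469 / 3906250000 * s ^ 2 * t ^ 5 + 589820654111 / 7812500000 * s ^ 3 * t ^ 4 +
      5496360849 / 78125000 * s ^ 4 * t ^ 3 + 1252871861 / 31250000 * s ^ 5 * t ^ 2 +
      65901857 / 5000000 * s ^ 6 * t + 959991 / 500000 * s ^ 7 =
      (4 - x ^ 2) *
      (x - ((-(2699 / 1000000)) + (8127 / 500000) * x +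
      (53041 / 250000) * x ^ 2 + (2333 / 31250) * x ^ 3) -
      ((8127 / 500000) + 2 * (53041 / 250000) * x +
      3 * (2333 / 31250) * x ^ 2) * (2 - x)) -
      ((-(2699 / 1000000)) + (8127 / 500000) * x +
      (53041 / 250000) * x ^ 2 + (2333 / 31250) * x ^ 3) ^ 2 * (2 - x) := by
    rw [hs, ht]
    ring
  rw [e] at h
  linarith

theorem cre_h_1_q_0 (x : ℝ) (h1 : 1 / 2 ≤ x) (h2 : x ≤ 1) :
    0 ≤
      (x - ((-(2699 / 1000000)) + (8127 / 500000) * x +
      (53041 / 250000) * x ^ 2 + (2333 / 31250) * x ^ 3) -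
      ((8127 / 500000) + 2 * (53041 / 250000) * x +
      3 * (2333 / 31250) * x ^ 2) * (2 - x)) := by
  obtain ⟨s, hs⟩ : ∃ s, s = x - 1 / 2 := ⟨_, rfl⟩
  obtain ⟨t, ht⟩ : ∃ t, t = 1 - x := ⟨_, rfl⟩
  have hs0 : 0 ≤ s := by linarith
  have ht0 : 0 ≤ t := by linarith
  have h : 0 ≤
      698 / 15625 * t ^ 3 + 3053 / 12500 * s * t ^ 2 + 41357 / 125000 * s ^ 2 * t +
      1403 / 5000 * s ^ 3 := by
    positivity
  have e :
      698 / 15625 * t ^ 3 + 3053 / 12500 * s * t ^ 2 + 41357 / 125000 * s ^ 2 * t +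
      1403 / 5000 * s ^ 3 =
      (x - ((-(2699 / 1000000)) + (8127 / 500000) * x +
      (53041 / 250000) * x ^ 2 + (2333 / 31250) * x ^ 3) -
      ((8127 / 500000) + 2 * (53041 / 250000) * x +
      3 * (2333 / 31250) * x ^ 2) * (2 - x)) -
      0 := by
    rw [hs, ht]
    ring
  rw [e] at h
  linarith

/-- the pair `(4, 21 / 20)` -/
theorem cre_h : Cre (4) (21 / 20) := by
  have h0 := Up.zero (4)
  have h1 : Up (4) (1 / 2) (67801 / 1000000) := by
    have h := h0.step (β := 1 / 2) (a := (0))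
      (b := (0)) (c := (30599 / 125000))
      (d := (6603 / 125000)) (by norm_num) (by norm_num) (by norm_num) (by norm_num)
      (fun x i0 i1 => by
      exact cre_h_0_p_0 x (by linarith) (by linarith))
      (fun x i0 i1 => by
      exact cre_h_0_q_0 x (by linarith) (by linarith))
    norm_num at h ⊢
    exact h
  have h2 : Up (4) (1) (2403 / 8000) := by
    have h := h1.step (β := 1) (a := (-(2699 / 1000000)))
      (b := (8127 / 500000)) (c := (53041 / 250000))
      (d := (2333 / 31250)) (by norm_num) (by norm_num) (by norm_num) (by norm_num)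
      (fun x i0 i1 => by
      exact cre_h_1_p_0 x (by linarith) (by linarith))
      (fun x i0 i1 => by
      exact cre_h_1_q_0 x (by linarith) (by linarith))
    norm_num at h ⊢
    exact h
  exact Up.cre (by simpa using h2) (by norm_num)

end Pool.Agent.TDV
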