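import Pool.Agent.TDV.Basic

/-!
# Pointwise bounds, multiplication by the variable, and choices of signs
-/

set_option autoImplicit false

namespace Pool.Agent.TDV

open Polynomial MeasureTheory intervalIntegral

/-- Cauchy-Schwarz for the integral of a polynomial -/
lemma sq_int_le (f : ℝ[X]) (a b : ℝ) (hab : a ≤ b) :
    (∫ t in a..b, f.eval t) ^ 2 ≤ (b - a) * ∫ t in a..b, f.eval t ^ 2 := by
  have key : ∀ s : ℝ, 0 ≤ (b - a) * (s * s) + (-2 * ∫ t in a..b, f.eval t) * s
      + ∫ t in a..b, f.eval t ^ 2 := by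
    intro s
    have h0 : 0 ≤ ∫ t in a..b, (f.eval t - s) ^ 2 := by
      apply intervalIntegral.integral_nonneg hab
      intro t _
      exact sq_nonneg _
    have i1 : IntervalIntegrable (fun t => f.eval t ^ 2) volume a b :=
      (f.continuous.pow 2).intervalIntegrable a b
    have i2 : IntervalIntegrable (fun t => (2 * s) * f.eval t) volume a b :=
      (continuous_const.mul f.continuous).intervalIntegrable a b
    have i3 : IntervalIntegrable (fun _ : ℝ => s ^ 2) volume a b :=
      continuous_const.intervalIntegrable a b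
    have h1 : (∫ t in a..b, (f.eval t - s) ^ 2)
        = (∫ t in a..b, f.eval t ^ 2) - (2 * s) * (∫ t in a..b, f.eval t) + (b - a) * s ^ 2 := by
      have e1 : (∫ t in a..b, (f.eval t - s) ^ 2)
          = ∫ t in a..b, ((f.eval t ^ 2 - (2 * s) * f.eval t) + s ^ 2) := by
        apply intervalIntegral.integral_congr
        intro t _
        simp only
        ring
      rw [e1, intervalIntegral.integral_add (i1.sub i2) i3, intervalIntegral.integral_sub i1 i2,
        intervalIntegral.integral_const_mul, intervalIntegral.integral_const, smul_eq_mul]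
    rw [h1] at h0
    nlinarith
  have hd := discrim_le_zero key
  unfold discrim at hd
  nlinarith

/-- monotonicity of the integral of a square in the interval -/
lemma int_sq_mono (f : ℝ[X]) (a b c d : ℝ) (hac : c ≤ a) (hab : a ≤ b) (hbd : b ≤ d) :
    (∫ t in a..b, f.eval t ^ 2) ≤ ∫ t in c..d, f.eval t ^ 2 := by
  apply intervalIntegral.integral_mono_interval hac hab hbd
  · exact Filter.Eventually.of_forall fun t => sq_nonneg _
  · exact (f.continuous.pow 2).intervalIntegrable c d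

lemma int_derivative (p : ℝ[X]) (a b : ℝ) :
    (∫ t in a..b, (derivative p).eval t) = p.eval b - p.eval a := by
  apply intervalIntegral.integral_eq_sub_of_hasDerivAt
  · intro x _
    exact p.hasDerivAt x
  · exact (derivative p).continuous.intervalIntegrable a b

lemma dn_sq_eq (T : ℝ) (hT : 0 ≤ T) (p : ℝ[X]) :
    dn T p ^ 2 = 3 / 2 * T * ∫ t in (0 : ℝ)..T, wt T t * (derivative p).eval t ^ 2 := by
  rw [dn_sq T hT]
  unfold dform
  simp only [sq]

lemma int_wsq (T : ℝ) (f : ℝ[X]) (a b : ℝ) :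
    IntervalIntegrable (fun t => wt T t * f.eval t ^ 2) volume a b :=
  ((wt_cont T).mul (f.continuous.pow 2)).intervalIntegrable a b

/-- monotonicity of the weighted integral of a square in the interval -/
lemma int_wsq_mono (T : ℝ) (f : ℝ[X]) (a b c d : ℝ) (hac : c ≤ a) (hab : a ≤ b) (hbd : b ≤ d) :
    (∫ t in a..b, wt T t * f.eval t ^ 2) ≤ ∫ t in c..d, wt T t * f.eval t ^ 2 := by
  apply intervalIntegral.integral_mono_interval hac hab hbd
  · exact Filter.Eventually.of_forall fun t => mul_nonneg (wt_pos T t).le (sq_nonneg _)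
  · exact int_wsq T f c d

lemma int_inv (T a b : ℝ) :
    (∫ x in a..b, (2 - x / T)) = (b - a) * (2 - 1 / 2 * ((a + b) / T)) := by
  have h : ∀ x : ℝ, HasDerivAt (fun x : ℝ => 2 * x - 1 / 2 / T * x ^ 2) (2 - x / T) x := by
    intro x
    have h1 := (hasDerivAt_id' x).const_mul 2
    have h2 := ((hasDerivAt_id' x).pow 2).const_mul (1 / 2 / T)
    refine HasDerivAt.congr_deriv (h1.sub h2) ?_
    norm_num
    ring
  rw [intervalIntegral.integral_eq_sub_of_hasDerivAt (fun x _ => h x)
    ((by fun_prop : Continuous fun x : ℝ => 2 - x / T).intervalIntegrable a b)]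
  ring

/-- weighted Cauchy-Schwarz -/
lemma wsq_int_le (T : ℝ) (hT : 0 < T) (f : ℝ[X]) (a b : ℝ) (hab : a ≤ b) (hb : b ≤ T) :
    (∫ t in a..b, f.eval t) ^ 2 ≤
      ((b - a) * (2 - 1 / 2 * ((a + b) / T))) * ∫ t in a..b, wt T t * f.eval t ^ 2 := by
  rw [← int_inv T a b]
  have key : ∀ s : ℝ, 0 ≤ (∫ x in a..b, (2 - x / T)) * (s * s) +
      (-2 * ∫ t in a..b, f.eval t) * s + ∫ t in a..b, wt T t * f.eval t ^ 2 := by
    intro s
    have h0 : 0 ≤ ∫ t in a..b, wt T t * (f.eval t - s * (2 - t / T)) ^ 2 := by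
      apply intervalIntegral.integral_nonneg hab
      intro t _
      exact mul_nonneg (wt_pos T t).le (sq_nonneg _)
    have i1 : IntervalIntegrable (fun t => wt T t * f.eval t ^ 2) volume a b := int_wsq T f a b
    have i2 : IntervalIntegrable (fun t => (2 * s) * f.eval t) volume a b :=
      (continuous_const.mul f.continuous).intervalIntegrable a b
    have i3 : IntervalIntegrable (fun t : ℝ => s ^ 2 * (2 - t / T)) volume a b :=
      (by fun_prop : Continuous fun t : ℝ => s ^ 2 * (2 - t / T)).intervalIntegrable a b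
    have h1 : (∫ t in a..b, wt T t * (f.eval t - s * (2 - t / T)) ^ 2)
        = (∫ t in a..b, wt T t * f.eval t ^ 2) - (2 * s) * (∫ t in a..b, f.eval t) +
          s ^ 2 * ∫ t in a..b, (2 - t / T) := by
      have e1 : (∫ t in a..b, wt T t * (f.eval t - s * (2 - t / T)) ^ 2)
          = ∫ t in a..b, ((wt T t * f.eval t ^ 2 - (2 * s) * f.eval t) +
            s ^ 2 * (2 - t / T)) := by
        apply intervalIntegral.integral_congr
        intro t ht
        rw [Set.uIcc_of_le hab] at ht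
        have h2 : wt T t * (2 - t / T) = 1 := by
          rw [wt_eq hT (ht.2.trans hb)]
          have h3 : t / T ≤ 1 := by
            rw [div_le_one hT]
            exact ht.2.trans hb
          exact inv_mul_cancel₀ (by linarith)
        simp only
        linear_combination (-2 * s * f.eval t + s ^ 2 * (2 - t / T)) * h2
      rw [e1, intervalIntegral.integral_add (i1.sub i2) i3, intervalIntegral.integral_sub i1 i2,
        intervalIntegral.integral_const_mul, intervalIntegral.integral_const_mul]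
    rw [h1] at h0
    linarith
  have hd := discrim_le_zero key
  unfold discrim at hd
  nlinarith

/-- two-point bound -/
lemma sq_sub_le (T : ℝ) (hT : 0 < T) (p : ℝ[X]) (s t : ℝ) (hs : 0 ≤ s) (hst : s ≤ t)
    (ht : t ≤ T) : (p.eval t - p.eval s) ^ 2 ≤
      ((t - s) / T * (2 - 1 / 2 * ((s + t) / T)) / (3 / 2)) * dn T p ^ 2 := by
  rw [← int_derivative p s t, dn_sq_eq T hT.le]
  have h1 := wsq_int_le T hT (derivative p) s t hst ht
  have h2 := int_wsq_mono T (derivative p) s t 0 T hs hst ht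
  have h3 : ((t - s) / T * (2 - 1 / 2 * ((s + t) / T)) / (3 / 2)) *
      (3 / 2 * T * ∫ t in (0 : ℝ)..T, wt T t * (derivative p).eval t ^ 2) =
      ((t - s) * (2 - 1 / 2 * ((s + t) / T))) *
        ∫ t in (0 : ℝ)..T, wt T t * (derivative p).eval t ^ 2 := by
    field_simp
  rw [h3]
  refine h1.trans (mul_le_mul_of_nonneg_left h2 (mul_nonneg (by linarith) ?_))
  have h4 : (s + t) / T ≤ 2 := by
    rw [div_le_iff₀ hT]
    linarith
  linarith

lemma theta_nonneg (T t : ℝ) : 0 ≤ theta T t := Real.sqrt_nonneg _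

lemma theta_sq (T t : ℝ) (hT : 0 < T) (ht : t ≤ T) :
    theta T t ^ 2 = (2 * ((T - t) / T) + ((T - t) / T) ^ 2) / 3 := by
  have h : 0 ≤ (T - t) / T := div_nonneg (by linarith) hT.le
  exact Real.sq_sqrt (by positivity)

lemma theta_le_one (T t : ℝ) (hT : 0 < T) (ht : 0 ≤ t) (ht1 : t ≤ T) : theta T t ≤ 1 := by
  unfold theta
  rw [Real.sqrt_le_one]
  have h0 : 0 ≤ (T - t) / T := div_nonneg (by linarith) hT.le
  have h1 : (T - t) / T ≤ 1 := by
    rw [div_le_one hT]
    linarith
  nlinarith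

/-- `|p(t) - p(T)| ≤ theta * dn` -/
lemma abs_sub_le (T : ℝ) (hT : 0 < T) (p : ℝ[X]) (t : ℝ) (h0 : 0 ≤ t) (ht : t ≤ T) :
    |p.eval t - p.eval T| ≤ theta T t * dn T p := by
  have h := sq_sub_le T hT p t T h0 ht le_rfl
  have e : (T - t) / T * (2 - 1 / 2 * ((t + T) / T)) / (3 / 2) = theta T t ^ 2 := by
    rw [theta_sq T t hT ht]
    field_simp
    ring
  rw [e, ← mul_pow] at h
  have h2 := abs_le_of_sq_le_sq h (mul_nonneg (theta_nonneg _ _) (dn_nonneg _ _))
  rw [abs_sub_comm]
  exact h2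

lemma le_eval (T : ℝ) (hT : 0 < T) (p : ℝ[X]) (t : ℝ) (h0 : 0 ≤ t) (ht : t ≤ T) :
    p.eval T - theta T t * dn T p ≤ p.eval t := by
  have := abs_le.1 (abs_sub_le T hT p t h0 ht)
  linarith [this.1]

lemma eval_le (T : ℝ) (hT : 0 < T) (p : ℝ[X]) (t : ℝ) (h0 : 0 ≤ t) (ht : t ≤ T) :
    p.eval t ≤ p.eval T + theta T t * dn T p := by
  have := abs_le.1 (abs_sub_le T hT p t h0 ht)
  linarith [this.2]

lemma eval_top_le (T : ℝ) (hT : 0 < T) (p : ℝ[X]) (t : ℝ) (h0 : 0 ≤ t) (ht : t ≤ T) :
    p.eval T ≤ p.eval t + theta T t * dn T p := by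
  have := abs_le.1 (abs_sub_le T hT p t h0 ht)
  linarith [this.1]

/-- if the value at `T` is nonnegative then the value at `t` is at least `-theta * dn` -/
lemma neg_theta_le (T : ℝ) (hT : 0 < T) (p : ℝ[X]) (t : ℝ) (h0 : 0 ≤ t) (ht : t ≤ T)
    (hp : 0 ≤ p.eval T) : -(theta T t * dn T p) ≤ p.eval t := by
  have := le_eval T hT p t h0 ht
  linarith

/-- `|p(t) - p(0)|` bound -/
lemma abs_sub_zero_le (T : ℝ) (hT : 0 < T) (p : ℝ[X]) (t : ℝ) (h0 : 0 ≤ t) (ht : t ≤ T) :
    |p.eval t - p.eval 0| ≤ dn T p := by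
  have h := sq_sub_le T hT p 0 t le_rfl h0 ht
  have h1 : (t - 0) / T * (2 - 1 / 2 * ((0 + t) / T)) / (3 / 2) ≤ 1 := by
    have h2 : 0 ≤ t / T := div_nonneg h0 hT.le
    have h3 : t / T ≤ 1 := by
      rw [div_le_one hT]
      exact ht
    rw [sub_zero, zero_add]
    nlinarith
  have h2 : (p.eval t - p.eval 0) ^ 2 ≤ dn T p ^ 2 := by
    have := mul_le_mul_of_nonneg_right h1 (sq_nonneg (dn T p))
    linarith
  exact abs_le_of_sq_le_sq h2 (dn_nonneg _ _)

/-! ### multiplication by the variable -/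

/-- `(lam, g)` is admissible: `dn T (X p) ^ 2 ≤ T ^ 2 (g p(T) ^ 2 + lam (dn T p) ^ 2)` -/
def Cre (lam g : ℝ) : Prop := ∀ (T : ℝ), 0 < T → ∀ p : ℝ[X],
  dn T (X * p) ^ 2 ≤ T ^ 2 * (g * p.eval T ^ 2 + lam * dn T p ^ 2)

/-- **the creation inequality**, from a Riccati polynomial `Q = a + b x` -/
theorem Cre.of {lam g a b : ℝ} (hg : g = 3 / 2 * (1 - a - b))
    (h : ∀ x : ℝ, 0 ≤ x → x ≤ 1 → x ^ 3 * (a + b * x) ^ 2 * (2 - x) ≤
      (lam - x ^ 2) * (1 - (2 * a + 3 * b * x) * (2 - x) - x * (a + b * x)))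
    (hl : 1 ≤ lam)
    (h' : ∀ x : ℝ, 0 ≤ x → x ≤ 1 →
      0 ≤ 1 - (2 * a + 3 * b * x) * (2 - x) - x * (a + b * x)) : Cre lam g := by
  intro T hT p
  rw [dn_sq_eq T hT.le, dn_sq_eq T hT.le]
  obtain ⟨W, hW⟩ : ∃ W : ℝ → ℝ, W = fun s => (2 - s / T)⁻¹ := ⟨_, rfl⟩
  have hx : ∀ s : ℝ, s ≤ T → s / T ≤ 1 := by
    intro s hs
    rw [div_le_one hT]
    exact hs
  have hden : ∀ s : ℝ, s ≤ T → (0 : ℝ) < 2 - s / T := by
    intro s hs
    have := hx s hs
    linarith
  have hWd : ∀ s : ℝ, s ≤ T → HasDerivAt W (1 / T * W s ^ 2) s := by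
    intro s hs
    have h1 : HasDerivAt (fun s : ℝ => 2 - s / T) (-(1 / T)) s := by
      have h2 := ((hasDerivAt_id' s).div_const T).const_sub 2
      refine HasDerivAt.congr_deriv h2 ?_
      ring
    have h2 := h1.inv (hden s hs).ne'
    rw [hW]
    refine HasDerivAt.congr_deriv h2 ?_
    simp only
    have := (hden s hs).ne'
    field_simp
  -- the primitive
  obtain ⟨F, hF⟩ : ∃ F : ℝ → ℝ, F = fun s => W s * (s - s ^ 2 / T * (a + b * (s / T))) *
      p.eval s ^ 2 := ⟨_, rfl⟩
  obtain ⟨F', hF'⟩ : ∃ F' : ℝ → ℝ, F' = fun s =>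
      (1 / T * W s ^ 2 * (s - s ^ 2 / T * (a + b * (s / T))) +
        W s * (1 - (2 * a * (s / T) + 3 * b * (s / T) ^ 2))) * p.eval s ^ 2 +
      W s * (s - s ^ 2 / T * (a + b * (s / T))) * (2 * p.eval s * (derivative p).eval s) :=
    ⟨_, rfl⟩
  have hFd : ∀ s ∈ Set.uIcc (0 : ℝ) T, HasDerivAt F (F' s) s := by
    intro s hs
    rw [Set.uIcc_of_le hT.le] at hs
    have h1 := hWd s hs.2
    have h2 : HasDerivAt (fun s : ℝ => s - s ^ 2 / T * (a + b * (s / T)))
        (1 - (2 * a * (s / T) + 3 * b * (s / T) ^ 2)) s := by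
      have h3 : HasDerivAt (fun s : ℝ => s ^ 2 / T) (2 * s / T) s := by
        have := ((hasDerivAt_id' s).pow 2).div_const T
        refine HasDerivAt.congr_deriv this ?_
        simp
      have h4 : HasDerivAt (fun s : ℝ => a + b * (s / T)) (b / T) s := by
        have := (((hasDerivAt_id' s).div_const T).const_mul b).const_add a
        refine HasDerivAt.congr_deriv this ?_
        ring
      refine HasDerivAt.congr_deriv ((hasDerivAt_id' s).sub (h3.mul h4)) ?_
      field_simp
      ring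
    have h3 : HasDerivAt (fun s : ℝ => p.eval s ^ 2) (2 * p.eval s * (derivative p).eval s) s := by
      have := (p.hasDerivAt s).pow 2
      refine HasDerivAt.congr_deriv this ?_
      simp
    rw [hF, hF']
    exact (h1.mul h2).mul h3
  have hWc : ContinuousOn W (Set.Icc 0 T) := fun s hs =>
    (hWd s hs.2).continuousAt.continuousWithinAt
  have hFc : ContinuousOn F' (Set.Icc 0 T) := by
    rw [hF']
    have c1 : ContinuousOn (fun s : ℝ => s - s ^ 2 / T * (a + b * (s / T))) (Set.Icc 0 T) := by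
      fun_prop
    have c2 : ContinuousOn (fun s : ℝ => 1 - (2 * a * (s / T) + 3 * b * (s / T) ^ 2))
        (Set.Icc 0 T) := by
      fun_prop
    have c3 : ContinuousOn (fun s : ℝ => p.eval s) (Set.Icc 0 T) := p.continuous.continuousOn
    have c4 : ContinuousOn (fun s : ℝ => (derivative p).eval s) (Set.Icc 0 T) :=
      (derivative p).continuous.continuousOn
    exact (((continuousOn_const.mul (hWc.pow 2)).mul c1).add (hWc.mul c2)).mul (c3.pow 2) |>.add
      ((hWc.mul c1).mul ((continuousOn_const.mul c3).mul c4))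
  have hFi : IntervalIntegrable F' volume 0 T := by
    apply ContinuousOn.intervalIntegrable
    rw [Set.uIcc_of_le hT.le]
    exact hFc
  have hint := intervalIntegral.integral_eq_sub_of_hasDerivAt hFd hFi
  have hFT : F T - F 0 = T * (1 - a - b) * p.eval T ^ 2 := by
    rw [hF, hW]
    simp only
    rw [div_self hT.ne']
    field_simp
    ring
  rw [hFT] at hint
  -- the pointwise inequality
  have hpt : ∀ s ∈ Set.Icc (0 : ℝ) T, wt T s * (derivative (X * p)).eval s ^ 2 ≤
      F' s + lam * T ^ 2 * (wt T s * (derivative p).eval s ^ 2) := by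
    intro s hs
    rw [wt_eq hT hs.2, hF', hW]
    simp only [derivative_mul, derivative_X, one_mul, eval_add, eval_mul, eval_X]
    obtain ⟨x, hxe⟩ : ∃ x, x = s / T := ⟨_, rfl⟩
    have hx0 : 0 ≤ x := by rw [hxe]; exact div_nonneg hs.1 hT.le
    have hx1 : x ≤ 1 := by rw [hxe]; exact hx s hs.2
    have hsx : s = x * T := by rw [hxe]; field_simp
    obtain ⟨P, hP⟩ : ∃ P, P = p.eval s := ⟨_, rfl⟩
    obtain ⟨R, hR⟩ : ∃ R, R = T * (derivative p).eval s := ⟨_, rfl⟩
    have hR' : (derivative p).eval s = R / T := by rw [hR]; field_simp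
    rw [hR', ← hP, ← hxe, hsx]
    have hd : (0 : ℝ) < 2 - x := by linarith
    have hdi : (0 : ℝ) < (2 - x)⁻¹ := inv_pos.2 hd
    have hA := h' x hx0 hx1
    have hB : 0 ≤ lam - x ^ 2 := by nlinarith
    have hC := h x hx0 hx1
    -- quadratic form in `P`, `R`
    have hform : 0 ≤ (x * (1 - (2 * a + 3 * b * x) * (2 - x) - x * (a + b * x))) * P ^ 2 -
        2 * (x ^ 2 * (a + b * x) * (2 - x)) * P * R +
        (lam - x ^ 2) * (2 - x) * R ^ 2 := by
      obtain ⟨A, hAe⟩ : ∃ A, A =
        1 - (2 * a + 3 * b * x) * (2 - x) - x * (a + b * x) := ⟨_, rfl⟩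
      obtain ⟨B, hBe⟩ : ∃ B, B = x * (a + b * x) := ⟨_, rfl⟩
      obtain ⟨c, hce⟩ : ∃ c, c = lam - x ^ 2 := ⟨_, rfl⟩
      rw [← hAe] at hA hC ⊢
      rw [← hce] at hB hC ⊢
      have hC' : x * B ^ 2 * (2 - x) ≤ c * A := by
        rw [hBe]
        calc x * (x * (a + b * x)) ^ 2 * (2 - x) =
            x ^ 3 * (a + b * x) ^ 2 * (2 - x) := by ring
          _ ≤ c * A := hC
      have e : x ^ 2 * (a + b * x) * (2 - x) = x * B * (2 - x) := by rw [hBe]; ring
      rw [e]
      rcases eq_or_lt_of_le hB with h0 | h0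
      · rw [← h0] at hC'
        have h1 : x * B ^ 2 * (2 - x) = 0 := by
          apply le_antisymm
          · linarith
          · positivity
        have h2 : x * B = 0 := by
          rcases mul_eq_zero.1 h1 with h3 | h3
          · rcases mul_eq_zero.1 h3 with h4 | h4
            · rw [h4, zero_mul]
            · rw [pow_eq_zero_iff (by norm_num)] at h4
              rw [h4, mul_zero]
          · linarith
        rw [h2, ← h0]
        have : 0 ≤ x * A * P ^ 2 := by positivity
        linarith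
      · have h1 : 0 ≤ c * (x * A * P ^ 2 - 2 * (x * B * (2 - x)) * P * R +
            c * (2 - x) * R ^ 2) := by
          have e2 : c * (x * A * P ^ 2 - 2 * (x * B * (2 - x)) * P * R +
              c * (2 - x) * R ^ 2) = (2 - x) * (c * R - x * B * P) ^ 2 +
              x * (c * A - x * B ^ 2 * (2 - x)) * P ^ 2 := by ring
          rw [e2]
          have h3 : 0 ≤ c * A - x * B ^ 2 * (2 - x) := by linarith
          positivity
        by_contra hneg
        push Not at hneg
        have := mul_neg_of_pos_of_neg h0 hneg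
        linarith
    have hfin : (1 / T * (2 - x)⁻¹ ^ 2 *
        (x * T - (x * T) ^ 2 / T * (a + b * x)) +
        (2 - x)⁻¹ * (1 - (2 * a * x + 3 * b * x ^ 2))) * P ^ 2 +
        (2 - x)⁻¹ * (x * T - (x * T) ^ 2 / T * (a + b * x)) *
          (2 * P * (R / T)) +
        lam * T ^ 2 * ((2 - x)⁻¹ * (R / T) ^ 2) -
        (2 - x)⁻¹ * (P + x * T * (R / T)) ^ 2 =
        (2 - x)⁻¹ ^ 2 * ((x * (1 - (2 * a + 3 * b * x) * (2 - x) -
          x * (a + b * x))) * P ^ 2 -
        2 * (x ^ 2 * (a + b * x) * (2 - x)) * P * R +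
        (lam - x ^ 2) * (2 - x) * R ^ 2) := by
      field_simp
      ring
    have hpos := mul_nonneg (sq_nonneg (2 - x)⁻¹) hform
    rw [← hfin] at hpos
    linarith
  have i1 := int_wsq T (derivative (X * p)) 0 T
  have i2 : IntervalIntegrable (fun s => F' s + lam * T ^ 2 * (wt T s *
      (derivative p).eval s ^ 2)) volume 0 T :=
    hFi.add ((int_wsq T (derivative p) 0 T).const_mul _)
  have hmono := intervalIntegral.integral_mono_on hT.le i1 i2 hpt
  rw [intervalIntegral.integral_add hFi ((int_wsq T (derivative p) 0 T).const_mul _), hint,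
    intervalIntegral.integral_const_mul] at hmono
  have h5 := mul_le_mul_of_nonneg_left hmono (show 0 ≤ 3 / 2 * T by linarith)
  rw [hg]
  refine h5.trans (le_of_eq ?_)
  ring

/-! ### finite sums -/

lemma dn_sum_le {ι : Type*} (T : ℝ) (hT : 0 ≤ T) (s : Finset ι) (p : ι → ℝ[X]) :
    dn T (∑ i ∈ s, p i) ≤ ∑ i ∈ s, dn T (p i) := by
  classical
  induction s using Finset.induction_on with
  | empty => simp [dn_zero]
  | insert a s ha ih =>
    rw [Finset.sum_insert ha, Finset.sum_insert ha]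
    exact (dn_add_le T hT _ _).trans (by linarith)

lemma dform_sum_left {ι : Type*} (T : ℝ) (s : Finset ι) (p : ι → ℝ[X]) (q : ℝ[X]) :
    dform T (∑ i ∈ s, p i) q = ∑ i ∈ s, dform T (p i) q := by
  classical
  induction s using Finset.induction_on with
  | empty => simpa using dform_C_left T 0 q
  | insert a s ha ih =>
    rw [Finset.sum_insert ha, Finset.sum_insert ha, dform_add_left, ih]

lemma dform_sum_right {ι : Type*} (T : ℝ) (s : Finset ι) (p : ι → ℝ[X]) (q : ℝ[X]) :
    dform T q (∑ i ∈ s, p i) = ∑ i ∈ s, dform T q (p i) := by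
  rw [dform_comm, dform_sum_left]
  simp only [dform_comm]

/-- `(Σ a_i)² ≤ n Σ a_i²` for the seminorm -/
lemma dn_sum_sq_le {ι : Type*} (T : ℝ) (hT : 0 ≤ T) (s : Finset ι) (p : ι → ℝ[X]) :
    dn T (∑ i ∈ s, p i) ^ 2 ≤ s.card * ∑ i ∈ s, dn T (p i) ^ 2 := by
  have h := pow_le_pow_left₀ (dn_nonneg _ _) (dn_sum_le T hT s p) 2
  exact h.trans sq_sum_le_card_mul_sum_sq

/-! ### choices of signs -/

lemma exists_sign_pair (T : ℝ) (hT : 0 ≤ T) (p q : ℝ[X]) :
    ∃ e : ℝ, (e = 1 ∨ e = -1) ∧ dn T (p + C e * q) ^ 2 ≤ dn T p ^ 2 + dn T q ^ 2 := by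
  rcases le_total (dform T p q) 0 with h | h
  · refine ⟨1, Or.inl rfl, ?_⟩
    rw [map_one, one_mul, dn_add_sq T hT]
    linarith
  · refine ⟨-1, Or.inr rfl, ?_⟩
    have : p + C (-1) * q = p - q := by simp [sub_eq_add_neg]
    rw [this, dn_sub_sq T hT]
    linarith

/-- signs for a finite family, with the sign at one index prescribed -/
lemma exists_signs {ι : Type*} (T : ℝ) (hT : 0 ≤ T) (s : Finset ι) (p : ι → ℝ[X]) :
    ∃ e : ι → ℝ, (∀ i, e i = 1 ∨ e i = -1) ∧
      dn T (∑ i ∈ s, C (e i) * p i) ^ 2 ≤ ∑ i ∈ s, dn T (p i) ^ 2 := by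
  classical
  induction s using Finset.induction_on with
  | empty =>
    refine ⟨fun _ => 1, fun _ => Or.inl rfl, ?_⟩
    simp [dn_zero]
  | insert a s ha ih =>
    obtain ⟨e, he, hle⟩ := ih
    obtain ⟨c, hc, hc2⟩ := exists_sign_pair T hT (∑ i ∈ s, C (e i) * p i) (p a)
    refine ⟨fun i => if i = a then c else e i, ?_, ?_⟩
    · intro i
      by_cases h : i = a
      · simp only [h, if_true]
        exact hc
      · simp only [h, if_false]
        exact he i
    · rw [Finset.sum_insert ha, Finset.sum_insert ha]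
      have hs : (∑ i ∈ s, C (if i = a then c else e i) * p i) = ∑ i ∈ s, C (e i) * p i := by
        apply Finset.sum_congr rfl
        intro i hi
        have : i ≠ a := fun h => ha (h ▸ hi)
        simp [this]
      simp only [if_true]
      rw [hs, add_comm (C c * p a)]
      linarith

lemma exists_signs_first {ι : Type*} (T : ℝ) (hT : 0 ≤ T) (s : Finset ι) (p : ι → ℝ[X])
    (i0 : ι) (e0 : ℝ) (he0 : e0 = 1 ∨ e0 = -1) :
    ∃ e : ι → ℝ, (∀ i, e i = 1 ∨ e i = -1) ∧ e i0 = e0 ∧
      dn T (∑ i ∈ s, C (e i) * p i) ^ 2 ≤ ∑ i ∈ s, dn T (p i) ^ 2 := by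
  obtain ⟨e, he, hle⟩ := exists_signs T hT s p
  by_cases h : e i0 = e0
  · exact ⟨e, he, h, hle⟩
  · refine ⟨fun i => - e i, ?_, ?_, ?_⟩
    · intro i
      rcases he i with h1 | h1
      · right
        simp only [h1]
      · left
        simp only [h1, neg_neg]
    · rcases he i0 with h1 | h1 <;> rcases he0 with h2 | h2 <;> simp_all
    · have : (∑ i ∈ s, C (- e i) * p i) = - ∑ i ∈ s, C (e i) * p i := by
        rw [← Finset.sum_neg_distrib]
        apply Finset.sum_congr rfl
        intro i _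
        simp
      rw [this, dn_neg]
      exact hle

end Pool.Agent.TDV
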