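import Pool.Agent.TDV.Point

set_option autoImplicit false

/-!
# The creation inequality from a piecewise Riccati function

`Up lam x r`: the creation inequality on `[0, x T]` with the Riccati function equal to `r` at `x`.
-/

namespace Pool.Agent.TDV

open Polynomial MeasureTheory intervalIntegral

/-- the inequality on `[0, x T]` -/
def Up (lam x r : ℝ) : Prop := 0 ≤ x ∧ x ≤ 1 ∧ ∀ (T : ℝ), 0 < T → ∀ p : ℝ[X],
  (∫ s in (0 : ℝ)..(x * T), wt T s * (derivative (X * p)).eval s ^ 2) ≤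
    (2 - x)⁻¹ * (T * (x - r)) * p.eval (x * T) ^ 2 +
    lam * T ^ 2 * ∫ s in (0 : ℝ)..(x * T), wt T s * (derivative p).eval s ^ 2

theorem Up.zero (lam : ℝ) : Up lam 0 0 := by
  refine ⟨le_rfl, zero_le_one, fun T _ p => ?_⟩
  simp

/-- one piece, with the cubic Riccati function `a + b x + c x ^ 2 + d x ^ 3` on `[α, β]` -/
theorem Up.step {lam α β r a b c d : ℝ} (hu : Up lam α r) (hab : α ≤ β) (hb1 : β ≤ 1)
    (hr : a + b * α + c * α ^ 2 + d * α ^ 3 ≤ r) (hl : 1 ≤ lam)
    (h : ∀ x : ℝ, α ≤ x → x ≤ β → (a + b * x + c * x ^ 2 + d * x ^ 3) ^ 2 * (2 - x) ≤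
      (lam - x ^ 2) * (x - (a + b * x + c * x ^ 2 + d * x ^ 3) -
        (b + 2 * c * x + 3 * d * x ^ 2) * (2 - x)))
    (h' : ∀ x : ℝ, α ≤ x → x ≤ β → 0 ≤ x - (a + b * x + c * x ^ 2 + d * x ^ 3) -
        (b + 2 * c * x + 3 * d * x ^ 2) * (2 - x)) :
    Up lam β (a + b * β + c * β ^ 2 + d * β ^ 3) := by
  obtain ⟨hα0, hα1, hu⟩ := hu
  refine ⟨hα0.trans hab, hb1, fun T hT p => ?_⟩
  have hu' := hu T hT p
  obtain ⟨W, hW⟩ : ∃ W : ℝ → ℝ, W = fun s => (2 - s / T)⁻¹ := ⟨_, rfl⟩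
  have hsx : ∀ s : ℝ, s ≤ T → s / T ≤ 1 := by
    intro s hs
    rw [div_le_one hT]
    exact hs
  have hden : ∀ s : ℝ, s ≤ T → (0 : ℝ) < 2 - s / T := by
    intro s hs
    have := hsx s hs
    linarith
  have hle : α * T ≤ β * T := mul_le_mul_of_nonneg_right hab hT.le
  have hβT : β * T ≤ T := by nlinarith
  have hα0T : 0 ≤ α * T := mul_nonneg hα0 hT.le
  have hWd : ∀ s : ℝ, s ≤ T → HasDerivAt W (1 / T * W s ^ 2) s := by
    intro s hs
    have h1 : HasDerivAt (fun s : ℝ => 2 - s / T) (-(1 / T)) s :=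
      ((hasDerivAt_id' s).div_const T).const_sub 2
    have h2 := h1.inv (hden s hs).ne'
    rw [hW]
    refine HasDerivAt.congr_deriv h2 ?_
    simp only
    have := (hden s hs).ne'
    field_simp
  obtain ⟨F, hF⟩ : ∃ F : ℝ → ℝ, F = fun s => W s *
      (s - T * (a + b * (s / T) + c * (s / T) ^ 2 + d * (s / T) ^ 3)) * p.eval s ^ 2 := ⟨_, rfl⟩
  obtain ⟨F', hF'⟩ : ∃ F' : ℝ → ℝ, F' = fun s =>
      (1 / T * W s ^ 2 * (s - T * (a + b * (s / T) + c * (s / T) ^ 2 + d * (s / T) ^ 3)) +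
        W s * (1 - (b + 2 * c * (s / T) + 3 * d * (s / T) ^ 2))) * p.eval s ^ 2 +
      W s * (s - T * (a + b * (s / T) + c * (s / T) ^ 2 + d * (s / T) ^ 3)) *
        (2 * p.eval s * (derivative p).eval s) := ⟨_, rfl⟩
  have hFd : ∀ s ∈ Set.uIcc (α * T) (β * T), HasDerivAt F (F' s) s := by
    intro s hs
    rw [Set.uIcc_of_le hle] at hs
    have h1 := hWd s (hs.2.trans hβT)
    have h2 : HasDerivAt
        (fun s : ℝ => s - T * (a + b * (s / T) + c * (s / T) ^ 2 + d * (s / T) ^ 3))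
        (1 - (b + 2 * c * (s / T) + 3 * d * (s / T) ^ 2)) s := by
      have i0 : HasDerivAt (fun s : ℝ => s / T) (1 / T) s := (hasDerivAt_id' s).div_const T
      have i1 := i0.const_mul b
      have i2 := (i0.pow 2).const_mul c
      have i3 := (i0.pow 3).const_mul d
      have i4 := ((((i1.const_add a).add i2).add i3).const_mul T)
      refine HasDerivAt.congr_deriv ((hasDerivAt_id' s).sub i4) ?_
      have e2 : (s / T) ^ (2 - 1) = s / T := pow_one _
      have e3 : (s / T) ^ (3 - 1) = (s / T) ^ 2 := rfl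
      rw [e2, e3]
      push_cast
      have hT0 : T * (1 / T) = 1 := by
        rw [mul_one_div, div_self hT.ne']
      linear_combination (-(b + 2 * c * (s / T) + 3 * d * (s / T) ^ 2)) * hT0
    have h3 : HasDerivAt (fun s : ℝ => p.eval s ^ 2) (2 * p.eval s * (derivative p).eval s) s := by
      have := (p.hasDerivAt s).pow 2
      refine HasDerivAt.congr_deriv this ?_
      simp
    rw [hF, hF']
    exact (h1.mul h2).mul h3
  have hWc : ContinuousOn W (Set.Icc (α * T) (β * T)) := fun s hs =>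
    (hWd s (hs.2.trans hβT)).continuousAt.continuousWithinAt
  have hFc : ContinuousOn F' (Set.Icc (α * T) (β * T)) := by
    rw [hF']
    have c1 : ContinuousOn
        (fun s : ℝ => s - T * (a + b * (s / T) + c * (s / T) ^ 2 + d * (s / T) ^ 3))
        (Set.Icc (α * T) (β * T)) := by
      fun_prop
    have c2 : ContinuousOn (fun s : ℝ => 1 - (b + 2 * c * (s / T) + 3 * d * (s / T) ^ 2))
        (Set.Icc (α * T) (β * T)) := by
      fun_prop
    have c3 : ContinuousOn (fun s : ℝ => p.eval s) (Set.Icc (α * T) (β * T)) :=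
      p.continuous.continuousOn
    have c4 : ContinuousOn (fun s : ℝ => (derivative p).eval s) (Set.Icc (α * T) (β * T)) :=
      (derivative p).continuous.continuousOn
    exact (((continuousOn_const.mul (hWc.pow 2)).mul c1).add (hWc.mul c2)).mul (c3.pow 2) |>.add
      ((hWc.mul c1).mul ((continuousOn_const.mul c3).mul c4))
  have hFi : IntervalIntegrable F' volume (α * T) (β * T) := by
    apply ContinuousOn.intervalIntegrable
    rw [Set.uIcc_of_le hle]
    exact hFc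
  have hint := intervalIntegral.integral_eq_sub_of_hasDerivAt hFd hFi
  have hFv : ∀ x : ℝ, F (x * T) = (2 - x)⁻¹ *
      (T * (x - (a + b * x + c * x ^ 2 + d * x ^ 3))) * p.eval (x * T) ^ 2 := by
    intro x
    rw [hF, hW]
    simp only
    rw [mul_div_cancel_right₀ x hT.ne']
    ring
  -- the pointwise inequality
  have hpt : ∀ s ∈ Set.Icc (α * T) (β * T), wt T s * (derivative (X * p)).eval s ^ 2 ≤
      F' s + lam * T ^ 2 * (wt T s * (derivative p).eval s ^ 2) := by
    intro s hs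
    have hsT : s ≤ T := hs.2.trans hβT
    rw [wt_eq hT hsT, hF', hW]
    simp only [derivative_mul, derivative_X, one_mul, eval_add, eval_mul, eval_X]
    obtain ⟨x, hxe⟩ : ∃ x, x = s / T := ⟨_, rfl⟩
    have hxa : α ≤ x := by rw [hxe, le_div_iff₀ hT]; exact hs.1
    have hxb : x ≤ β := by rw [hxe, div_le_iff₀ hT]; exact hs.2
    have hx0 : 0 ≤ x := hα0.trans hxa
    have hx1 : x ≤ 1 := hxb.trans hb1
    have hsx : s = x * T := by rw [hxe]; field_simp
    obtain ⟨P, hP⟩ : ∃ P, P = p.eval s := ⟨_, rfl⟩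
    obtain ⟨Q, hQ⟩ : ∃ Q, Q = T * (derivative p).eval s := ⟨_, rfl⟩
    have hQ' : (derivative p).eval s = Q / T := by rw [hQ]; field_simp
    rw [hQ', ← hP, ← hxe, hsx]
    have hdi : (0 : ℝ) < (2 - x)⁻¹ := inv_pos.2 (by linarith)
    have hA := h' x hxa hxb
    have hB : 0 ≤ lam - x ^ 2 := by nlinarith
    have hC := h x hxa hxb
    obtain ⟨R, hR⟩ : ∃ R, R = a + b * x + c * x ^ 2 + d * x ^ 3 := ⟨_, rfl⟩
    obtain ⟨R', hR'⟩ : ∃ R', R' = b + 2 * c * x + 3 * d * x ^ 2 := ⟨_, rfl⟩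
    rw [← hR, ← hR'] at hA hC ⊢
    obtain ⟨A, hAe⟩ : ∃ A, A = x - R - R' * (2 - x) := ⟨_, rfl⟩
    obtain ⟨l, hle'⟩ : ∃ l, l = lam - x ^ 2 := ⟨_, rfl⟩
    rw [← hAe] at hA hC
    rw [← hle'] at hB hC
    have hform : 0 ≤ A * P ^ 2 - 2 * ((2 - x) * R) * P * Q + l * (2 - x) * Q ^ 2 := by
      rcases eq_or_lt_of_le hB with h0 | h0
      · rw [← h0] at hC
        have h2 : R ^ 2 = 0 := by
          have h3 : 0 ≤ R ^ 2 := sq_nonneg R
          nlinarith
        have h4 : R = 0 := by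
          rwa [pow_eq_zero_iff (by norm_num)] at h2
        rw [h4, ← h0]
        have : 0 ≤ A * P ^ 2 := mul_nonneg hA (sq_nonneg P)
        linarith
      · have h1 : 0 ≤ l * (A * P ^ 2 - 2 * ((2 - x) * R) * P * Q + l * (2 - x) * Q ^ 2) := by
          have e2 : l * (A * P ^ 2 - 2 * ((2 - x) * R) * P * Q + l * (2 - x) * Q ^ 2) =
              (2 - x) * (l * Q - R * P) ^ 2 + (l * A - R ^ 2 * (2 - x)) * P ^ 2 := by ring
          rw [e2]
          have h3 : 0 ≤ l * A - R ^ 2 * (2 - x) := by linarith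
          have h4 : 0 ≤ 2 - x := by linarith
          positivity
        by_contra hneg
        push Not at hneg
        have := mul_neg_of_pos_of_neg h0 hneg
        linarith
    have hfin : (1 / T * (2 - x)⁻¹ ^ 2 * (x * T - T * R) + (2 - x)⁻¹ * (1 - R')) * P ^ 2 +
        (2 - x)⁻¹ * (x * T - T * R) * (2 * P * (Q / T)) +
        lam * T ^ 2 * ((2 - x)⁻¹ * (Q / T) ^ 2) -
        (2 - x)⁻¹ * (P + x * T * (Q / T)) ^ 2 =
        (2 - x)⁻¹ ^ 2 * (A * P ^ 2 - 2 * ((2 - x) * R) * P * Q + l * (2 - x) * Q ^ 2) := by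
      have h3 : (2 - x) ≠ 0 := by
        intro h4
        linarith
      rw [hAe, hle']
      field_simp
      ring
    have hpos := mul_nonneg (sq_nonneg (2 - x)⁻¹) hform
    rw [← hfin] at hpos
    linarith
  have i1 := int_wsq T (derivative (X * p)) (α * T) (β * T)
  have i2 : IntervalIntegrable (fun s => F' s + lam * T ^ 2 * (wt T s *
      (derivative p).eval s ^ 2)) volume (α * T) (β * T) :=
    hFi.add ((int_wsq T (derivative p) _ _).const_mul _)
  have hmono := intervalIntegral.integral_mono_on hle i1 i2 hpt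
  rw [intervalIntegral.integral_add hFi ((int_wsq T (derivative p) _ _).const_mul _), hint,
    intervalIntegral.integral_const_mul, hFv, hFv] at hmono
  rw [← intervalIntegral.integral_add_adjacent_intervals
    (int_wsq T (derivative (X * p)) 0 (α * T)) i1,
    ← intervalIntegral.integral_add_adjacent_intervals
    (int_wsq T (derivative p) 0 (α * T)) (int_wsq T (derivative p) (α * T) (β * T))]
  have hdα : 0 ≤ (2 - α)⁻¹ := inv_nonneg.2 (by linarith)
  have hjump : (2 - α)⁻¹ * (T * (α - r)) * p.eval (α * T) ^ 2 ≤ (2 - α)⁻¹ *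
      (T * (α - (a + b * α + c * α ^ 2 + d * α ^ 3))) * p.eval (α * T) ^ 2 := by
    apply mul_le_mul_of_nonneg_right _ (sq_nonneg _)
    apply mul_le_mul_of_nonneg_left _ hdα
    apply mul_le_mul_of_nonneg_left _ hT.le
    linarith
  linarith

theorem Up.cre {lam r g : ℝ} (hu : Up lam 1 r) (hg : 3 / 2 * (1 - r) ≤ g) : Cre lam g := by
  intro T hT p
  have h := hu.2.2 T hT p
  rw [one_mul] at h
  rw [dn_sq_eq T hT.le, dn_sq_eq T hT.le]
  have h5 := mul_le_mul_of_nonneg_left h (show 0 ≤ 3 / 2 * T by linarith)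
  refine h5.trans ?_
  have h6 : T ^ 2 * (3 / 2 * (1 - r) * p.eval T ^ 2) ≤ T ^ 2 * (g * p.eval T ^ 2) :=
    mul_le_mul_of_nonneg_left (mul_le_mul_of_nonneg_right hg (sq_nonneg _)) (sq_nonneg T)
  have e : 3 / 2 * T * ((2 - 1)⁻¹ * (T * (1 - r)) * p.eval T ^ 2 +
      lam * T ^ 2 * ∫ s in (0 : ℝ)..T, wt T s * (derivative p).eval s ^ 2) =
      T ^ 2 * (3 / 2 * (1 - r) * p.eval T ^ 2) + T ^ 2 * (lam * (3 / 2 * T *
        ∫ s in (0 : ℝ)..T, wt T s * (derivative p).eval s ^ 2)) := by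
    norm_num
    ring
  rw [e, mul_add]
  linarith

end Pool.Agent.TDV
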